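import Mathlib

/-!
# Invariant means on bounded functions on the integers
-/

namespace Pool.Agent.Helper4.Sumset

open Set Filter Topology

/-- Bounded sequences indexed by the integers. -/
def Bdd {E : Type*} [Norm E] (f : ℤ → E) : Prop := ∃ C : ℝ, ∀ n, ‖f n‖ ≤ C

section Bdd

variable {E : Type*} [SeminormedAddCommGroup E]

lemma Bdd.of_le {E : Type*} [Norm E] {f : ℤ → E} (C : ℝ) (h : ∀ n, ‖f n‖ ≤ C) : Bdd f := ⟨C, h⟩

lemma Bdd.exists_pos {f : ℤ → E} (hf : Bdd f) : ∃ C : ℝ, 0 < C ∧ ∀ n, ‖f n‖ ≤ C := by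
  obtain ⟨C, hC⟩ := hf
  exact ⟨max C 1, by positivity, fun n => (hC n).trans (le_max_left _ _)⟩

lemma Bdd.const (c : E) : Bdd (fun _ : ℤ => c) := ⟨‖c‖, fun _ => le_rfl⟩

lemma Bdd.add {f g : ℤ → E} (hf : Bdd f) (hg : Bdd g) : Bdd (fun n => f n + g n) := by
  obtain ⟨C, hC⟩ := hf
  obtain ⟨D, hD⟩ := hg
  exact ⟨C + D, fun n => (norm_add_le _ _).trans (add_le_add (hC n) (hD n))⟩

lemma Bdd.neg {f : ℤ → E} (hf : Bdd f) : Bdd (fun n => - f n) := by
  obtain ⟨C, hC⟩ := hf
  exact ⟨C, fun n => by rw [norm_neg]; exact hC n⟩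

lemma Bdd.sub {f g : ℤ → E} (hf : Bdd f) (hg : Bdd g) : Bdd (fun n => f n - g n) := by
  simpa [sub_eq_add_neg] using hf.add hg.neg

lemma Bdd.smul {R : Type*} [NormedRing R] [Module R E] [IsBoundedSMul R E] {f : ℤ → R} {g : ℤ → E}
    (hf : Bdd f) (hg : Bdd g) : Bdd (fun n => f n • g n) := by
  obtain ⟨C, hC0, hC⟩ := hf.exists_pos
  obtain ⟨D, hD0, hD⟩ := hg.exists_pos
  exact ⟨C * D, fun n => (norm_smul_le _ _).trans
    (mul_le_mul (hC n) (hD n) (norm_nonneg _) hC0.le)⟩

lemma Bdd.mul {R : Type*} [NormedRing R] {f g : ℤ → R} (hf : Bdd f) (hg : Bdd g) :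
    Bdd (fun n => f n * g n) := hf.smul hg

lemma Bdd.comp {E : Type*} [Norm E] {f : ℤ → E} (hf : Bdd f) (φ : ℤ → ℤ) :
    Bdd (fun n => f (φ n)) := by
  obtain ⟨C, hC⟩ := hf
  exact ⟨C, fun n => hC _⟩

lemma Bdd.norm {f : ℤ → E} (hf : Bdd f) : Bdd (fun n => ‖f n‖) := by
  obtain ⟨C, hC⟩ := hf
  exact ⟨C, fun n => by simpa using hC n⟩

lemma Bdd.mono {F : Type*} [SeminormedAddCommGroup F] {f : ℤ → E} {g : ℤ → F} (hg : Bdd g)
    (h : ∀ n, ‖f n‖ ≤ ‖g n‖) : Bdd f := by
  obtain ⟨C, hC⟩ := hg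
  exact ⟨C, fun n => (h n).trans (hC n)⟩

lemma Bdd.sum {ι : Type*} (s : Finset ι) {f : ι → ℤ → E} (hf : ∀ i ∈ s, Bdd (f i)) :
    Bdd (fun n => ∑ i ∈ s, f i n) := by
  classical
  induction s using Finset.induction_on with
  | empty => simpa using Bdd.const (0 : E)
  | insert a s ha ih =>
    simp only [Finset.sum_insert ha]
    exact (hf a (Finset.mem_insert_self _ _)).add
      (ih fun i hi => hf i (Finset.mem_insert_of_mem hi))

lemma Bdd.prod {ι : Type*} (s : Finset ι) {f : ι → ℤ → ℝ} (hf : ∀ i ∈ s, Bdd (f i)) :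
    Bdd (fun n => ∏ i ∈ s, f i n) := by
  classical
  induction s using Finset.induction_on with
  | empty => simpa using Bdd.const (1 : ℝ)
  | insert a s ha ih =>
    simp only [Finset.prod_insert ha]
    exact (hf a (Finset.mem_insert_self _ _)).mul
      (ih fun i hi => hf i (Finset.mem_insert_of_mem hi))

lemma Bdd.pow {f : ℤ → ℝ} (hf : Bdd f) (k : ℕ) : Bdd (fun n => f n ^ k) := by
  have := Bdd.prod (Finset.range k) (f := fun _ => f) (fun _ _ => hf)
  simpa using this

lemma Bdd.re {f : ℤ → ℂ} (hf : Bdd f) : Bdd (fun n => (f n).re) :=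
  hf.mono fun n => by simpa using Complex.abs_re_le_norm (f n)

lemma Bdd.im {f : ℤ → ℂ} (hf : Bdd f) : Bdd (fun n => (f n).im) :=
  hf.mono fun n => by simpa using Complex.abs_im_le_norm (f n)

lemma Bdd.ofReal {f : ℤ → ℝ} (hf : Bdd f) : Bdd (fun n => (f n : ℂ)) :=
  hf.mono fun n => by simp

lemma Bdd.conj {f : ℤ → ℂ} (hf : Bdd f) : Bdd (fun n => (starRingEnd ℂ) (f n)) :=
  hf.mono fun n => by simp

end Bdd

/-- Shift-invariant means on the bounded real functions on the integers, vanishing on functions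
supported on the negative half line. -/
structure IsMean (m : (ℤ → ℝ) → ℝ) : Prop where
  add : ∀ f g, Bdd f → Bdd g → m (fun n => f n + g n) = m f + m g
  smul : ∀ (c : ℝ) f, Bdd f → m (fun n => c * f n) = c * m f
  nonneg : ∀ f, Bdd f → (∀ n, 0 ≤ f n) → 0 ≤ m f
  one : m (fun _ => 1) = 1
  shift : ∀ f, Bdd f → m (fun n => f (n + 1)) = m f
  half : m (fun n => if n ≤ 0 then 1 else 0) = 0
  junk : ∀ f, ¬ Bdd f → m f = 0

/-- The set of invariant means. -/
def Means : Set ((ℤ → ℝ) → ℝ) := {m | IsMean m}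

namespace IsMean

variable {m : (ℤ → ℝ) → ℝ} (hm : IsMean m)

include hm

lemma const (c : ℝ) : m (fun _ => c) = c := by
  have := hm.smul c (fun _ => 1) (Bdd.const _)
  simpa [hm.one] using this

lemma zero : m (fun _ => 0) = 0 := hm.const 0

lemma neg {f : ℤ → ℝ} (hf : Bdd f) : m (fun n => - f n) = - m f := by
  have := hm.smul (-1) f hf
  simpa using this

lemma sub {f g : ℤ → ℝ} (hf : Bdd f) (hg : Bdd g) : m (fun n => f n - g n) = m f - m g := by
  have := hm.add f (fun n => - g n) hf hg.neg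
  rw [hm.neg hg] at this
  simpa [sub_eq_add_neg] using this

lemma mono {f g : ℤ → ℝ} (hf : Bdd f) (hg : Bdd g) (h : ∀ n, f n ≤ g n) : m f ≤ m g := by
  have := hm.nonneg (fun n => g n - f n) (hg.sub hf) (fun n => sub_nonneg.2 (h n))
  rw [hm.sub hg hf] at this
  linarith

lemma le_of_le {f : ℤ → ℝ} (hf : Bdd f) {C : ℝ} (h : ∀ n, f n ≤ C) : m f ≤ C := by
  have := hm.mono hf (Bdd.const C) h
  rwa [hm.const] at this

lemma ge_of_ge {f : ℤ → ℝ} (hf : Bdd f) {C : ℝ} (h : ∀ n, C ≤ f n) : C ≤ m f := by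
  have := hm.mono (Bdd.const C) hf h
  rwa [hm.const] at this

lemma abs_le {f : ℤ → ℝ} {C : ℝ} (h : ∀ n, |f n| ≤ C) : |m f| ≤ C := by
  have hf : Bdd f := ⟨C, h⟩
  rw [_root_.abs_le]
  exact ⟨hm.ge_of_ge hf fun n => (_root_.abs_le.1 (h n)).1,
    hm.le_of_le hf fun n => (_root_.abs_le.1 (h n)).2⟩

lemma abs_le_mean {f : ℤ → ℝ} (hf : Bdd f) : |m f| ≤ m (fun n => |f n|) := by
  have h2 : Bdd (fun n => |f n|) := hf.norm
  rw [_root_.abs_le]
  constructor
  · rw [← hm.neg h2]
    exact hm.mono h2.neg hf fun n => neg_abs_le _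
  · exact hm.mono hf h2 fun n => le_abs_self _

lemma sum {ι : Type*} (s : Finset ι) {f : ι → ℤ → ℝ} (hf : ∀ i ∈ s, Bdd (f i)) :
    m (fun n => ∑ i ∈ s, f i n) = ∑ i ∈ s, m (f i) := by
  classical
  induction s using Finset.induction_on with
  | empty => simpa using hm.zero
  | insert a s ha ih =>
    simp only [Finset.sum_insert ha]
    rw [hm.add _ _ (hf a (Finset.mem_insert_self _ _))
      (Bdd.sum _ fun i hi => hf i (Finset.mem_insert_of_mem hi)),
      ih fun i hi => hf i (Finset.mem_insert_of_mem hi)]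

lemma shift_nat {f : ℤ → ℝ} (hf : Bdd f) (k : ℕ) : m (fun n => f (n + k)) = m f := by
  induction k with
  | zero => simp
  | succ k ih =>
    have := hm.shift (fun n => f (n + k)) (hf.comp _)
    rw [ih] at this
    rw [← this]
    congr 1
    ext n
    push_cast
    ring_nf

lemma shift_int {f : ℤ → ℝ} (hf : Bdd f) (k : ℤ) : m (fun n => f (n + k)) = m f := by
  obtain ⟨j, rfl | rfl⟩ := Int.eq_nat_or_neg k
  · exact hm.shift_nat hf j
  · have := hm.shift_nat (f := fun n => f (n + -(j:ℤ))) (hf.comp _) j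
    rw [← this]
    congr 1
    ext n
    ring_nf

lemma half_shift (N : ℤ) : m (fun n => if n ≤ N then 1 else 0) = 0 := by
  have hb : Bdd (fun n : ℤ => if n ≤ 0 then (1:ℝ) else 0) :=
    ⟨1, fun n => by dsimp only; split_ifs <;> simp⟩
  have := hm.shift_int hb (-N)
  rw [hm.half] at this
  rw [← this]
  congr 1
  ext n
  congr 1
  simp

/-- Cauchy–Schwarz for the mean. -/
lemma cauchy_schwarz {f g : ℤ → ℝ} (hf : Bdd f) (hg : Bdd g) :
    (m (fun n => f n * g n)) ^ 2 ≤ m (fun n => f n ^ 2) * m (fun n => g n ^ 2) := by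
  have h0 : ∀ t : ℝ, 0 ≤ m (fun n => g n ^ 2) * (t * t) + (2 * m (fun n => f n * g n)) * t +
      m (fun n => f n ^ 2) := by
    intro t
    have h1 := hm.nonneg (fun n => (f n + t * g n) ^ 2)
      ((hf.add ((Bdd.const t).mul hg)).pow 2) (fun n => sq_nonneg _)
    have h2 : m (fun n => (f n + t * g n) ^ 2) = m (fun n => g n ^ 2) * (t * t) +
        (2 * m (fun n => f n * g n)) * t + m (fun n => f n ^ 2) := by
      have e : (fun n => (f n + t * g n) ^ 2) =
          fun n => ((t * t) * g n ^ 2 + (2 * t) * (f n * g n)) + f n ^ 2 := by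
        ext n; ring
      rw [e, hm.add _ _ (((Bdd.const _).mul (hg.pow 2)).add ((Bdd.const _).mul (hf.mul hg)))
        (hf.pow 2), hm.add _ _ ((Bdd.const _).mul (hg.pow 2)) ((Bdd.const _).mul (hf.mul hg)),
        hm.smul _ _ (hg.pow 2), hm.smul _ _ (hf.mul hg)]
      ring
    rwa [h2] at h1
  have h3 := discrim_le_zero h0
  unfold discrim at h3
  nlinarith

end IsMean

/-! ### Compactness and extreme points -/

lemma isClosed_means : IsClosed Means := by
  have hc : ∀ f : ℤ → ℝ, Continuous (fun m : (ℤ → ℝ) → ℝ => m f) := fun f => continuous_apply f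
  have h : Means =
      {m | ∀ f g, Bdd f → Bdd g → m (fun n => f n + g n) = m f + m g} ∩
      {m | ∀ (c : ℝ) f, Bdd f → m (fun n => c * f n) = c * m f} ∩
      {m | ∀ f, Bdd f → (∀ n, 0 ≤ f n) → 0 ≤ m f} ∩
      {m | m (fun _ => 1) = 1} ∩
      {m | ∀ f, Bdd f → m (fun n => f (n + 1)) = m f} ∩
      {m | m (fun n => if n ≤ 0 then 1 else 0) = 0} ∩
      {m | ∀ f, ¬ Bdd f → m f = 0} := by
    ext m
    constructor
    · intro h
      exact ⟨⟨⟨⟨⟨⟨h.add, h.smul⟩, h.nonneg⟩, h.one⟩, h.shift⟩, h.half⟩, h.junk⟩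
    · rintro ⟨⟨⟨⟨⟨⟨h1, h2⟩, h3⟩, h4⟩, h5⟩, h6⟩, h7⟩
      exact ⟨h1, h2, h3, h4, h5, h6, h7⟩
  rw [h]
  refine ((((((?_ : IsClosed _).inter ?_).inter ?_).inter ?_).inter ?_).inter ?_).inter ?_
  · simp only [ofPred_forall]
    refine isClosed_iInter fun f => isClosed_iInter fun g => isClosed_iInter fun _ =>
      isClosed_iInter fun _ => isClosed_eq (hc _) ((hc _).add (hc _))
  · simp only [ofPred_forall]
    refine isClosed_iInter fun c => isClosed_iInter fun f => isClosed_iInter fun _ =>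
      isClosed_eq (hc _) ((hc _).const_mul _ |>.congr fun m => by ring)
  · simp only [ofPred_forall]
    refine isClosed_iInter fun f => isClosed_iInter fun _ => isClosed_iInter fun _ =>
      isClosed_le continuous_const (hc _)
  · exact isClosed_eq (hc _) continuous_const
  · simp only [ofPred_forall]
    refine isClosed_iInter fun f => isClosed_iInter fun _ => isClosed_eq (hc _) (hc _)
  · exact isClosed_eq (hc _) continuous_const
  · simp only [ofPred_forall]
    refine isClosed_iInter fun f => isClosed_iInter fun _ => isClosed_eq (hc _) continuous_const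

open Classical in
/-- A bound for a bounded function. -/
noncomputable def bnd (f : ℤ → ℝ) : ℝ := if h : Bdd f then h.choose else 0

lemma le_bnd {f : ℤ → ℝ} (hf : Bdd f) (n : ℤ) : |f n| ≤ bnd f := by
  unfold bnd
  rw [dif_pos hf]
  exact hf.choose_spec n

lemma IsMean.mem_Icc {m : (ℤ → ℝ) → ℝ} (hm : IsMean m) (f : ℤ → ℝ) :
    m f ∈ Icc (-bnd f) (bnd f) := by
  by_cases hf : Bdd f
  · exact _root_.abs_le.1 (hm.abs_le (le_bnd hf))
  · rw [hm.junk f hf, bnd, dif_neg hf]
    simp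

lemma isCompact_means : IsCompact Means := by
  have h : Means ⊆ Set.pi univ (fun f => Icc (-bnd f) (bnd f)) :=
    fun m hm f _ => IsMean.mem_Icc hm f
  exact (isCompact_univ_pi fun f => isCompact_Icc).of_isClosed_subset isClosed_means h

/-- A linear functional attains its maximum over the invariant means at an extreme point. -/
theorem exists_extreme {m0 : (ℤ → ℝ) → ℝ} (hm0 : IsMean m0) (h : ℤ → ℝ) :
    ∃ m ∈ extremePoints ℝ Means, m0 h ≤ m h := by
  let l : StrongDual ℝ ((ℤ → ℝ) → ℝ) := ContinuousLinearMap.proj h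
  have hl : ∀ m, l m = m h := fun m => rfl
  have hexp : IsExposed ℝ Means (l.toExposed Means) := ContinuousLinearMap.toExposed.isExposed
  have hne : (l.toExposed Means).Nonempty := by
    obtain ⟨m, hm, hmax⟩ := isCompact_means.exists_isMaxOn ⟨m0, hm0⟩ l.continuous.continuousOn
    exact ⟨m, hm, fun y hy => hmax hy⟩
  obtain ⟨m, hm⟩ := (hexp.isCompact isCompact_means).extremePoints_nonempty hne
  refine ⟨m, hexp.isExtreme.extremePoints_subset_extremePoints hm, ?_⟩
  have := extremePoints_subset hm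
  exact this.2 m0 hm0

end Pool.Agent.Helper4.Sumset
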