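import Mathlib
import Pool.Agent.Lib.Helper4.Sumset.Mean

/-!
# The Hilbert space of an invariant mean
-/

namespace Pool.Agent.Helper4.Sumset

open Set Filter Topology Complex
open scoped InnerProductSpace ComplexConjugate

/-! ### Complex valued means -/

/-- The mean of a complex valued function. -/
noncomputable def cm (m : (ℤ → ℝ) → ℝ) (f : ℤ → ℂ) : ℂ :=
  ⟨m (fun n => (f n).re), m (fun n => (f n).im)⟩

section cm

variable {m : (ℤ → ℝ) → ℝ} (hm : IsMean m)

@[simp] lemma cm_re (f : ℤ → ℂ) : (cm m f).re = m (fun n => (f n).re) := rfl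
@[simp] lemma cm_im (f : ℤ → ℂ) : (cm m f).im = m (fun n => (f n).im) := rfl

include hm

lemma cm_add {f g : ℤ → ℂ} (hf : Bdd f) (hg : Bdd g) :
    cm m (fun n => f n + g n) = cm m f + cm m g := by
  apply Complex.ext
  · simp only [cm_re, add_re]
    exact hm.add _ _ hf.re hg.re
  · simp only [cm_im, add_im]
    exact hm.add _ _ hf.im hg.im

lemma cm_smul {f : ℤ → ℂ} (c : ℂ) (hf : Bdd f) : cm m (fun n => c * f n) = c * cm m f := by
  apply Complex.ext
  · simp only [cm_re, mul_re, cm_im]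
    rw [hm.sub ((Bdd.const _).mul hf.re) ((Bdd.const _).mul hf.im), hm.smul _ _ hf.re,
      hm.smul _ _ hf.im]
  · simp only [cm_re, mul_im, cm_im]
    rw [hm.add _ _ ((Bdd.const _).mul hf.im) ((Bdd.const _).mul hf.re), hm.smul _ _ hf.re,
      hm.smul _ _ hf.im]

lemma cm_ofReal (f : ℤ → ℝ) : cm m (fun n => (f n : ℂ)) = (m f : ℂ) := by
  apply Complex.ext
  · simp
  · simp [hm.zero]

lemma cm_const (c : ℂ) : cm m (fun _ => c) = c := by
  apply Complex.ext
  · simp [hm.const]
  · simp [hm.const]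

lemma cm_conj {f : ℤ → ℂ} (hf : Bdd f) : cm m (fun n => conj (f n)) = conj (cm m f) := by
  apply Complex.ext
  · simp
  · simp only [cm_im, conj_im]
    exact hm.neg hf.im

lemma cm_neg {f : ℤ → ℂ} (hf : Bdd f) : cm m (fun n => - f n) = - cm m f := by
  have := cm_smul hm (-1) hf
  simpa using this

lemma cm_sub {f g : ℤ → ℂ} (hf : Bdd f) (hg : Bdd g) :
    cm m (fun n => f n - g n) = cm m f - cm m g := by
  have := cm_add hm hf hg.neg
  rw [cm_neg hm hg] at this
  simpa [sub_eq_add_neg] using this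

lemma cm_shift {f : ℤ → ℂ} (hf : Bdd f) (k : ℤ) : cm m (fun n => f (n + k)) = cm m f := by
  apply Complex.ext
  · exact hm.shift_int hf.re k
  · exact hm.shift_int hf.im k

lemma cm_sum {ι : Type*} (s : Finset ι) {f : ι → ℤ → ℂ} (hf : ∀ i ∈ s, Bdd (f i)) :
    cm m (fun n => ∑ i ∈ s, f i n) = ∑ i ∈ s, cm m (f i) := by
  apply Complex.ext
  · simp only [cm_re, re_sum]
    exact hm.sum s fun i hi => (hf i hi).re
  · simp only [cm_im, im_sum]
    exact hm.sum s fun i hi => (hf i hi).im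

lemma norm_cm_le {f : ℤ → ℂ} (hf : Bdd f) : ‖cm m f‖ ≤ m (fun n => ‖f n‖) := by
  by_cases h0 : cm m f = 0
  · rw [h0, norm_zero]
    exact hm.nonneg _ hf.norm fun n => norm_nonneg _
  set c : ℂ := conj (cm m f) / ‖cm m f‖ with hc
  have hn : (‖cm m f‖ : ℂ) ≠ 0 := by
    rw [Ne, ofReal_eq_zero, norm_eq_zero]; exact h0
  have hcn : ‖c‖ = 1 := by
    rw [hc, norm_div, RCLike.norm_conj, norm_real, norm_norm, div_self]
    simpa using h0
  have h1 : c * cm m f = ‖cm m f‖ := by
    rw [hc, div_mul_eq_mul_div, mul_comm, mul_conj, normSq_eq_norm_sq]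
    push_cast
    field_simp
  have h2 : ‖cm m f‖ = m (fun n => (c * f n).re) := by
    have := congrArg Complex.re h1
    rw [← cm_smul hm c hf, cm_re, ofReal_re] at this
    exact this.symm
  rw [h2]
  refine hm.mono ((Bdd.const c).mul hf).re hf.norm fun n => ?_
  refine (re_le_norm _).trans ?_
  rw [norm_mul, hcn, one_mul]

lemma norm_cm_le_of_le {f : ℤ → ℂ} {C : ℝ} (h : ∀ n, ‖f n‖ ≤ C) : ‖cm m f‖ ≤ C :=
  (norm_cm_le hm ⟨C, h⟩).trans (hm.le_of_le (Bdd.norm ⟨C, h⟩) h)

/-- A function with a nontrivial quasi-period has mean zero. -/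
lemma cm_eq_zero_of_quasi {f : ℤ → ℂ} (hf : Bdd f) {p : ℤ} {u : ℂ} (hu : u ≠ 1)
    (h : ∀ n, f (n + p) = u * f n) : cm m f = 0 := by
  have h1 := cm_shift hm hf p
  simp only [h] at h1
  rw [cm_smul hm u hf] at h1
  have : (u - 1) * cm m f = 0 := by rw [sub_mul, h1, one_mul, sub_self]
  rcases mul_eq_zero.1 this with h2 | h2
  · exact absurd (sub_eq_zero.1 h2) hu
  · exact h2

end cm

/-! ### The Hilbert space -/

/-- The space of bounded complex functions. -/
def bddSub : Submodule ℂ (ℤ → ℂ) where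
  carrier := {f | Bdd f}
  add_mem' := fun hf hg => hf.add hg
  zero_mem' := Bdd.const 0
  smul_mem' := fun c _ hf => (Bdd.const c).mul hf

/-- Bundled invariant means. -/
abbrev IMean := {m : (ℤ → ℝ) → ℝ // IsMean m}

set_option linter.unusedVariables false in
/-- The pre-Hilbert space of bounded functions. -/
def PreH (μ : IMean) : Type := bddSub

variable (μ : IMean)

instance : AddCommGroup (PreH μ) := inferInstanceAs (AddCommGroup bddSub)
noncomputable instance : Module ℂ (PreH μ) := inferInstanceAs (Module ℂ bddSub)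

/-- The underlying function. -/
def PreH.fn {μ : IMean} (a : PreH μ) : ℤ → ℂ := (show bddSub from a).1

lemma PreH.bdd {μ : IMean} (a : PreH μ) : Bdd a.fn := (show bddSub from a).2

/-- Bounded functions as elements of the pre-Hilbert space. -/
def toPre (f : ℤ → ℂ) (hf : Bdd f) : PreH μ := (⟨f, hf⟩ : bddSub)

@[simp] lemma toPre_fn {f : ℤ → ℂ} (hf : Bdd f) : (toPre μ f hf).fn = f := rfl
@[simp] lemma PreH.add_fn {μ : IMean} (a b : PreH μ) (n : ℤ) : (a + b).fn n = a.fn n + b.fn n := rfl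
@[simp] lemma PreH.smul_fn {μ : IMean} (c : ℂ) (a : PreH μ) (n : ℤ) :
    (c • a).fn n = c * a.fn n := rfl

lemma PreH.ext {μ : IMean} {a b : PreH μ} (h : a.fn = b.fn) : a = b := Subtype.ext h

/-- The semi-inner product. -/
noncomputable abbrev preCore : PreInnerProductSpace.Core ℂ (PreH μ) where
  inner a b := cm μ.1 (fun n => conj (a.fn n) * b.fn n)
  conj_inner_symm a b := by
    rw [← cm_conj μ.2 (b.bdd.conj.mul a.bdd)]
    congr 1
    ext n
    simp [mul_comm]
  re_inner_nonneg a := by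
    have : RCLike.re (cm μ.1 (fun n => conj (a.fn n) * a.fn n)) =
        μ.1 (fun n => ‖a.fn n‖ ^ 2) := by
      change (cm μ.1 (fun n => conj (a.fn n) * a.fn n)).re = _
      rw [cm_re]
      refine congrArg _ (funext fun n => ?_)
      rw [mul_comm, mul_conj, normSq_eq_norm_sq, ofReal_re]
    rw [this]
    exact μ.2.nonneg _ (a.bdd.norm.pow 2) fun n => by positivity
  add_left a b c := by
    rw [← cm_add μ.2 (a.bdd.conj.mul c.bdd) (b.bdd.conj.mul c.bdd)]
    congr 1
    ext n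
    simp [add_mul]
  smul_left a b r := by
    rw [← cm_smul μ.2 _ (a.bdd.conj.mul b.bdd)]
    congr 1
    ext n
    simp [mul_assoc]

noncomputable instance : SeminormedAddCommGroup (PreH μ) :=
  InnerProductSpace.Core.toSeminormedAddCommGroup (c := preCore μ)
noncomputable instance : InnerProductSpace ℂ (PreH μ) :=
  InnerProductSpace.ofCore (preCore μ)

lemma preH_inner (a b : PreH μ) : ⟪a, b⟫_ℂ = cm μ.1 (fun n => conj (a.fn n) * b.fn n) := rfl

lemma preH_norm_sq (a : PreH μ) : ‖a‖ ^ 2 = μ.1 (fun n => ‖a.fn n‖ ^ 2) := by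
  rw [@norm_sq_eq_re_inner ℂ, preH_inner]
  change (cm μ.1 (fun n => conj (a.fn n) * a.fn n)).re = _
  rw [cm_re]
  refine congrArg _ (funext fun n => ?_)
  rw [mul_comm, mul_conj, normSq_eq_norm_sq, ofReal_re]

/-- The Hilbert space. -/
abbrev HH := UniformSpace.Completion (PreH μ)

open Classical in
/-- The embedding of bounded functions. -/
noncomputable def emb (f : ℤ → ℂ) : HH μ := if h : Bdd f then (toPre μ f h : HH μ) else 0

lemma emb_of {f : ℤ → ℂ} (hf : Bdd f) : emb μ f = (toPre μ f hf : HH μ) := by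
  rw [emb, dif_pos hf]

lemma coe_eq_emb (a : PreH μ) : (a : HH μ) = emb μ a.fn := by
  rw [emb_of μ a.bdd]; rfl

lemma inner_emb {f g : ℤ → ℂ} (hf : Bdd f) (hg : Bdd g) :
    ⟪emb μ f, emb μ g⟫_ℂ = cm μ.1 (fun n => conj (f n) * g n) := by
  rw [emb_of μ hf, emb_of μ hg, UniformSpace.Completion.inner_coe, preH_inner]
  rfl

lemma norm_emb_sq {f : ℤ → ℂ} (hf : Bdd f) : ‖emb μ f‖ ^ 2 = μ.1 (fun n => ‖f n‖ ^ 2) := by
  rw [emb_of μ hf, UniformSpace.Completion.norm_coe, preH_norm_sq]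
  rfl

lemma emb_add {f g : ℤ → ℂ} (hf : Bdd f) (hg : Bdd g) :
    emb μ (fun n => f n + g n) = emb μ f + emb μ g := by
  rw [emb_of μ hf, emb_of μ hg, emb_of μ (hf.add hg), ← UniformSpace.Completion.coe_add]
  rfl

lemma emb_smul {f : ℤ → ℂ} (c : ℂ) (hf : Bdd f) :
    emb μ (fun n => c * f n) = c • emb μ f := by
  rw [emb_of μ hf, emb_of μ ((Bdd.const c).mul hf), ← UniformSpace.Completion.coe_smul]
  rfl

lemma emb_zero : emb μ (fun _ => 0) = 0 := by
  have := emb_smul μ 0 (Bdd.const (0:ℂ))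
  simpa using this

lemma emb_neg {f : ℤ → ℂ} (hf : Bdd f) : emb μ (fun n => - f n) = - emb μ f := by
  have := emb_smul μ (-1) hf
  simpa using this

lemma emb_sub {f g : ℤ → ℂ} (hf : Bdd f) (hg : Bdd g) :
    emb μ (fun n => f n - g n) = emb μ f - emb μ g := by
  have := emb_add μ hf hg.neg
  rw [emb_neg μ hg] at this
  simpa [sub_eq_add_neg] using this

lemma emb_sum {ι : Type*} (s : Finset ι) {f : ι → ℤ → ℂ} (hf : ∀ i ∈ s, Bdd (f i)) :
    emb μ (fun n => ∑ i ∈ s, f i n) = ∑ i ∈ s, emb μ (f i) := by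
  classical
  induction s using Finset.induction_on with
  | empty => simpa using emb_zero μ
  | insert a s ha ih =>
    simp only [Finset.sum_insert ha]
    rw [emb_add μ (hf a (Finset.mem_insert_self _ _))
      (Bdd.sum _ fun i hi => hf i (Finset.mem_insert_of_mem hi)),
      ih fun i hi => hf i (Finset.mem_insert_of_mem hi)]

lemma norm_emb_le {f : ℤ → ℂ} {C : ℝ} (hC : 0 ≤ C) (h : ∀ n, ‖f n‖ ≤ C) : ‖emb μ f‖ ≤ C := by
  have hf : Bdd f := ⟨C, h⟩
  have h1 : ‖emb μ f‖ ^ 2 ≤ C ^ 2 := by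
    rw [norm_emb_sq μ hf]
    exact μ.2.le_of_le (hf.norm.pow 2) fun n => by
      have := h n
      gcongr
  exact (sq_le_sq₀ (norm_nonneg _) hC).1 h1

/-- Induction principle: closed properties hold if they hold for bounded functions. -/
lemma hh_induction {p : HH μ → Prop} (hp : IsClosed {x | p x})
    (h : ∀ f, Bdd f → p (emb μ f)) (x : HH μ) : p x := by
  induction x using UniformSpace.Completion.induction_on with
  | hp => exact hp
  | ih a => rw [coe_eq_emb]; exact h _ a.bdd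

lemma exists_emb_near (x : HH μ) {ε : ℝ} (hε : 0 < ε) :
    ∃ f, Bdd f ∧ ‖x - emb μ f‖ < ε := by
  obtain ⟨a, ha⟩ := Metric.denseRange_iff.1
    (UniformSpace.Completion.denseRange_coe (α := PreH μ)) x ε hε
  refine ⟨a.fn, a.bdd, ?_⟩
  rw [← coe_eq_emb, ← dist_eq_norm]
  exact ha

end Pool.Agent.Helper4.Sumset
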