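import Mathlib
import Pool.Agent.Lib.Helper4.Sumset.Hilb

/-!
# Multiplication and shift operators
-/

namespace Pool.Agent.Helper4.Sumset

open Set Filter Topology Complex
open scoped InnerProductSpace ComplexConjugate

variable (μ : IMean)

/-- Multiplication by a bounded function, on the pre-Hilbert space. -/
noncomputable def mulPre (a : ℤ → ℂ) (ha : Bdd a) : PreH μ →L[ℂ] PreH μ :=
  LinearMap.mkContinuous
    { toFun := fun x => toPre μ (fun n => a n * x.fn n) (ha.mul x.bdd)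
      map_add' := fun x y => PreH.ext (by ext n; simp [mul_add])
      map_smul' := fun c x => PreH.ext (by ext n; simp; ring) }
    ha.exists_pos.choose (fun x => by
      obtain ⟨hC0, hC⟩ := ha.exists_pos.choose_spec
      set C := ha.exists_pos.choose
      have h1 : ‖toPre μ (fun n => a n * x.fn n) (ha.mul x.bdd)‖ ^ 2 ≤ (C * ‖x‖) ^ 2 := by
        rw [preH_norm_sq, mul_pow, preH_norm_sq, ← μ.2.smul _ _ (x.bdd.norm.pow 2)]
        refine μ.2.mono ((ha.mul x.bdd).norm.pow 2) ((Bdd.const _).mul (x.bdd.norm.pow 2))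
          fun n => ?_
        simp only [toPre_fn, norm_mul, mul_pow]
        have := hC n
        gcongr
      exact (sq_le_sq₀ (norm_nonneg _) (by positivity)).1 h1)

/-- The shift on the pre-Hilbert space. -/
noncomputable def shiftPre (k : ℤ) : PreH μ →L[ℂ] PreH μ :=
  LinearMap.mkContinuous
    { toFun := fun x => toPre μ (fun n => x.fn (n + k)) (x.bdd.comp _)
      map_add' := fun x y => PreH.ext (by ext n; simp)
      map_smul' := fun c x => PreH.ext (by ext n; simp) }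
    1 (fun x => by
      have h1 : ‖toPre μ (fun n => x.fn (n + k)) (x.bdd.comp _)‖ ^ 2 = (1 * ‖x‖) ^ 2 := by
        rw [preH_norm_sq, one_mul, preH_norm_sq]
        exact μ.2.shift_int (f := fun n => ‖x.fn n‖ ^ 2) (x.bdd.norm.pow 2) k
      exact (sq_le_sq₀ (norm_nonneg _) (by positivity)).1 h1.le)

open Classical in
/-- Multiplication by a bounded function. -/
noncomputable def T (a : ℤ → ℂ) : HH μ →L[ℂ] HH μ :=
  if h : Bdd a then (mulPre μ a h).completion else 0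

/-- The shift operator. -/
noncomputable def U (k : ℤ) : HH μ →L[ℂ] HH μ := (shiftPre μ k).completion

lemma T_emb {a f : ℤ → ℂ} (ha : Bdd a) (hf : Bdd f) :
    T μ a (emb μ f) = emb μ (fun n => a n * f n) := by
  rw [T, dif_pos ha, emb_of μ hf, emb_of μ (ha.mul hf), ContinuousLinearMap.completion_apply_coe]
  rfl

lemma U_emb {f : ℤ → ℂ} (k : ℤ) (hf : Bdd f) :
    U μ k (emb μ f) = emb μ (fun n => f (n + k)) := by
  rw [U, emb_of μ hf, emb_of μ (hf.comp fun n => n + k), ContinuousLinearMap.completion_apply_coe]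
  rfl

lemma U_zero (x : HH μ) : U μ 0 x = x := by
  refine hh_induction μ (p := fun x => U μ 0 x = x)
    (isClosed_eq (U μ 0).continuous continuous_id) (fun f hf => ?_) x
  rw [U_emb μ 0 hf]
  simp

lemma U_add (j k : ℤ) (x : HH μ) : U μ (j + k) x = U μ j (U μ k x) := by
  refine hh_induction μ (p := fun x => U μ (j + k) x = U μ j (U μ k x))
    (isClosed_eq (by fun_prop) (by fun_prop)) (fun f hf => ?_) x
  rw [U_emb μ _ hf, U_emb μ _ hf, U_emb μ _ (hf.comp _)]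
  simp [add_assoc]

lemma U_neg_U (k : ℤ) (x : HH μ) : U μ (-k) (U μ k x) = x := by
  rw [← U_add, neg_add_cancel, U_zero]

lemma U_U_neg (k : ℤ) (x : HH μ) : U μ k (U μ (-k) x) = x := by
  rw [← U_add, add_neg_cancel, U_zero]

lemma inner_U_U (k : ℤ) (x y : HH μ) : ⟪U μ k x, U μ k y⟫_ℂ = ⟪x, y⟫_ℂ := by
  refine hh_induction μ (p := fun x => ⟪U μ k x, U μ k y⟫_ℂ = ⟪x, y⟫_ℂ)
    (isClosed_eq (by fun_prop) (by fun_prop)) (fun f hf => ?_) x
  refine hh_induction μ (p := fun y => ⟪U μ k (emb μ f), U μ k y⟫_ℂ = ⟪emb μ f, y⟫_ℂ)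
    (isClosed_eq (by fun_prop) (by fun_prop)) (fun g hg => ?_) y
  rw [U_emb μ k hf, U_emb μ k hg, inner_emb μ hf hg, inner_emb μ (hf.comp _) (hg.comp _)]
  exact cm_shift μ.2 (hf.conj.mul hg) k

lemma inner_U_left (k : ℤ) (x y : HH μ) : ⟪U μ k x, y⟫_ℂ = ⟪x, U μ (-k) y⟫_ℂ := by
  rw [← inner_U_U μ (-k) (U μ k x) y, U_neg_U]

lemma norm_U (k : ℤ) (x : HH μ) : ‖U μ k x‖ = ‖x‖ := by
  have h : ‖U μ k x‖ ^ 2 = ‖x‖ ^ 2 := by
    rw [@norm_sq_eq_re_inner ℂ, @norm_sq_eq_re_inner ℂ, inner_U_U]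
  exact (sq_eq_sq₀ (norm_nonneg _) (norm_nonneg _)).1 h

lemma inner_T_left {a : ℤ → ℂ} (ha : Bdd a) (x y : HH μ) :
    ⟪T μ a x, y⟫_ℂ = ⟪x, T μ (fun n => conj (a n)) y⟫_ℂ := by
  refine hh_induction μ (p := fun x => ⟪T μ a x, y⟫_ℂ = ⟪x, T μ (fun n => conj (a n)) y⟫_ℂ)
    (isClosed_eq (by fun_prop) (by fun_prop)) (fun f hf => ?_) x
  refine hh_induction μ
    (p := fun y => ⟪T μ a (emb μ f), y⟫_ℂ = ⟪emb μ f, T μ (fun n => conj (a n)) y⟫_ℂ)
    (isClosed_eq (by fun_prop) (by fun_prop)) (fun g hg => ?_) y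
  rw [T_emb μ ha hf, T_emb μ ha.conj hg, inner_emb μ (ha.mul hf) hg,
    inner_emb μ hf (ha.conj.mul hg)]
  congr 1
  ext n
  simp
  ring

lemma T_mul {a b : ℤ → ℂ} (ha : Bdd a) (hb : Bdd b) (x : HH μ) :
    T μ a (T μ b x) = T μ (fun n => a n * b n) x := by
  refine hh_induction μ (p := fun x => T μ a (T μ b x) = T μ (fun n => a n * b n) x)
    (isClosed_eq (by fun_prop) (by fun_prop)) (fun f hf => ?_) x
  rw [T_emb μ hb hf, T_emb μ ha (hb.mul hf), T_emb μ (ha.mul hb) hf]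
  simp [mul_assoc]

lemma T_one (x : HH μ) : T μ (fun _ => 1) x = x := by
  refine hh_induction μ (p := fun x => T μ (fun _ => 1) x = x)
    (isClosed_eq (by fun_prop) (by fun_prop)) (fun f hf => ?_) x
  rw [T_emb μ (Bdd.const _) hf]
  simp

lemma T_smul {a : ℤ → ℂ} (c : ℂ) (ha : Bdd a) (x : HH μ) :
    T μ (fun n => c * a n) x = c • T μ a x := by
  refine hh_induction μ (p := fun x => T μ (fun n => c * a n) x = c • T μ a x)
    (isClosed_eq (T μ _).continuous ((T μ a).continuous.const_smul c)) (fun f hf => ?_) x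
  rw [T_emb μ ha hf, T_emb μ ((Bdd.const c).mul ha) hf, ← emb_smul μ c (ha.mul hf)]
  simp [mul_assoc]

lemma T_sum {ι : Type*} (s : Finset ι) {a : ι → ℤ → ℂ} (ha : ∀ i ∈ s, Bdd (a i)) (x : HH μ) :
    T μ (fun n => ∑ i ∈ s, a i n) x = ∑ i ∈ s, T μ (a i) x := by
  refine hh_induction μ (p := fun x => T μ (fun n => ∑ i ∈ s, a i n) x = ∑ i ∈ s, T μ (a i) x)
    (isClosed_eq (T μ _).continuous (continuous_finsetSum s fun i _ => (T μ (a i)).continuous))
    (fun f hf => ?_) x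
  rw [T_emb μ (Bdd.sum s ha) hf]
  have : ∀ i ∈ s, T μ (a i) (emb μ f) = emb μ (fun n => a i n * f n) := fun i hi =>
    T_emb μ (ha i hi) hf
  rw [Finset.sum_congr rfl this, ← emb_sum μ s fun i hi => (ha i hi).mul hf]
  simp [Finset.sum_mul]

lemma U_T {a : ℤ → ℂ} (k : ℤ) (ha : Bdd a) (x : HH μ) :
    U μ k (T μ a x) = T μ (fun n => a (n + k)) (U μ k x) := by
  refine hh_induction μ (p := fun x => U μ k (T μ a x) = T μ (fun n => a (n + k)) (U μ k x))
    (isClosed_eq (by fun_prop) (by fun_prop)) (fun f hf => ?_) x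
  rw [T_emb μ ha hf, U_emb μ k hf, U_emb μ k (ha.mul hf), T_emb μ (ha.comp _) (hf.comp _)]

lemma norm_T_le {a : ℤ → ℂ} {C : ℝ} (hC0 : 0 ≤ C) (hC : ∀ n, ‖a n‖ ≤ C) (x : HH μ) :
    ‖T μ a x‖ ≤ C * ‖x‖ := by
  have ha : Bdd a := ⟨C, hC⟩
  refine hh_induction μ (p := fun x => ‖T μ a x‖ ≤ C * ‖x‖)
    (isClosed_le (by fun_prop) (by fun_prop)) (fun f hf => ?_) x
  rw [T_emb μ ha hf]
  have h1 : ‖emb μ (fun n => a n * f n)‖ ^ 2 ≤ (C * ‖emb μ f‖) ^ 2 := by
    rw [norm_emb_sq μ (ha.mul hf), mul_pow, norm_emb_sq μ hf, ← μ.2.smul _ _ (hf.norm.pow 2)]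
    refine μ.2.mono ((ha.mul hf).norm.pow 2) ((Bdd.const _).mul (hf.norm.pow 2)) fun n => ?_
    simp only [norm_mul, mul_pow]
    have := hC n
    gcongr
  exact (sq_le_sq₀ (norm_nonneg _) (by positivity)).1 h1

lemma T_nonneg {a : ℤ → ℝ} (ha : Bdd a) (h : ∀ n, 0 ≤ a n) (x : HH μ) :
    0 ≤ (⟪x, T μ (fun n => (a n : ℂ)) x⟫_ℂ).re := by
  refine hh_induction μ (p := fun x => 0 ≤ (⟪x, T μ (fun n => (a n : ℂ)) x⟫_ℂ).re)
    (isClosed_le continuous_const (by fun_prop)) (fun f hf => ?_) x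
  rw [T_emb μ ha.ofReal hf, inner_emb μ hf (ha.ofReal.mul hf), cm_re]
  refine μ.2.nonneg _ (hf.conj.mul (ha.ofReal.mul hf)).re fun n => ?_
  have : conj (f n) * ((a n : ℂ) * f n) = ((a n * ‖f n‖ ^ 2 : ℝ) : ℂ) := by
    rw [mul_left_comm, mul_comm (conj (f n)), mul_conj, normSq_eq_norm_sq]
    push_cast
    ring
  rw [this, ofReal_re]
  exact mul_nonneg (h n) (by positivity)

/-- Cauchy–Schwarz for the semi-inner product defined by a nonnegative multiplier. -/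
lemma T_cauchy_schwarz {a : ℤ → ℝ} (ha : Bdd a) (h : ∀ n, 0 ≤ a n) (x y : HH μ) :
    ‖⟪x, T μ (fun n => (a n : ℂ)) y⟫_ℂ‖ ^ 2 ≤
      (⟪x, T μ (fun n => (a n : ℂ)) x⟫_ℂ).re * (⟪y, T μ (fun n => (a n : ℂ)) y⟫_ℂ).re := by
  set b : ℤ → ℂ := fun n => ((Real.sqrt (a n) : ℝ) : ℂ) with hb
  have hbb : Bdd b := by
    obtain ⟨C, hC0, hC⟩ := ha.exists_pos
    refine ⟨Real.sqrt C, fun n => ?_⟩
    rw [hb]
    simp only [norm_real, Real.norm_eq_abs, abs_of_nonneg (Real.sqrt_nonneg _)]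
    exact Real.sqrt_le_sqrt ((le_abs_self _).trans (hC n))
  have hbc : (fun n => conj (b n)) = b := by
    ext n
    simp [hb]
  have hba : (fun n => (a n : ℂ)) = fun n => b n * b n := by
    ext n
    rw [hb]
    simp only [← ofReal_mul, Real.mul_self_sqrt (h n)]
  have key : ∀ u v : HH μ, ⟪u, T μ (fun n => (a n : ℂ)) v⟫_ℂ = ⟪T μ b u, T μ b v⟫_ℂ := by
    intro u v
    rw [inner_T_left μ hbb, hbc, T_mul μ hbb hbb, ← hba]
  rw [key, key, key]
  have h1 := norm_inner_le_norm (𝕜 := ℂ) (T μ b x) (T μ b y)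
  have h2 : (⟪T μ b x, T μ b x⟫_ℂ).re = ‖T μ b x‖ ^ 2 := (norm_sq_eq_re_inner (𝕜 := ℂ) _).symm
  have h3 : (⟪T μ b y, T μ b y⟫_ℂ).re = ‖T μ b y‖ ^ 2 := (norm_sq_eq_re_inner (𝕜 := ℂ) _).symm
  rw [h2, h3, ← mul_pow]
  gcongr

end Pool.Agent.Helper4.Sumset
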