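import Mathlib
import Pool.Agent.Lib.Helper4.Sumset.Ops

/-!
# Extreme invariant means are ergodic
-/

namespace Pool.Agent.Helper4.Sumset

open Set Filter Topology Complex
open scoped InnerProductSpace ComplexConjugate

variable (μ : IMean)

/-- The mean is an extreme point of the set of invariant means. -/
def IsErg : Prop := μ.1 ∈ extremePoints ℝ Means

/-- The constant function one, as a vector. -/
noncomputable def one' : HH μ := emb μ (fun _ => 1)

lemma U_iterate (n : ℕ) (x : HH μ) : (U μ 1)^[n] x = U μ n x := by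
  induction n with
  | zero => simp [U_zero]
  | succ n ih =>
    rw [Function.iterate_succ_apply', ih, ← U_add]
    congr 2
    push_cast
    ring

/-- The projection onto the invariant vectors, with the mean ergodic theorem. -/
lemma exists_proj (x : HH μ) : ∃ y : HH μ, U μ 1 y = y ∧
    (∀ v, U μ 1 v = v → ⟪x, v⟫_ℂ = ⟪y, v⟫_ℂ) ∧
    ∀ g : HH μ, Tendsto (fun N : ℕ => (N : ℂ)⁻¹ * ∑ j ∈ Finset.range N, ⟪U μ j x, g⟫_ℂ) atTop
      (𝓝 ⟪y, g⟫_ℂ) := by
  have hU : ‖U μ 1‖ ≤ 1 := ContinuousLinearMap.opNorm_le_bound _ zero_le_one fun x => by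
    rw [norm_U, one_mul]
  have h := ContinuousLinearMap.tendsto_birkhoffAverage_orthogonalProjection (U μ 1) hU x
  set K := (U μ 1).eqLocus (1 : HH μ →L[ℂ] HH μ) with hK
  have hmem : ∀ v : HH μ, v ∈ K ↔ U μ 1 v = v := fun v => Iff.rfl
  refine ⟨K.orthogonalProjectionOnto x, (hmem _).1 (K.orthogonalProjectionOnto x).2, ?_, ?_⟩
  · intro v hv
    exact (K.inner_orthogonalProjectionOnto_eq_of_mem_right ⟨v, hv⟩ x).symm ▸ rfl
  · intro g
    have h2 : Tendsto (fun N : ℕ => ⟪birkhoffAverage ℂ (U μ 1) _root_.id N x, g⟫_ℂ) atTop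
        (𝓝 ⟪((K.orthogonalProjectionOnto x : K) : HH μ), g⟫_ℂ) := h.inner tendsto_const_nhds
    refine h2.congr fun N => ?_
    rw [birkhoffAverage, birkhoffSum, inner_smul_left, sum_inner]
    simp [U_iterate]

lemma inner_emb_real {f g : ℤ → ℝ} (hf : Bdd f) (hg : Bdd g) :
    ⟪emb μ (fun n => (f n : ℂ)), emb μ (fun n => (g n : ℂ))⟫_ℂ =
      (μ.1 (fun n => f n * g n) : ℂ) := by
  rw [inner_emb μ hf.ofReal hg.ofReal, ← cm_ofReal μ.2]
  congr 1
  ext n
  simp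

section psi

variable {f : ℤ → ℝ} {a b : ℝ} {y : HH μ}

lemma avg_eq (hf : Bdd f) {g : ℤ → ℝ} (hg : Bdd g) (N : ℕ) :
    (N : ℂ)⁻¹ * ∑ j ∈ Finset.range N,
      ⟪U μ j (emb μ (fun n => (f n : ℂ))), emb μ (fun n => (g n : ℂ))⟫_ℂ =
    (((N : ℝ)⁻¹ * ∑ j ∈ Finset.range N, μ.1 (fun n => f (n + j) * g n) : ℝ) : ℂ) := by
  push_cast
  congr 1
  refine Finset.sum_congr rfl fun j _ => ?_
  rw [U_emb μ _ hf.ofReal]
  exact inner_emb_real μ (f := fun n => f (n + j)) (hf.comp _) hg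

lemma psi_bounds (hf : ∀ n, a ≤ f n ∧ f n ≤ b)
    (hy : ∀ g : HH μ, Tendsto (fun N : ℕ => (N : ℂ)⁻¹ * ∑ j ∈ Finset.range N,
      ⟪U μ j (emb μ (fun n => (f n : ℂ))), g⟫_ℂ) atTop (𝓝 ⟪y, g⟫_ℂ))
    {g : ℤ → ℝ} (hg : Bdd g) (hg0 : ∀ n, 0 ≤ g n) :
    a * μ.1 g ≤ (⟪y, emb μ (fun n => (g n : ℂ))⟫_ℂ).re ∧
      (⟪y, emb μ (fun n => (g n : ℂ))⟫_ℂ).re ≤ b * μ.1 g := by
  have hfb : Bdd f := ⟨max |a| |b|, fun n => abs_le_max_abs_abs (hf n).1 (hf n).2⟩
  have h1 := (continuous_re.tendsto _).comp (hy (emb μ (fun n => (g n : ℂ))))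
  have hN : ∀ N : ℕ, 0 < N →
      a * μ.1 g ≤ (N : ℝ)⁻¹ * ∑ j ∈ Finset.range N, μ.1 (fun n => f (n + j) * g n) ∧
      (N : ℝ)⁻¹ * ∑ j ∈ Finset.range N, μ.1 (fun n => f (n + j) * g n) ≤ b * μ.1 g := by
    intro N hN
    have hN' : (0:ℝ) < N := by exact_mod_cast hN
    have hj : ∀ j : ℕ, a * μ.1 g ≤ μ.1 (fun n => f (n + j) * g n) ∧
        μ.1 (fun n => f (n + j) * g n) ≤ b * μ.1 g := by
      intro j
      rw [← μ.2.smul a g hg, ← μ.2.smul b g hg]
      exact ⟨μ.2.mono ((Bdd.const a).mul hg) ((hfb.comp _).mul hg) fun n =>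
          mul_le_mul_of_nonneg_right (hf _).1 (hg0 n),
        μ.2.mono ((hfb.comp _).mul hg) ((Bdd.const b).mul hg) fun n =>
          mul_le_mul_of_nonneg_right (hf _).2 (hg0 n)⟩
    constructor
    · rw [← div_eq_inv_mul, le_div_iff₀ hN']
      have := Finset.sum_le_sum (s := Finset.range N) fun j _ => (hj j).1
      simp only [Finset.sum_const, Finset.card_range, nsmul_eq_mul] at this
      linarith
    · rw [← div_eq_inv_mul, div_le_iff₀ hN']
      have := Finset.sum_le_sum (s := Finset.range N) fun j _ => (hj j).2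
      simp only [Finset.sum_const, Finset.card_range, nsmul_eq_mul] at this
      linarith
  have h2 : Tendsto (fun N : ℕ => (N : ℝ)⁻¹ * ∑ j ∈ Finset.range N, μ.1 (fun n => f (n + j) * g n))
      atTop (𝓝 (⟪y, emb μ (fun n => (g n : ℂ))⟫_ℂ).re) := by
    refine h1.congr fun N => ?_
    simp only [Function.comp]
    rw [avg_eq μ hfb hg, ofReal_re]
  exact ⟨ge_of_tendsto h2 (eventually_atTop.2 ⟨1, fun N h => (hN N h).1⟩),
    le_of_tendsto h2 (eventually_atTop.2 ⟨1, fun N h => (hN N h).2⟩)⟩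

lemma psi_im (hf : ∀ n, a ≤ f n ∧ f n ≤ b)
    (hy : ∀ g : HH μ, Tendsto (fun N : ℕ => (N : ℂ)⁻¹ * ∑ j ∈ Finset.range N,
      ⟪U μ j (emb μ (fun n => (f n : ℂ))), g⟫_ℂ) atTop (𝓝 ⟪y, g⟫_ℂ))
    {g : ℤ → ℝ} (hg : Bdd g) : (⟪y, emb μ (fun n => (g n : ℂ))⟫_ℂ).im = 0 := by
  have hfb : Bdd f := ⟨max |a| |b|, fun n => abs_le_max_abs_abs (hf n).1 (hf n).2⟩
  have h1 := (continuous_im.tendsto _).comp (hy (emb μ (fun n => (g n : ℂ))))
  refine tendsto_nhds_unique h1 (tendsto_const_nhds.congr fun N => ?_)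
  simp only [Function.comp]
  rw [avg_eq μ hfb hg, ofReal_im]

end psi

lemma not_bdd_ofReal {g : ℤ → ℝ} (hg : ¬ Bdd g) : ¬ Bdd (fun n => (g n : ℂ)) := fun h =>
  hg (h.mono fun n => by simp)

lemma emb_not {g : ℤ → ℂ} (hg : ¬ Bdd g) : emb μ g = 0 := by
  rw [emb, dif_neg hg]

/-- Projections of nice functions are constants. -/
lemma erg_real (hμ : IsErg μ) {f : ℤ → ℝ} (hf : ∀ n, 1 / 3 ≤ f n ∧ f n ≤ 2 / 3) {v : HH μ}
    (hv : U μ 1 v = v) :
    ⟪emb μ (fun n => (f n : ℂ)), v⟫_ℂ = (μ.1 f : ℂ) * ⟪one' μ, v⟫_ℂ := by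
  obtain ⟨y, hy1, hy2, hy3⟩ := exists_proj μ (emb μ (fun n => (f n : ℂ)))
  have hfb : Bdd f := ⟨max |1/3| |2/3|, fun n => abs_le_max_abs_abs (hf n).1 (hf n).2⟩
  set ψ : (ℤ → ℝ) → ℝ := fun g => (⟪y, emb μ (fun n => (g n : ℂ))⟫_ℂ).re with hψ
  have hadd : ∀ g h, Bdd g → Bdd h → ψ (fun n => g n + h n) = ψ g + ψ h := by
    intro g h hg hh
    simp only [hψ, ofReal_add]
    rw [emb_add μ hg.ofReal hh.ofReal, inner_add_right, add_re]
  have hsmul : ∀ (c : ℝ) g, Bdd g → ψ (fun n => c * g n) = c * ψ g := by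
    intro c g hg
    simp only [hψ, ofReal_mul]
    rw [emb_smul μ c hg.ofReal, inner_smul_right, re_ofReal_mul]
  have hshift : ∀ g, Bdd g → ψ (fun n => g (n + 1)) = ψ g := by
    intro g hg
    simp only [hψ]
    have := U_emb μ 1 hg.ofReal
    rw [← this]
    conv_lhs => rw [← hy1]
    rw [inner_U_U]
  have hjunk : ∀ g, ¬ Bdd g → ψ g = 0 := by
    intro g hg
    simp only [hψ]
    rw [emb_not μ (not_bdd_ofReal hg), inner_zero_right, zero_re]
  have hlow : ∀ g, Bdd g → (∀ n, 0 ≤ g n) → 1 / 3 * μ.1 g ≤ ψ g := fun g hg hg0 =>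
    (psi_bounds μ hf hy3 hg hg0).1
  have hup : ∀ g, Bdd g → (∀ n, 0 ≤ g n) → ψ g ≤ 2 / 3 * μ.1 g := fun g hg hg0 =>
    (psi_bounds μ hf hy3 hg hg0).2
  have hU1 : U μ 1 (one' μ) = one' μ := by
    rw [one', U_emb μ 1 (Bdd.const _)]
  have hone' : ⟪y, one' μ⟫_ℂ = (μ.1 f : ℂ) := by
    rw [← hy2 _ hU1]
    have := inner_emb_real μ hfb (Bdd.const (1:ℝ))
    simpa [one'] using this
  have hone : ψ (fun _ => 1) = μ.1 f := by
    simp only [hψ, ofReal_one]
    change (⟪y, one' μ⟫_ℂ).re = _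
    rw [hone', ofReal_re]
  have hs1 : 1 / 3 ≤ μ.1 f := μ.2.ge_of_ge hfb fun n => (hf n).1
  have hs2 : μ.1 f ≤ 2 / 3 := μ.2.le_of_le hfb fun n => (hf n).2
  have hhb : Bdd (fun n : ℤ => if n ≤ 0 then (1:ℝ) else 0) :=
    ⟨1, fun n => by dsimp only; split_ifs <;> simp⟩
  have hhalf : ψ (fun n => if n ≤ 0 then 1 else 0) = 0 := by
    have h0 : ∀ n : ℤ, (0:ℝ) ≤ if n ≤ 0 then 1 else 0 := fun n => by split_ifs <;> simp
    refine le_antisymm ?_ ?_
    · have := hup _ hhb h0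
      rwa [μ.2.half, mul_zero] at this
    · have := hlow _ hhb h0
      rwa [μ.2.half, mul_zero] at this
  set s := μ.1 f with hs
  have hm1 : IsMean (fun g => s⁻¹ * ψ g) :=
    { add := fun g h hg hh => by rw [hadd g h hg hh, mul_add]
      smul := fun c g hg => by rw [hsmul c g hg]; ring
      nonneg := fun g hg hg0 => by
        have h1 := hlow g hg hg0
        have h2 := μ.2.nonneg g hg hg0
        have : 0 < s := by linarith
        have h3 : 0 ≤ ψ g := by linarith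
        positivity
      one := by rw [hone]; exact inv_mul_cancel₀ (by linarith)
      shift := fun g hg => by rw [hshift g hg]
      half := by rw [hhalf, mul_zero]
      junk := fun g hg => by rw [hjunk g hg, mul_zero] }
  have hm2 : IsMean (fun g => (1 - s)⁻¹ * (μ.1 g - ψ g)) :=
    { add := fun g h hg hh => by rw [hadd g h hg hh, μ.2.add g h hg hh]; ring
      smul := fun c g hg => by rw [hsmul c g hg, μ.2.smul c g hg]; ring
      nonneg := fun g hg hg0 => by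
        have h1 := hup g hg hg0
        have h2 := μ.2.nonneg g hg hg0
        have : 0 < 1 - s := by linarith
        have h3 : 0 ≤ μ.1 g - ψ g := by linarith
        positivity
      one := by rw [hone, μ.2.one]; exact inv_mul_cancel₀ (by linarith)
      shift := fun g hg => by rw [hshift g hg, μ.2.shift g hg]
      half := by rw [hhalf, μ.2.half, sub_zero, mul_zero]
      junk := fun g hg => by rw [hjunk g hg, μ.2.junk g hg, sub_zero, mul_zero] }
  have hext := (mem_extremePoints.1 hμ).2 _ hm1 _ hm2 ⟨s, 1 - s, by linarith, by linarith,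
    by ring, by
      ext g
      simp only [Pi.add_apply, Pi.smul_apply, smul_eq_mul]
      have h1 : s ≠ 0 := by linarith
      have h2 : 1 - s ≠ 0 := by linarith
      field_simp
      ring⟩
  have hψm : ∀ g, ψ g = s * μ.1 g := by
    intro g
    have := congrFun hext.1 g
    rw [← this, ← mul_assoc, mul_inv_cancel₀ (by linarith), one_mul]
  have hreal : ∀ g : ℤ → ℝ, Bdd g → ⟪y, emb μ (fun n => (g n : ℂ))⟫_ℂ = (s : ℂ) * (μ.1 g : ℂ) := by
    intro g hg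
    apply Complex.ext
    · rw [← ofReal_mul, ofReal_re]
      exact hψm g
    · rw [psi_im μ hf hy3 hg, ← ofReal_mul, ofReal_im]
  have hyeq : y = (s : ℂ) • one' μ := by
    refine ext_inner_right ℂ fun w => ?_
    refine hh_induction μ (p := fun w => ⟪y, w⟫_ℂ = ⟪(s : ℂ) • one' μ, w⟫_ℂ)
      (isClosed_eq (by fun_prop) (by fun_prop)) (fun g hg => ?_) w
    have hg' : emb μ g = emb μ (fun n => ((g n).re : ℂ)) + I • emb μ (fun n => ((g n).im : ℂ)) := by
      rw [← emb_smul μ I hg.im.ofReal, ← emb_add μ hg.re.ofReal ((Bdd.const I).mul hg.im.ofReal)]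
      congr 1
      ext n
      rw [mul_comm I, re_add_im]
    have h1 : ∀ g : ℤ → ℝ, Bdd g → ⟪one' μ, emb μ (fun n => (g n : ℂ))⟫_ℂ = (μ.1 g : ℂ) := by
      intro g hg
      have := inner_emb_real μ (Bdd.const (1:ℝ)) hg
      simpa [one'] using this
    rw [hg', inner_add_right, inner_add_right, inner_smul_right, inner_smul_right, inner_smul_left,
      inner_smul_left, hreal _ hg.re, hreal _ hg.im, h1 _ hg.re, h1 _ hg.im, conj_ofReal]
  rw [hy2 v hv, hyeq, inner_smul_left, conj_ofReal]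

lemma erg_bdd (hμ : IsErg μ) {f : ℤ → ℝ} (hf : Bdd f) {v : HH μ} (hv : U μ 1 v = v) :
    ⟪emb μ (fun n => (f n : ℂ)), v⟫_ℂ = (μ.1 f : ℂ) * ⟪one' μ, v⟫_ℂ := by
  obtain ⟨C, hC0, hC⟩ := hf.exists_pos
  set h : ℤ → ℝ := fun n => 1 / 2 + (6 * C)⁻¹ * f n with hh
  have hh1 : ∀ n, 1 / 3 ≤ h n ∧ h n ≤ 2 / 3 := by
    intro n
    have h1 := abs_le.1 (hC n)
    have h2 : (6 * C)⁻¹ * f n = f n / C / 6 := by field_simp
    have h3 : f n / C ≤ 1 := by rw [div_le_one hC0]; exact h1.2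
    have h4 : -1 ≤ f n / C := by rw [le_div_iff₀ hC0]; linarith [h1.1]
    rw [hh]
    simp only [h2]
    constructor <;> linarith
  have h1 := erg_real μ hμ hh1 hv
  have h2 : μ.1 h = 1 / 2 + (6 * C)⁻¹ * μ.1 f := by
    rw [hh, μ.2.add _ _ (Bdd.const _) ((Bdd.const _).mul hf), μ.2.const, μ.2.smul _ _ hf]
  have h3 : emb μ (fun n => (h n : ℂ)) = (1 / 2 : ℂ) • one' μ +
      ((6 * C)⁻¹ : ℂ) • emb μ (fun n => (f n : ℂ)) := by
    rw [one', ← emb_smul μ _ (Bdd.const _), ← emb_smul μ _ hf.ofReal,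
      ← emb_add μ ((Bdd.const _).mul (Bdd.const _)) ((Bdd.const _).mul hf.ofReal)]
    congr 1
    ext n
    rw [hh]
    push_cast
    ring
  rw [h3, h2, inner_add_left, inner_smul_left, inner_smul_left] at h1
  have h4 : (starRingEnd ℂ) (1 / 2 : ℂ) = 1 / 2 := by
    rw [show (1 / 2 : ℂ) = ((1 / 2 : ℝ) : ℂ) by push_cast; ring, conj_ofReal]
  have h5 : (starRingEnd ℂ) ((6 * C : ℂ)⁻¹) = (6 * C)⁻¹ := by
    rw [show (6 * C : ℂ)⁻¹ = (((6 * C)⁻¹ : ℝ) : ℂ) by push_cast; ring, conj_ofReal]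
  rw [h4, h5] at h1
  push_cast at h1
  have h6 : ((6 * C : ℂ))⁻¹ ≠ 0 := by
    have : (C : ℂ) ≠ 0 := by exact_mod_cast hC0.ne'
    simp [this]
  have h7 : ((6 * C : ℂ))⁻¹ * ⟪emb μ (fun n => (f n : ℂ)), v⟫_ℂ =
      ((6 * C : ℂ))⁻¹ * ((μ.1 f : ℂ) * ⟪one' μ, v⟫_ℂ) := by
    linear_combination h1
  exact mul_left_cancel₀ h6 h7

/-- Invariant vectors are constants. -/
theorem invariant_eq (hμ : IsErg μ) {v : HH μ} (hv : U μ 1 v = v) :
    v = ⟪one' μ, v⟫_ℂ • one' μ := by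
  refine ext_inner_left ℂ fun w => ?_
  refine hh_induction μ (p := fun w => ⟪w, v⟫_ℂ = ⟪w, ⟪one' μ, v⟫_ℂ • one' μ⟫_ℂ)
    (isClosed_eq (by fun_prop) (by fun_prop)) (fun g hg => ?_) w
  have hg' : emb μ g = emb μ (fun n => ((g n).re : ℂ)) + I • emb μ (fun n => ((g n).im : ℂ)) := by
    rw [← emb_smul μ I hg.im.ofReal, ← emb_add μ hg.re.ofReal ((Bdd.const I).mul hg.im.ofReal)]
    congr 1
    ext n
    rw [mul_comm I, re_add_im]
  have h1 : ∀ g : ℤ → ℝ, Bdd g → ⟪emb μ (fun n => (g n : ℂ)), one' μ⟫_ℂ = (μ.1 g : ℂ) := by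
    intro g hg
    have := inner_emb_real μ hg (Bdd.const (1:ℝ))
    simpa [one'] using this
  rw [hg', inner_add_left, inner_add_left, inner_smul_left, inner_smul_left,
    erg_bdd μ hμ hg.re hv, erg_bdd μ hμ hg.im hv, inner_smul_right, inner_smul_right,
    h1 _ hg.re, h1 _ hg.im]
  ring

end Pool.Agent.Helper4.Sumset
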