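import Mathlib
import Pool.Agent.Lib.Helper4.Sumset.Ergodic

/-!
# Characters
-/

namespace Pool.Agent.Helper4.Sumset

open Set Filter Topology Complex
open scoped InnerProductSpace ComplexConjugate

variable (μ : IMean)

/-- The character associated with a point of the circle. -/
noncomputable def ch (z : Circle) (n : ℤ) : ℂ := ((z ^ n : Circle) : ℂ)

lemma norm_ch (z : Circle) (n : ℤ) : ‖ch z n‖ = 1 := Circle.norm_coe _

lemma bdd_ch (z : Circle) : Bdd (ch z) := ⟨1, fun n => (norm_ch z n).le⟩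

lemma ch_add (z : Circle) (m n : ℤ) : ch z (m + n) = ch z m * ch z n := by
  rw [ch, zpow_add]; rfl

lemma ch_mul (z w : Circle) (n : ℤ) : ch (z * w) n = ch z n * ch w n := by
  rw [ch, mul_zpow]; rfl

lemma ch_neg (z : Circle) (n : ℤ) : ch z (-n) = conj (ch z n) := by
  rw [ch, zpow_neg, Circle.coe_inv_eq_conj]; rfl

lemma ch_inv (z : Circle) (n : ℤ) : ch z⁻¹ n = conj (ch z n) := by
  rw [ch, inv_zpow, Circle.coe_inv_eq_conj]; rfl

@[simp] lemma ch_zero (z : Circle) : ch z 0 = 1 := by simp [ch]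

@[simp] lemma ch_one (n : ℤ) : ch 1 n = 1 := by simp [ch]

lemma conj_ch_mul (z : Circle) (n : ℤ) : conj (ch z n) * ch z n = 1 := by
  rw [← ch_inv, ← ch_mul, inv_mul_cancel, ch_one]

lemma ch_mul_conj (z : Circle) (n : ℤ) : ch z n * conj (ch z n) = 1 := by
  rw [mul_comm, conj_ch_mul]

lemma ch_ne_zero (z : Circle) (n : ℤ) : ch z n ≠ 0 := by
  intro h
  have := norm_ch z n
  rw [h, norm_zero] at this
  exact zero_ne_one this

lemma ch_inj {z w : Circle} (h : ch z 1 = ch w 1) : z = w := by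
  simp only [ch, zpow_one] at h
  exact Circle.coe_injective h

lemma ch_pow (z : Circle) (k : ℕ) (n : ℤ) : ch (z ^ k) n = ch z (k * n) := by
  rw [ch, ch, ← zpow_natCast, ← zpow_mul]

/-- The character as a vector. -/
noncomputable def Ev (z : Circle) : HH μ := emb μ (ch z)

lemma cm_ch_ne {z : Circle} (hz : z ≠ 1) : cm μ.1 (ch z) = 0 := by
  refine cm_eq_zero_of_quasi μ.2 (bdd_ch z) (p := 1) (u := ch z 1) ?_ fun n => ?_
  · intro h
    apply hz
    apply ch_inj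
    rw [h, ch_one]
  · rw [ch_add, mul_comm]

lemma cm_ch [DecidableEq Circle] (z : Circle) : cm μ.1 (ch z) = if z = 1 then 1 else 0 := by
  split_ifs with h
  · subst h
    have : ch 1 = fun _ => (1:ℂ) := by ext n; simp
    rw [this, cm_const μ.2]
  · exact cm_ch_ne μ h

lemma inner_Ev [DecidableEq Circle] (z w : Circle) : ⟪Ev μ z, Ev μ w⟫_ℂ = if z = w then 1 else 0 := by
  rw [Ev, Ev, inner_emb μ (bdd_ch z) (bdd_ch w)]
  have : (fun n => conj (ch z n) * ch w n) = ch (z⁻¹ * w) := by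
    ext n
    rw [ch_mul, ch_inv]
  rw [this, cm_ch]
  simp only [inv_mul_eq_one]

lemma orthonormal_Ev : Orthonormal ℂ (Ev μ) := by
  classical
  rw [orthonormal_iff_ite]
  exact inner_Ev μ

lemma norm_Ev (z : Circle) : ‖Ev μ z‖ = 1 := (orthonormal_Ev μ).1 z

lemma U_Ev (k : ℤ) (z : Circle) : U μ k (Ev μ z) = ch z k • Ev μ z := by
  rw [Ev, U_emb μ k (bdd_ch z), ← emb_smul μ _ (bdd_ch z)]
  congr 1
  ext n
  rw [ch_add, mul_comm]

lemma U_T_ch (k : ℤ) (z : Circle) (x : HH μ) :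
    U μ k (T μ (ch z) x) = ch z k • T μ (ch z) (U μ k x) := by
  rw [U_T μ k (bdd_ch z), ← T_smul μ _ (bdd_ch z)]
  congr 2
  ext n
  rw [ch_add, mul_comm]

lemma T_ch_T_inv (z : Circle) (x : HH μ) : T μ (ch z) (T μ (ch z⁻¹) x) = x := by
  rw [T_mul μ (bdd_ch _) (bdd_ch _)]
  have : (fun n => ch z n * ch z⁻¹ n) = fun _ => (1:ℂ) := by
    ext n
    rw [← ch_mul, mul_inv_cancel, ch_one]
  rw [this, T_one]

lemma T_ch_one' (z : Circle) : T μ (ch z) (one' μ) = Ev μ z := by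
  rw [one', T_emb μ (bdd_ch z) (Bdd.const _), Ev]
  simp

/-- Eigenvectors are multiples of characters. -/
theorem eigen_eq (hμ : IsErg μ) {v : HH μ} {z : Circle} (hv : U μ 1 v = (z : ℂ) • v) :
    ∃ c : ℂ, v = c • Ev μ z := by
  have h1 : U μ 1 (T μ (ch z⁻¹) v) = T μ (ch z⁻¹) v := by
    rw [U_T_ch, hv, map_smul, smul_smul]
    have : ch z⁻¹ 1 * (z : ℂ) = 1 := by
      simp [ch]
    rw [this, one_smul]
  refine ⟨⟪one' μ, T μ (ch z⁻¹) v⟫_ℂ, ?_⟩
  have h2 := invariant_eq μ hμ h1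
  have h3 := congrArg (T μ (ch z)) h2
  rwa [T_ch_T_inv, map_smul, T_ch_one'] at h3

end Pool.Agent.Helper4.Sumset
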