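import Mathlib
import Pool.Agent.Lib.Helper4.Sumset.Char

/-!
# The weak mixing lemma
-/

namespace Pool.Agent.Helper4.Sumset

open Set Filter Topology Complex
open scoped InnerProductSpace ComplexConjugate

variable (μ : IMean)

section form

variable {x : ℤ → HH μ} {C : ℝ}

lemma bdd_form (hC : ∀ b, ‖x b‖ ≤ C) (v w : HH μ) :
    Bdd (fun b => ⟪v, x b⟫_ℂ * ⟪x b, w⟫_ℂ) := by
  have h1 : Bdd (fun b => ⟪v, x b⟫_ℂ) := ⟨‖v‖ * C, fun b => (norm_inner_le_norm _ _).trans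
    (mul_le_mul_of_nonneg_left (hC b) (norm_nonneg _))⟩
  have h2 : Bdd (fun b => ⟪x b, w⟫_ℂ) := ⟨C * ‖w‖, fun b => (norm_inner_le_norm _ _).trans
    (mul_le_mul_of_nonneg_right (hC b) (norm_nonneg _))⟩
  exact h1.mul h2

lemma bdd_inner (hC : ∀ b, ‖x b‖ ≤ C) (v : HH μ) : Bdd (fun b => ‖⟪v, x b⟫_ℂ‖) :=
  Bdd.norm (f := fun b => ⟪v, x b⟫_ℂ) ⟨‖v‖ * C, fun b => (norm_inner_le_norm _ _).trans
    (mul_le_mul_of_nonneg_left (hC b) (norm_nonneg _))⟩

/-- The quadratic form. -/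
noncomputable def Qf (x : ℤ → HH μ) (v : HH μ) : ℝ := μ.1 (fun b => ‖⟪v, x b⟫_ℂ‖ ^ 2)

lemma Qf_nonneg (hC : ∀ b, ‖x b‖ ≤ C) (v : HH μ) : 0 ≤ Qf μ x v :=
  μ.2.nonneg _ ((bdd_inner μ hC v).pow 2) fun b => by positivity

lemma Qf_le (hC : ∀ b, ‖x b‖ ≤ C) (v : HH μ) : Qf μ x v ≤ (C * ‖v‖) ^ 2 := by
  refine μ.2.le_of_le ((bdd_inner μ hC v).pow 2) fun b => ?_
  have h1 : ‖⟪v, x b⟫_ℂ‖ ≤ C * ‖v‖ := by
    rw [mul_comm]
    exact (norm_inner_le_norm _ _).trans (mul_le_mul_of_nonneg_left (hC b) (norm_nonneg _))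
  gcongr

lemma Qf_smul (hC : ∀ b, ‖x b‖ ≤ C) (c : ℂ) (v : HH μ) : Qf μ x (c • v) = ‖c‖ ^ 2 * Qf μ x v := by
  rw [Qf, Qf, ← μ.2.smul _ _ ((bdd_inner μ hC v).pow 2)]
  refine congrArg μ.1 (funext fun b => ?_)
  rw [inner_smul_left, norm_mul, RCLike.norm_conj, mul_pow]

/-- The average sesquilinear form. -/
noncomputable def Bform (hC : ∀ b, ‖x b‖ ≤ C) : HH μ →L⋆[ℂ] HH μ →L[ℂ] ℂ :=
  LinearMap.mkContinuous₂
    (LinearMap.mk₂'ₛₗ (starRingEnd ℂ) (RingHom.id ℂ)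
      (fun v w => cm μ.1 (fun b => ⟪v, x b⟫_ℂ * ⟪x b, w⟫_ℂ))
      (fun v v' w => by
        rw [← cm_add μ.2 (bdd_form μ hC v w) (bdd_form μ hC v' w)]
        congr 1
        ext b
        rw [inner_add_left, add_mul])
      (fun c v w => by
        rw [smul_eq_mul, ← cm_smul μ.2 _ (bdd_form μ hC v w)]
        congr 1
        ext b
        rw [inner_smul_left, mul_assoc])
      (fun v w w' => by
        rw [← cm_add μ.2 (bdd_form μ hC v w) (bdd_form μ hC v w')]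
        congr 1
        ext b
        rw [inner_add_right, mul_add])
      (fun c v w => by
        rw [smul_eq_mul, RingHom.id_apply, ← cm_smul μ.2 _ (bdd_form μ hC v w)]
        congr 1
        ext b
        rw [inner_smul_right, mul_left_comm]))
    (C * C) (fun v w => by
      have hC0 : 0 ≤ C := (norm_nonneg _).trans (hC 0)
      rw [LinearMap.mk₂'ₛₗ_apply]
      refine norm_cm_le_of_le μ.2 fun b => ?_
      rw [norm_mul]
      calc ‖⟪v, x b⟫_ℂ‖ * ‖⟪x b, w⟫_ℂ‖ ≤ (‖v‖ * C) * (C * ‖w‖) := by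
            gcongr
            · exact (norm_inner_le_norm _ _).trans
                (mul_le_mul_of_nonneg_left (hC b) (norm_nonneg _))
            · exact (norm_inner_le_norm _ _).trans
                (mul_le_mul_of_nonneg_right (hC b) (norm_nonneg _))
        _ = C * C * ‖v‖ * ‖w‖ := by ring)

/-- The average operator. -/
noncomputable def Bop (hC : ∀ b, ‖x b‖ ≤ C) : HH μ →L[ℂ] HH μ :=
  InnerProductSpace.continuousLinearMapOfBilin (Bform μ hC)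

lemma Bop_inner (hC : ∀ b, ‖x b‖ ≤ C) (v w : HH μ) :
    ⟪Bop μ hC v, w⟫_ℂ = cm μ.1 (fun b => ⟪v, x b⟫_ℂ * ⟪x b, w⟫_ℂ) := by
  rw [Bop, InnerProductSpace.continuousLinearMapOfBilin_apply]
  rfl

lemma Bop_inner' (hC : ∀ b, ‖x b‖ ≤ C) (v w : HH μ) :
    ⟪v, Bop μ hC w⟫_ℂ = cm μ.1 (fun b => ⟪v, x b⟫_ℂ * ⟪x b, w⟫_ℂ) := by
  rw [← inner_conj_symm, Bop_inner, ← cm_conj μ.2 (bdd_form μ hC w v)]
  congr 1
  ext b
  rw [map_mul, inner_conj_symm, inner_conj_symm, mul_comm]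

lemma Bop_symm (hC : ∀ b, ‖x b‖ ≤ C) : (Bop μ hC : HH μ →ₗ[ℂ] HH μ).IsSymmetric := by
  intro v w
  exact (Bop_inner μ hC v w).trans (Bop_inner' μ hC v w).symm

lemma norm_inner_Bop_sq (hC : ∀ b, ‖x b‖ ≤ C) (v w : HH μ) :
    ‖⟪Bop μ hC v, w⟫_ℂ‖ ^ 2 ≤ Qf μ x v * Qf μ x w := by
  rw [Bop_inner]
  have h1 := norm_cm_le μ.2 (bdd_form μ hC v w)
  have h2 := μ.2.cauchy_schwarz (bdd_inner μ hC v) (bdd_inner μ hC w)
  have h3 : (fun b => ‖⟪v, x b⟫_ℂ * ⟪x b, w⟫_ℂ‖) = fun b => ‖⟪v, x b⟫_ℂ‖ * ‖⟪w, x b⟫_ℂ‖ := by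
    ext b
    rw [norm_mul, norm_inner_symm (x b) w]
  rw [h3] at h1
  refine le_trans ?_ h2
  gcongr

lemma norm_Bop_sq (hC : ∀ b, ‖x b‖ ≤ C) (v : HH μ) :
    ‖Bop μ hC v‖ ^ 2 ≤ C ^ 2 * Qf μ x v := by
  have h1 := norm_inner_Bop_sq μ hC v (Bop μ hC v)
  have h2 := Qf_le μ hC (Bop μ hC v)
  have h3 := Qf_nonneg μ hC v
  have h4 : ‖⟪Bop μ hC v, Bop μ hC v⟫_ℂ‖ = ‖Bop μ hC v‖ ^ 2 := by
    rw [inner_self_eq_norm_sq_to_K]
    simp
  rw [h4] at h1
  set a := ‖Bop μ hC v‖ with ha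
  have ha0 : 0 ≤ a := norm_nonneg _
  rcases ha0.eq_or_lt with h | h
  · rw [← h, zero_pow two_ne_zero]
    positivity
  · have h5 : (a ^ 2) ^ 2 ≤ Qf μ x v * (C * a) ^ 2 :=
      h1.trans (mul_le_mul_of_nonneg_left h2 h3)
    have h6 : a ^ 2 * a ^ 2 ≤ (C ^ 2 * Qf μ x v) * a ^ 2 := by nlinarith
    exact le_of_mul_le_mul_right h6 (by positivity)

/-- The trace bound. -/
lemma trace_le (hC : ∀ b, ‖x b‖ ≤ C) {s : Finset (HH μ)}
    (hs : Orthonormal ℂ ((↑) : s → HH μ)) : ∑ v ∈ s, Qf μ x v ≤ C ^ 2 := by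
  have h1 : ∑ v ∈ s, Qf μ x v = μ.1 (fun b => ∑ v ∈ s, ‖⟪v, x b⟫_ℂ‖ ^ 2) := by
    rw [μ.2.sum s fun v _ => (bdd_inner μ hC v).pow 2]
    rfl
  rw [h1]
  refine μ.2.le_of_le (Bdd.sum s fun v _ => (bdd_inner μ hC v).pow 2) fun b => ?_
  have h2 := hs.sum_inner_products_le (x b) (s := Finset.univ)
  have h3 : ∑ v ∈ s, ‖⟪v, x b⟫_ℂ‖ ^ 2 = ∑ i : s, ‖⟪(i : HH μ), x b⟫_ℂ‖ ^ 2 :=
    (Finset.sum_coe_sort s (fun v => ‖⟪v, x b⟫_ℂ‖ ^ 2)).symm
  rw [h3]
  refine h2.trans ?_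
  have := hC b
  gcongr

/-- The quadratic form is small outside a finite dimensional subspace. -/
lemma exists_finite_small (hC : ∀ b, ‖x b‖ ≤ C) {ε : ℝ} (hε : 0 < ε) :
    ∃ s : Finset (HH μ), ∀ v ∈ (Submodule.span ℂ (s : Set (HH μ)))ᗮ,
      Qf μ x v ≤ ε * ‖v‖ ^ 2 := by
  classical
  set T : Set ℝ := {r | ∃ s : Finset (HH μ), Orthonormal ℂ ((↑) : s → HH μ) ∧
    r = ∑ v ∈ s, Qf μ x v} with hT
  have hne : T.Nonempty := by
    refine ⟨0, ∅, ?_, by simp⟩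
    constructor
    · intro i; exact absurd i.2 (Finset.notMem_empty _)
    · intro i; exact absurd i.2 (Finset.notMem_empty _)
  have hbdd : BddAbove T := by
    refine ⟨C ^ 2, ?_⟩
    rintro r ⟨s, hs, rfl⟩
    exact trace_le μ hC hs
  obtain ⟨r, ⟨s, hs, rfl⟩, hlt⟩ := exists_lt_of_lt_csSup hne (sub_lt_self (sSup T) hε)
  refine ⟨s, fun v hv => ?_⟩
  rcases eq_or_ne v 0 with rfl | hv0
  · have h0 := Qf_smul μ hC (0:ℂ) (0 : HH μ)
    rw [zero_smul, norm_zero, zero_pow two_ne_zero, zero_mul] at h0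
    rw [h0, norm_zero, zero_pow two_ne_zero, mul_zero]
  set u : HH μ := ((‖v‖⁻¹ : ℝ) : ℂ) • v with hu
  have hnv : ‖v‖ ≠ 0 := norm_ne_zero_iff.2 hv0
  have hun : ‖u‖ = 1 := by
    rw [hu, norm_smul, norm_real, norm_inv, norm_norm, inv_mul_cancel₀ hnv]
  have huort : ∀ w ∈ s, ⟪w, u⟫_ℂ = 0 := by
    intro w hw
    rw [hu, inner_smul_right, (Submodule.mem_orthogonal _ _).1 hv w (Submodule.subset_span hw),
      mul_zero]
  have hus : u ∉ s := by
    intro h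
    have := huort u h
    rw [inner_self_eq_zero] at this
    rw [this, norm_zero] at hun
    exact zero_ne_one hun
  have hins : Orthonormal ℂ ((↑) : ↥(insert u s) → HH μ) := by
    constructor
    · rintro ⟨w, hw⟩
      rcases Finset.mem_insert.1 hw with rfl | hw'
      · exact hun
      · exact hs.1 ⟨w, hw'⟩
    · rintro ⟨w, hw⟩ ⟨w', hw'⟩ hne
      have hne' : w ≠ w' := fun h => hne (Subtype.ext h)
      change ⟪w, w'⟫_ℂ = 0
      rcases Finset.mem_insert.1 hw with h1 | h1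
      · rcases Finset.mem_insert.1 hw' with h2 | h2
        · exact absurd (h1.trans h2.symm) hne'
        · rw [h1, ← inner_conj_symm, huort w' h2, map_zero]
      · rcases Finset.mem_insert.1 hw' with h2 | h2
        · rw [h2]; exact huort w h1
        · exact hs.2 (i := ⟨w, h1⟩) (j := ⟨w', h2⟩) fun h => hne' (congrArg Subtype.val h)
  have hle : ∑ w ∈ insert u s, Qf μ x w ≤ sSup T := le_csSup hbdd ⟨_, hins, rfl⟩
  rw [Finset.sum_insert hus] at hle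
  have h1 : Qf μ x u ≤ ε := by linarith
  have h2 : v = ((‖v‖ : ℝ) : ℂ) • u := by
    rw [hu, smul_smul, ← ofReal_mul, mul_inv_cancel₀ hnv, ofReal_one, one_smul]
  rw [h2, Qf_smul μ hC, norm_smul, hun, mul_one, mul_comm]
  exact mul_le_mul_of_nonneg_right h1 (by positivity)

lemma Bop_compact (hC : ∀ b, ‖x b‖ ≤ C) : IsCompactOperator (Bop μ hC) := by
  have hC0 : 0 ≤ C := (norm_nonneg _).trans (hC 0)
  have hcl := isClosed_setOfPred_isCompactOperator (σ₁₂ := RingHom.id ℂ) (M₁ := HH μ) (M₂ := HH μ)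
  refine hcl.closure_subset (Metric.mem_closure_iff.2 fun ε hε => ?_)
  obtain ⟨δ, hδ0, hδ⟩ : ∃ δ : ℝ, 0 < δ ∧ C * Real.sqrt δ < ε := by
    refine ⟨(ε / (C + 1)) ^ 2, by positivity, ?_⟩
    rw [Real.sqrt_sq (by positivity), mul_div_assoc', div_lt_iff₀ (by positivity)]
    nlinarith
  obtain ⟨s, hs⟩ := exists_finite_small μ hC hδ0
  set W := Submodule.span ℂ (s : Set (HH μ)) with hW
  have : FiniteDimensional ℂ W := FiniteDimensional.span_finset ℂ s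
  refine ⟨(Bop μ hC ∘L W.subtypeL) ∘L W.orthogonalProjectionOnto, ?_, ?_⟩
  · exact (isCompactOperator_of_locallyCompactSpace_rng (Bop μ hC ∘L W.subtypeL)).comp_clm _
  · rw [dist_eq_norm]
    refine lt_of_le_of_lt (ContinuousLinearMap.opNorm_le_bound _ (by positivity) fun v => ?_) hδ
    have h1 : (Bop μ hC - (Bop μ hC ∘L W.subtypeL) ∘L W.orthogonalProjectionOnto) v =
        Bop μ hC (v - W.starProjection v) := by
      rw [map_sub]; rfl
    rw [h1]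
    have h2 := norm_Bop_sq μ hC (v - W.starProjection v)
    have h3 := hs _ (W.sub_starProjection_mem_orthogonal v)
    have h4 : ‖v - W.starProjection v‖ ≤ ‖v‖ := by
      have := Wᗮ.norm_starProjection_apply_le v
      rwa [Submodule.starProjection_orthogonal_val] at this
    have h5 : ‖Bop μ hC (v - W.starProjection v)‖ ^ 2 ≤ (C * Real.sqrt δ * ‖v‖) ^ 2 := by
      rw [mul_pow, mul_pow, Real.sq_sqrt hδ0.le]
      calc _ ≤ C ^ 2 * Qf μ x (v - W.starProjection v) := h2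
        _ ≤ C ^ 2 * (δ * ‖v - W.starProjection v‖ ^ 2) := by gcongr
        _ ≤ C ^ 2 * (δ * ‖v‖ ^ 2) := by gcongr
        _ = _ := by ring
    exact (sq_le_sq₀ (norm_nonneg _) (by positivity)).1 h5

end form

/-- A finite dimensional subspace invariant under the shift contains a character. -/
lemma exists_char_mem (hμ : IsErg μ) (W : Submodule ℂ (HH μ)) [FiniteDimensional ℂ W]
    (hW : W ≠ ⊥) (hinv : ∀ v ∈ W, U μ 1 v ∈ W) : ∃ z, Ev μ z ∈ W := by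
  have hnt : Nontrivial W := (Submodule.nontrivial_iff_ne_bot).2 hW
  set f : W →ₗ[ℂ] W := (U μ 1 : HH μ →ₗ[ℂ] HH μ).restrict hinv with hf
  obtain ⟨c, hc⟩ := Module.End.exists_eigenvalue f
  obtain ⟨y, hy⟩ := hc.exists_hasEigenvector
  have hy0 : (y : HH μ) ≠ 0 := fun h => hy.2 (Subtype.ext h)
  have hyc : U μ 1 (y : HH μ) = c • (y : HH μ) := by
    have := congrArg Subtype.val (hy.apply_eq_smul)
    exact this
  have hcn : ‖c‖ = 1 := by
    have h1 := norm_U μ 1 (y : HH μ)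
    rw [hyc, norm_smul] at h1
    have h2 : ‖(y : HH μ)‖ ≠ 0 := norm_ne_zero_iff.2 hy0
    field_simp at h1
    exact h1
  set z : Circle := ⟨c, mem_sphere_zero_iff_norm.2 hcn⟩ with hz
  obtain ⟨a, ha⟩ := eigen_eq μ hμ (v := (y : HH μ)) (z := z) hyc
  have ha0 : a ≠ 0 := by
    rintro rfl
    exact hy0 (by rw [ha, zero_smul])
  refine ⟨z, ?_⟩
  have : Ev μ z = a⁻¹ • (y : HH μ) := by
    rw [ha, smul_smul, inv_mul_cancel₀ ha0, one_smul]
  rw [this]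
  exact W.smul_mem _ y.2

/-- **The weak mixing lemma.** -/
theorem weak_mixing (hμ : IsErg μ) {p p' : ℕ} (hp' : 0 < p') {x : ℤ → HH μ} {C : ℝ}
    (hC : ∀ b, ‖x b‖ ≤ C) (hx : ∀ b, U μ p' (x b) = x (b + p))
    (hort : ∀ z b, ⟪Ev μ z, x b⟫_ℂ = 0) (g : HH μ) :
    μ.1 (fun b => ‖⟪g, x b⟫_ℂ‖ ^ 2) = 0 := by
  -- the average operator vanishes
  have hB0 : Bop μ hC = 0 := by
    by_contra hne
    have h1 := mt (ContinuousLinearMap.eq_zero_of_forall_hasEigenvalue_eq_zero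
      (Bop_compact μ hC) (Bop_symm μ hC)).1 hne
    push Not at h1
    obtain ⟨lam, hlam, hlam0⟩ := h1
    set V : Submodule ℂ (HH μ) := Module.End.eigenspace (Bop μ hC : HH μ →ₗ[ℂ] HH μ) lam with hV
    have hVfin : FiniteDimensional ℂ V :=
      ContinuousLinearMap.finite_dimensional_eigenspace (Bop_compact μ hC) lam hlam0
    have hmemV : ∀ v, v ∈ V ↔ Bop μ hC v = lam • v := fun v => Module.End.mem_eigenspace_iff
    have hVne : V ≠ ⊥ := hlam
    -- commutation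
    have hcomm : ∀ v, Bop μ hC (U μ p' v) = U μ p' (Bop μ hC v) := by
      intro v
      refine ext_inner_right ℂ fun w => ?_
      rw [Bop_inner, inner_U_left, Bop_inner]
      rw [← cm_shift μ.2 (bdd_form μ hC (U μ p' v) w) p]
      congr 1
      ext b
      rw [← hx, inner_U_U, inner_U_left]
    have hVinv : ∀ v ∈ V, U μ p' v ∈ V := by
      intro v hv
      rw [hmemV] at hv ⊢
      rw [hcomm, hv, map_smul]
    have hVort : ∀ v ∈ V, ∀ z, ⟪Ev μ z, v⟫_ℂ = 0 := by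
      intro v hv z
      rw [hmemV] at hv
      have h2 : v = lam⁻¹ • Bop μ hC v := by
        rw [hv, smul_smul, inv_mul_cancel₀ hlam0, one_smul]
      rw [h2, inner_smul_right, Bop_inner']
      have : (fun b => ⟪Ev μ z, x b⟫_ℂ * ⟪x b, v⟫_ℂ) = fun _ => 0 := by
        ext b
        rw [hort z b, zero_mul]
      rw [this, cm_const μ.2, mul_zero]
    set W : Submodule ℂ (HH μ) := ⨆ i : Fin p', V.map (U μ (i : ℕ) : HH μ →ₗ[ℂ] HH μ) with hW
    have hle : ∀ i : Fin p', V.map (U μ (i : ℕ) : HH μ →ₗ[ℂ] HH μ) ≤ W := fun i =>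
      le_iSup (fun i : Fin p' => V.map (U μ (i : ℕ) : HH μ →ₗ[ℂ] HH μ)) i
    have hVW : V ≤ W := by
      refine le_trans ?_ (hle ⟨0, hp'⟩)
      intro v hv
      exact ⟨v, hv, by simp [U_zero]⟩
    have hWne : W ≠ ⊥ := fun h => hVne (le_bot_iff.1 (h ▸ hVW))
    have hWfin : FiniteDimensional ℂ W := Submodule.finiteDimensional_iSup _
    have hWinv : ∀ v ∈ W, U μ 1 v ∈ W := by
      have : W ≤ W.comap (U μ 1 : HH μ →ₗ[ℂ] HH μ) := by
        refine iSup_le fun i => ?_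
        rintro _ ⟨v, hv, rfl⟩
        change U μ 1 (U μ (i : ℕ) v) ∈ W
        rw [← U_add]
        by_cases hi : (i : ℕ) + 1 < p'
        · refine hle ⟨i + 1, hi⟩ ⟨v, hv, ?_⟩
          change U μ ((i + 1 : ℕ) : ℤ) v = _
          congr 2
          push_cast
          ring
        · have hi' : (1 + (i : ℕ) : ℤ) = p' := by
            have := i.2
            omega
          rw [hi']
          exact hVW (hVinv v hv)
      exact fun v hv => this hv
    have hWort : ∀ v ∈ W, ∀ z, ⟪Ev μ z, v⟫_ℂ = 0 := by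
      intro v hv z
      have hle2 : W ≤ (ℂ ∙ Ev μ z)ᗮ := by
        refine iSup_le fun i => ?_
        rintro _ ⟨v, hv, rfl⟩
        rw [Submodule.mem_orthogonal_singleton_iff_inner_right]
        change ⟪Ev μ z, U μ (i : ℕ) v⟫_ℂ = 0
        have h3 : ⟪Ev μ z, U μ (i : ℕ) v⟫_ℂ = ⟪U μ (-(i : ℕ)) (Ev μ z), v⟫_ℂ := by
          rw [inner_U_left, neg_neg]
        rw [h3, U_Ev, inner_smul_left, hVort v hv z, mul_zero]
      exact Submodule.mem_orthogonal_singleton_iff_inner_right.1 (hle2 hv)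
    obtain ⟨z, hz⟩ := exists_char_mem μ hμ W hWne hWinv
    have h4 := hWort _ hz z
    rw [inner_self_eq_zero] at h4
    have h5 := norm_Ev μ z
    rw [h4, norm_zero] at h5
    exact zero_ne_one h5
  have h6 := Bop_inner μ hC g g
  rw [hB0, zero_apply, inner_zero_left] at h6
  have h7 : (fun b => ⟪g, x b⟫_ℂ * ⟪x b, g⟫_ℂ) = fun b => ((‖⟪g, x b⟫_ℂ‖ ^ 2 : ℝ) : ℂ) := by
    ext b
    rw [← inner_conj_symm (x b) g, mul_conj, normSq_eq_norm_sq]
  rw [h7, cm_ofReal μ.2] at h6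
  exact_mod_cast h6.symm

end Pool.Agent.Helper4.Sumset
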