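import Mathlib
import Pool.Agent.Lib.Helper4.Sumset.WM

/-!
# Fejér type kernels
-/

namespace Pool.Agent.Helper4.Sumset

open Set Filter Topology Complex
open scoped InnerProductSpace ComplexConjugate

variable (μ : IMean)

/-- Finite trigonometric polynomials with nonnegative coefficients. -/
def PT (κ : ℤ → ℝ) : Prop :=
  ∃ (ι : Type) (_ : Fintype ι) (c : ι → ℝ) (z : ι → Circle), (∀ i, 0 ≤ c i) ∧
    ∀ n, (κ n : ℂ) = ∑ i, (c i : ℂ) * ch (z i) n

lemma PT.bdd {κ : ℤ → ℝ} (h : PT κ) : Bdd κ := by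
  obtain ⟨ι, _, c, z, hc, hk⟩ := h
  have h1 : Bdd (fun n => (κ n : ℂ)) := by
    simp only [hk]
    exact Bdd.sum _ fun i _ => (Bdd.const _).mul (bdd_ch _)
  exact h1.mono fun n => by simp

lemma PT.one : PT (fun _ => 1) :=
  ⟨Unit, inferInstance, fun _ => 1, fun _ => 1, fun _ => zero_le_one, fun n => by simp⟩

lemma PT.mul {κ κ' : ℤ → ℝ} (h : PT κ) (h' : PT κ') : PT (fun n => κ n * κ' n) := by
  obtain ⟨ι, _, c, z, hc, hk⟩ := h
  obtain ⟨ι', _, c', z', hc', hk'⟩ := h'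
  refine ⟨ι × ι', inferInstance, fun i => c i.1 * c' i.2, fun i => z i.1 * z' i.2,
    fun i => mul_nonneg (hc _) (hc' _), fun n => ?_⟩
  rw [ofReal_mul, hk, hk', Finset.sum_mul_sum, Fintype.sum_prod_type]
  refine Finset.sum_congr rfl fun i _ => Finset.sum_congr rfl fun j _ => ?_
  rw [ch_mul]
  push_cast
  ring

lemma PT.smul {κ : ℤ → ℝ} {a : ℝ} (ha : 0 ≤ a) (h : PT κ) : PT (fun n => a * κ n) := by
  obtain ⟨ι, _, c, z, hc, hk⟩ := h
  refine ⟨ι, inferInstance, fun i => a * c i, z, fun i => mul_nonneg ha (hc _), fun n => ?_⟩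
  rw [ofReal_mul, hk, Finset.mul_sum]
  refine Finset.sum_congr rfl fun i _ => ?_
  push_cast
  ring

lemma PT.add {κ κ' : ℤ → ℝ} (h : PT κ) (h' : PT κ') : PT (fun n => κ n + κ' n) := by
  obtain ⟨ι, _, c, z, hc, hk⟩ := h
  obtain ⟨ι', _, c', z', hc', hk'⟩ := h'
  refine ⟨ι ⊕ ι', inferInstance, Sum.elim c c', Sum.elim z z', ?_, fun n => ?_⟩
  · rintro (i | i)
    · exact hc i
    · exact hc' i
  · rw [ofReal_add, hk, hk', Fintype.sum_sum_type]
    rfl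

lemma PT.prod {ι : Type*} (s : Finset ι) {κ : ι → ℤ → ℝ} (h : ∀ i ∈ s, PT (κ i)) :
    PT (fun n => ∏ i ∈ s, κ i n) := by
  classical
  induction s using Finset.induction_on with
  | empty => simpa using PT.one
  | insert a s ha ih =>
    simp only [Finset.prod_insert ha]
    exact (h a (Finset.mem_insert_self _ _)).mul
      (ih fun i hi => h i (Finset.mem_insert_of_mem hi))

/-- Fourier coefficients of a trigonometric polynomial. -/
lemma pt_coef [DecidableEq Circle] {ι : Type} [Fintype ι] {c : ι → ℝ} {z : ι → Circle}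
    {κ : ℤ → ℝ} (hk : ∀ n, (κ n : ℂ) = ∑ i, (c i : ℂ) * ch (z i) n) (w : Circle) :
    cm μ.1 (fun n => conj (ch w n) * (κ n : ℂ)) =
      ((∑ i, c i * (if z i = w then 1 else 0) : ℝ) : ℂ) := by
  have h1 : (fun n => conj (ch w n) * (κ n : ℂ)) =
      fun n => ∑ i, (c i : ℂ) * ch (w⁻¹ * z i) n := by
    ext n
    rw [hk, Finset.mul_sum]
    refine Finset.sum_congr rfl fun i _ => ?_
    rw [ch_mul, ch_inv]
    ring
  rw [h1, cm_sum μ.2 _ fun i _ => (Bdd.const _).mul (bdd_ch _)]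
  push_cast
  refine Finset.sum_congr rfl fun i _ => ?_
  rw [cm_smul μ.2 _ (bdd_ch _), cm_ch]
  congr 1
  simp only [inv_mul_eq_one, eq_comm]
  split_ifs <;> simp

lemma pt_mean [DecidableEq Circle] {ι : Type} [Fintype ι] {c : ι → ℝ} {z : ι → Circle}
    {κ : ℤ → ℝ} (hk : ∀ n, (κ n : ℂ) = ∑ i, (c i : ℂ) * ch (z i) n) :
    μ.1 κ = ∑ i, c i * (if z i = 1 then 1 else 0) := by
  have h1 := pt_coef μ hk 1
  simp only [ch_one, map_one, one_mul] at h1
  rw [cm_ofReal μ.2] at h1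
  exact_mod_cast h1

lemma PT.mean_nonneg {κ : ℤ → ℝ} (h : PT κ) : 0 ≤ μ.1 κ := by
  classical
  obtain ⟨ι, _, c, z, hc, hk⟩ := h
  rw [pt_mean μ hk]
  refine Finset.sum_nonneg fun i _ => mul_nonneg (hc i) ?_
  split_ifs <;> simp

/-- The Fejér kernel. -/
noncomputable def fejer (z : Circle) (N : ℕ) (n : ℤ) : ℝ :=
  (N : ℝ)⁻¹ * ‖∑ j ∈ Finset.range N, (ch z n) ^ j‖ ^ 2

lemma fejer_nonneg (z : Circle) (N : ℕ) (n : ℤ) : 0 ≤ fejer z N n := by
  unfold fejer; positivity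

lemma fejer_mul_le (z : Circle) {N : ℕ} (hN : 0 < N) (n : ℤ) :
    fejer z N n * ‖1 - ch z n‖ ^ 2 ≤ 4 / N := by
  have hN' : (0:ℝ) < N := by exact_mod_cast hN
  have h1 : fejer z N n * ‖1 - ch z n‖ ^ 2 = (N : ℝ)⁻¹ * ‖1 - (ch z n) ^ N‖ ^ 2 := by
    rw [fejer, mul_assoc, ← mul_pow, ← norm_mul, ← geom_sum_mul_neg (ch z n) N]
  have h2 : ‖1 - (ch z n) ^ N‖ ≤ 2 := by
    refine (norm_sub_le _ _).trans ?_
    rw [norm_one, norm_pow, norm_ch, one_pow]
    norm_num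
  rw [h1, div_eq_inv_mul]
  have h3 : ‖1 - (ch z n) ^ N‖ ^ 2 ≤ 4 := by
    calc _ ≤ (2:ℝ) ^ 2 := by gcongr
      _ = 4 := by norm_num
  gcongr

lemma ch_npow (z : Circle) (n : ℤ) (j : ℕ) : ch z n ^ j = ch (z ^ j) n := by
  rw [ch_pow, ch, ch, mul_comm, zpow_mul, zpow_natCast]
  rfl

lemma fejer_eq (z : Circle) {N : ℕ} (n : ℤ) :
    (fejer z N n : ℂ) = ∑ i : Fin N × Fin N, ((N : ℝ)⁻¹ : ℝ) *
      ch ((z ^ (i.1 : ℕ)) * (z ^ (i.2 : ℕ))⁻¹) n := by
  rw [fejer, ofReal_mul, ← normSq_eq_norm_sq, ← mul_conj, map_sum, Finset.sum_mul_sum,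
    Finset.mul_sum, Fintype.sum_prod_type]
  rw [Finset.sum_range]
  refine Finset.sum_congr rfl fun i _ => ?_
  rw [Finset.mul_sum, Finset.sum_range]
  refine Finset.sum_congr rfl fun j _ => ?_
  rw [ch_mul, ch_inv, map_pow, ch_npow, ← ch_npow z n j, map_pow]

/-- The Fejér kernel minus one is positive definite. -/
lemma PT_fejer_sub (z : Circle) {N : ℕ} (hN : 0 < N) : PT (fun n => fejer z N n - 1) := by
  have hN' : (N : ℂ) ≠ 0 := by exact_mod_cast hN.ne'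
  refine ⟨Fin N × Fin N, inferInstance, fun i => if i.1 = i.2 then 0 else (N : ℝ)⁻¹,
    fun i => (z ^ (i.1 : ℕ)) * (z ^ (i.2 : ℕ))⁻¹, fun i => ?_, fun n => ?_⟩
  · dsimp only
    split_ifs
    · exact le_rfl
    · positivity
  · rw [ofReal_sub, fejer_eq]
    have h1 : ∀ i : Fin N × Fin N,
        ((if i.1 = i.2 then 0 else (N : ℝ)⁻¹ : ℝ) : ℂ) *
          ch ((z ^ (i.1 : ℕ)) * (z ^ (i.2 : ℕ))⁻¹) n =
        ((N : ℝ)⁻¹ : ℝ) * ch ((z ^ (i.1 : ℕ)) * (z ^ (i.2 : ℕ))⁻¹) n -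
          (if i.1 = i.2 then (N : ℂ)⁻¹ else 0) := by
      intro i
      split_ifs with h
      · rw [h, mul_inv_cancel, ch_one]
        push_cast
        ring
      · ring
    rw [Finset.sum_congr rfl fun i _ => h1 i, Finset.sum_sub_distrib]
    congr 1
    rw [Fintype.sum_prod_type]
    simp only [Finset.sum_ite_eq, Finset.mem_univ, if_true, Finset.sum_const, Finset.card_univ,
      Fintype.card_fin, nsmul_eq_mul]
    rw [mul_inv_cancel₀ hN', ofReal_one]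

lemma PT_fejer (z : Circle) {N : ℕ} (hN : 0 < N) : PT (fejer z N) := by
  have := (PT_fejer_sub z hN).add PT.one
  simpa using this

/-- A kernel: nonnegative, positive definite, mean one. -/
structure IsKer (κ : ℤ → ℝ) : Prop where
  nonneg : ∀ n, 0 ≤ κ n
  pt : PT κ
  mean : μ.1 κ = 1

/-- Existence of kernels concentrated near zero. -/
theorem exists_kernel (Φ : Finset Circle) {ε : ℝ} (hε : 0 < ε) :
    ∃ κ, IsKer μ κ ∧ ∀ z ∈ Φ, μ.1 (fun n => κ n * ‖1 - ch z n‖) ≤ ε := by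
  classical
  obtain ⟨N, hN⟩ := exists_nat_gt (4 / ε ^ 2)
  have hN0 : (0:ℝ) < N := lt_trans (by positivity) hN
  have hN0' : 0 < N := by exact_mod_cast hN0
  set κ0 : ℤ → ℝ := fun n => ∏ z ∈ Φ, fejer z N n with hκ0
  have hnn : ∀ (Ψ : Finset Circle) n, 0 ≤ ∏ z ∈ Ψ, fejer z N n := fun Ψ n =>
    Finset.prod_nonneg fun z _ => fejer_nonneg z N n
  have hpt : ∀ Ψ : Finset Circle, PT (fun n => ∏ z ∈ Ψ, fejer z N n) := fun Ψ =>
    PT.prod Ψ fun z _ => PT_fejer z hN0'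
  have hstep : ∀ (z : Circle) (r : ℤ → ℝ), PT r → μ.1 r ≤ μ.1 (fun n => fejer z N n * r n) := by
    intro z r hr
    have h1 := ((PT_fejer_sub z hN0').mul hr).mean_nonneg μ
    have h2 : (fun n => (fejer z N n - 1) * r n) = fun n => fejer z N n * r n - r n := by
      ext n; ring
    rw [h2, μ.2.sub ((PT_fejer z hN0').bdd.mul hr.bdd) hr.bdd] at h1
    linarith
  have hge1 : ∀ Ψ : Finset Circle, 1 ≤ μ.1 (fun n => ∏ z ∈ Ψ, fejer z N n) := by
    intro Ψ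
    induction Ψ using Finset.induction_on with
    | empty => simp [μ.2.one]
    | insert a s ha ih =>
      simp only [Finset.prod_insert ha]
      exact ih.trans (hstep a _ (hpt s))
  have hM : 1 ≤ μ.1 κ0 := hge1 Φ
  set M := μ.1 κ0 with hMdef
  have hM0 : 0 < M := by linarith
  refine ⟨fun n => M⁻¹ * κ0 n, ⟨fun n => mul_nonneg (by positivity) (hnn Φ n),
    (hpt Φ).smul (by positivity), ?_⟩, fun z hz => ?_⟩
  · rw [μ.2.smul _ _ (hpt Φ).bdd]
    exact inv_mul_cancel₀ hM0.ne'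
  · -- the concentration bound
    set r : ℤ → ℝ := fun n => ∏ w ∈ Φ.erase z, fejer w N n with hr
    have hrpt : PT r := hpt _
    have hdec : ∀ n, κ0 n = fejer z N n * r n := fun n => (Finset.mul_prod_erase Φ _ hz).symm
    have hb1 : Bdd (fun n => ‖1 - ch z n‖) := ((Bdd.const (1:ℂ)).sub (bdd_ch z)).norm
    have hκb : Bdd κ0 := (hpt Φ).bdd
    have h1 : μ.1 (fun n => κ0 n * ‖1 - ch z n‖ ^ 2) ≤ 4 / N * M := by
      calc μ.1 (fun n => κ0 n * ‖1 - ch z n‖ ^ 2) ≤ μ.1 (fun n => 4 / N * r n) := by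
            refine μ.2.mono (hκb.mul (hb1.pow 2)) ((Bdd.const _).mul hrpt.bdd) fun n => ?_
            rw [hdec, mul_right_comm]
            exact mul_le_mul_of_nonneg_right (fejer_mul_le z hN0' n) (hnn _ n)
        _ = 4 / N * μ.1 r := μ.2.smul _ _ hrpt.bdd
        _ ≤ 4 / N * M := by
            have h2 := hstep z r hrpt
            have h3 : (fun n => fejer z N n * r n) = κ0 := by
              ext n; rw [hdec]
            rw [h3] at h2
            exact mul_le_mul_of_nonneg_left h2 (by positivity)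
    have h4 : (4:ℝ) / N ≤ ε ^ 2 := by
      rw [div_le_iff₀ hN0]
      have := (div_lt_iff₀ (by positivity : (0:ℝ) < ε ^ 2)).1 hN
      linarith
    have h5 : μ.1 (fun n => M⁻¹ * κ0 n * ‖1 - ch z n‖) ≤
        μ.1 (fun n => (ε / 2 * M⁻¹) * κ0 n + ((2 * ε)⁻¹ * M⁻¹) * (κ0 n * ‖1 - ch z n‖ ^ 2)) := by
      refine μ.2.mono (((Bdd.const _).mul hκb).mul hb1)
        (((Bdd.const _).mul hκb).add ((Bdd.const _).mul (hκb.mul (hb1.pow 2)))) fun n => ?_
      have h6 : ‖1 - ch z n‖ ≤ ε / 2 + (2 * ε)⁻¹ * ‖1 - ch z n‖ ^ 2 := by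
        have h7 : 0 ≤ (2 * ε)⁻¹ * (‖1 - ch z n‖ - ε) ^ 2 := by positivity
        have h8 : (2 * ε)⁻¹ * (‖1 - ch z n‖ - ε) ^ 2 =
            ε / 2 + (2 * ε)⁻¹ * ‖1 - ch z n‖ ^ 2 - ‖1 - ch z n‖ := by
          field_simp
          ring
        linarith
      have h9 : 0 ≤ M⁻¹ * κ0 n := mul_nonneg (by positivity) (hnn Φ n)
      calc M⁻¹ * κ0 n * ‖1 - ch z n‖ ≤ M⁻¹ * κ0 n * (ε / 2 + (2 * ε)⁻¹ * ‖1 - ch z n‖ ^ 2) :=
            mul_le_mul_of_nonneg_left h6 h9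
        _ = _ := by ring
    refine h5.trans ?_
    rw [μ.2.add _ _ ((Bdd.const _).mul hκb) ((Bdd.const _).mul (hκb.mul (hb1.pow 2))),
      μ.2.smul _ _ hκb, μ.2.smul _ _ (hκb.mul (hb1.pow 2)), ← hMdef]
    have h10 : (2 * ε)⁻¹ * M⁻¹ * μ.1 (fun n => κ0 n * ‖1 - ch z n‖ ^ 2) ≤
        (2 * ε)⁻¹ * M⁻¹ * (ε ^ 2 * M) := by
      refine mul_le_mul_of_nonneg_left (h1.trans ?_) (by positivity)
      exact mul_le_mul_of_nonneg_right h4 hM0.le
    have h11 : (2 * ε)⁻¹ * M⁻¹ * (ε ^ 2 * M) = ε / 2 := by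
      field_simp
    have h12 : ε / 2 * M⁻¹ * M = ε / 2 := by
      field_simp
    rw [h12]
    linarith

/-! ### Averaging against a kernel -/

lemma bdd_conv {κ h : ℤ → ℝ} (hκ : Bdd κ) (hh : Bdd h) :
    Bdd (fun b => μ.1 (fun n => κ (n - b) * h n)) := by
  obtain ⟨C, hC0, hC⟩ := hκ.exists_pos
  obtain ⟨D, hD0, hD⟩ := hh.exists_pos
  refine ⟨C * D, fun b => μ.2.abs_le fun n => ?_⟩
  rw [abs_mul]
  exact mul_le_mul (hC _) (hD _) (abs_nonneg _) hC0.le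

section expand

variable {ι : Type} [Fintype ι] {c : ι → ℝ} {z : ι → Circle} {κ : ℤ → ℝ}

lemma ker_expand (hk : ∀ n, (κ n : ℂ) = ∑ i, (c i : ℂ) * ch (z i) n) (b n : ℤ) :
    (κ (n - b) : ℂ) = ∑ i, ((c i : ℂ) * conj (ch (z i) b)) * ch (z i) n := by
  rw [hk]
  refine Finset.sum_congr rfl fun i _ => ?_
  rw [sub_eq_add_neg, ch_add, ch_neg]
  ring

lemma conv_expand (hk : ∀ n, (κ n : ℂ) = ∑ i, (c i : ℂ) * ch (z i) n) {h : ℤ → ℝ} (hh : Bdd h)
    (b : ℤ) : (μ.1 (fun n => κ (n - b) * h n) : ℂ) =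
      ∑ i, ((c i : ℂ) * cm μ.1 (fun n => ch (z i) n * h n)) * conj (ch (z i) b) := by
  rw [← cm_ofReal μ.2]
  have h1 : (fun n => ((κ (n - b) * h n : ℝ) : ℂ)) =
      fun n => ∑ i, ((c i : ℂ) * conj (ch (z i) b)) * (ch (z i) n * h n) := by
    ext n
    rw [ofReal_mul, ker_expand hk, Finset.sum_mul]
    refine Finset.sum_congr rfl fun i _ => ?_
    ring
  rw [h1, cm_sum μ.2 _ fun i _ => (Bdd.const _).mul ((bdd_ch _).mul hh.ofReal)]
  refine Finset.sum_congr rfl fun i _ => ?_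
  rw [cm_smul μ.2 _ ((bdd_ch _).mul hh.ofReal)]
  ring

lemma T_expand (hk : ∀ n, (κ n : ℂ) = ∑ i, (c i : ℂ) * ch (z i) n) (b : ℤ) (x : HH μ) :
    T μ (fun n => (κ (n - b) : ℂ)) x =
      ∑ i, ((c i : ℂ) * conj (ch (z i) b)) • T μ (ch (z i)) x := by
  simp only [ker_expand hk]
  rw [T_sum μ _ fun i _ => (Bdd.const _).mul (bdd_ch _)]
  refine Finset.sum_congr rfl fun i _ => ?_
  rw [T_smul μ _ (bdd_ch _)]

end expand

variable {μ} {κ : ℤ → ℝ}

/-- Fubini for kernels. -/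
lemma IsKer.fubini (hκ : IsKer μ κ) {h : ℤ → ℝ} (hh : Bdd h) :
    μ.1 (fun b => μ.1 (fun n => κ (n - b) * h n)) = μ.1 h := by
  classical
  obtain ⟨ι, _, c, z, hc, hk⟩ := hκ.pt
  have h1 : ((μ.1 (fun b => μ.1 (fun n => κ (n - b) * h n)) : ℝ) : ℂ) = (μ.1 h : ℂ) := by
    rw [← cm_ofReal μ.2]
    simp only [conv_expand μ hk hh]
    rw [cm_sum μ.2 _ fun i _ => (Bdd.const _).mul (bdd_ch _).conj]
    have h2 : ∀ i ∈ Finset.univ, cm μ.1 (fun b => ((c i : ℂ) *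
        cm μ.1 (fun n => ch (z i) n * h n)) * conj (ch (z i) b)) =
        (μ.1 h : ℂ) * ((c i * (if z i = 1 then 1 else 0) : ℝ) : ℂ) := by
      intro i _
      rw [cm_smul μ.2 _ (bdd_ch _).conj, cm_conj μ.2 (bdd_ch _), cm_ch]
      split_ifs with hi
      · rw [hi]
        simp only [ch_one, one_mul, map_one, mul_one]
        rw [cm_ofReal μ.2, mul_comm]
      · simp
    rw [Finset.sum_congr rfl h2, ← Finset.mul_sum, ← ofReal_sum, ← pt_mean μ hk, hκ.mean]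
    simp
  exact_mod_cast h1

/-- Positive definiteness of kernels. -/
lemma IsKer.quad (hκ : IsKer μ κ) {g : ℤ → ℝ} (hg : Bdd g) :
    μ.1 g ^ 2 ≤ μ.1 (fun b => g b * μ.1 (fun n => κ (n - b) * g n)) := by
  classical
  obtain ⟨ι, _, c, z, hc, hk⟩ := hκ.pt
  set a : ι → ℂ := fun i => cm μ.1 (fun n => ch (z i) n * g n) with ha
  have h1 : ((μ.1 (fun b => g b * μ.1 (fun n => κ (n - b) * g n)) : ℝ) : ℂ) =
      ((∑ i, c i * ‖a i‖ ^ 2 : ℝ) : ℂ) := by
    rw [← cm_ofReal μ.2]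
    have h2 : (fun b => ((g b * μ.1 (fun n => κ (n - b) * g n) : ℝ) : ℂ)) =
        fun b => ∑ i, ((c i : ℂ) * a i) * conj (ch (z i) b * g b) := by
      ext b
      rw [ofReal_mul, conv_expand μ hk hg, Finset.mul_sum]
      refine Finset.sum_congr rfl fun i _ => ?_
      rw [map_mul, conj_ofReal]
      ring
    rw [h2, cm_sum μ.2 _ fun i _ => (Bdd.const _).mul ((bdd_ch _).mul hg.ofReal).conj]
    push_cast
    refine Finset.sum_congr rfl fun i _ => ?_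
    rw [cm_smul μ.2 _ ((bdd_ch _).mul hg.ofReal).conj, cm_conj μ.2 ((bdd_ch _).mul hg.ofReal),
      mul_assoc]
    change (c i : ℂ) * (a i * conj (a i)) = _
    rw [mul_conj, normSq_eq_norm_sq]
    push_cast
    ring
  have h3 : μ.1 (fun b => g b * μ.1 (fun n => κ (n - b) * g n)) = ∑ i, c i * ‖a i‖ ^ 2 := by
    exact_mod_cast h1
  rw [h3]
  have h4 : μ.1 g ^ 2 = ∑ i, (c i * (if z i = 1 then 1 else 0)) * μ.1 g ^ 2 := by
    rw [← Finset.sum_mul, ← pt_mean μ hk, hκ.mean, one_mul]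
  rw [h4]
  refine Finset.sum_le_sum fun i _ => ?_
  split_ifs with hi
  · have h5 : a i = (μ.1 g : ℂ) := by
      rw [ha]
      simp only [hi, ch_one, one_mul]
      rw [cm_ofReal μ.2]
    rw [h5, norm_real, Real.norm_eq_abs, sq_abs, mul_one]
  · rw [mul_zero, zero_mul]
    exact mul_nonneg (hc i) (by positivity)

end Pool.Agent.Helper4.Sumset
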