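import Mathlib
import Pool.Agent.Lib.Helper4.Sumset.Kernel

/-!
# Tail and weak mixing estimates for kernels
-/

namespace Pool.Agent.Helper4.Sumset

open Set Filter Topology Complex
open scoped InnerProductSpace ComplexConjugate

/-- A finite set of points of the circle with the same `q`-th power has at most `q` elements. -/
lemma card_le_of_pow_eq {q : ℕ} (hq : 0 < q) (Δ : Finset Circle) (w : Circle)
    (h : ∀ z ∈ Δ, z ^ q = w) : Δ.card ≤ q := by
  classical
  have h1 : (Δ.image (fun z : Circle => (z : ℂ))).card = Δ.card :=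
    Finset.card_image_of_injective _ Circle.coe_injective
  have h2 : Δ.image (fun z : Circle => (z : ℂ)) ⊆ (Polynomial.nthRoots q (w : ℂ)).toFinset := by
    intro x hx
    obtain ⟨z, hz, rfl⟩ := Finset.mem_image.1 hx
    rw [Multiset.mem_toFinset, Polynomial.mem_nthRoots hq, ← h z hz]
    rfl
  rw [← h1]
  exact (Finset.card_le_card h2).trans
    ((Multiset.toFinset_card_le _).trans (Polynomial.card_nthRoots _ _))

lemma finite_roots {q : ℕ} (hq : 0 < q) : {z : Circle | z ^ q = 1}.Finite := by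
  by_contra h
  obtain ⟨s, hs, hcard⟩ := Set.Infinite.exists_subset_card_eq h (q + 1)
  have := card_le_of_pow_eq hq s 1 fun z hz => hs hz
  omega

/-- The finite set of roots of unity of order dividing `q`. -/
noncomputable def Rts (q : ℕ) (hq : 0 < q) : Finset Circle := (finite_roots hq).toFinset

lemma mem_Rts {q : ℕ} {hq : 0 < q} {z : Circle} : z ∈ Rts q hq ↔ z ^ q = 1 := by
  rw [Rts, Set.Finite.mem_toFinset]; rfl

lemma card_Rts_le {q : ℕ} (hq : 0 < q) : (Rts q hq).card ≤ q :=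
  card_le_of_pow_eq hq _ 1 fun _ hz => mem_Rts.1 hz

variable {μ : IMean} {κ : ℤ → ℝ}

/-- The total Fourier mass of a kernel on roots of unity. -/
lemma IsKer.roots_mass (hκ : IsKer μ κ) {ι : Type} [Fintype ι] {c : ι → ℝ} {z : ι → Circle}
    (hk : ∀ n, (κ n : ℂ) = ∑ i, (c i : ℂ) * ch (z i) n) {q : ℕ} (hq : 0 < q)
    [DecidableEq Circle] : ∑ i, c i * (if z i ^ q = 1 then 1 else 0) ≤ q := by
  have h1 : ∀ w : Circle, ∑ i, c i * (if z i = w then 1 else 0) ≤ 1 := by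
    intro w
    have h2 := pt_coef μ hk w
    have h3 : Bdd (fun n => conj (ch w n) * (κ n : ℂ)) := (bdd_ch w).conj.mul hκ.pt.bdd.ofReal
    have h4 := norm_cm_le μ.2 h3
    rw [h2, norm_real, Real.norm_eq_abs] at h4
    have h5 : (fun n => ‖conj (ch w n) * (κ n : ℂ)‖) = κ := by
      ext n
      rw [norm_mul, RCLike.norm_conj, norm_ch, one_mul, norm_real, Real.norm_eq_abs,
        abs_of_nonneg (hκ.nonneg n)]
    rw [h5, hκ.mean] at h4
    exact (le_abs_self _).trans h4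
  have h6 : ∑ i, c i * (if z i ^ q = 1 then 1 else 0) =
      ∑ w ∈ Rts q hq, ∑ i, c i * (if z i = w then 1 else 0) := by
    rw [Finset.sum_comm]
    refine Finset.sum_congr rfl fun i _ => ?_
    rw [← Finset.mul_sum, Finset.sum_ite_eq]
    simp only [mem_Rts]
  rw [h6]
  calc ∑ w ∈ Rts q hq, ∑ i, c i * (if z i = w then 1 else 0) ≤ ∑ w ∈ Rts q hq, (1:ℝ) :=
        Finset.sum_le_sum fun w _ => h1 w
    _ = (Rts q hq).card := by simp
    _ ≤ q := by exact_mod_cast card_Rts_le hq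

lemma bdd_inner_T {x : ℤ → HH μ} {ρ : ℝ} (hρ : ∀ b, ‖x b‖ ≤ ρ) (z : Circle) :
    Bdd (fun b => ⟪x b, T μ (ch z) (x b)⟫_ℂ) := by
  have hρ0 : 0 ≤ ρ := (norm_nonneg _).trans (hρ 0)
  refine ⟨ρ * ρ, fun b => (norm_inner_le_norm _ _).trans ?_⟩
  have h1 : ‖T μ (ch z) (x b)‖ ≤ 1 * ‖x b‖ := norm_T_le μ zero_le_one (fun n => (norm_ch z n).le) _
  rw [one_mul] at h1
  exact mul_le_mul (hρ b) (h1.trans (hρ b)) (norm_nonneg _) hρ0

lemma norm_T_ch_le (z : Circle) (x : HH μ) : ‖T μ (ch z) x‖ ≤ ‖x‖ := by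
  have h1 : ‖T μ (ch z) x‖ ≤ 1 * ‖x‖ := norm_T_le μ zero_le_one (fun n => (norm_ch z n).le) _
  rwa [one_mul] at h1

/-- **The tail estimate.** -/
lemma IsKer.tail (hκ : IsKer μ κ) {p p' : ℕ} (hp : 0 < p) {x : ℤ → HH μ} {ρ : ℝ}
    (hρ : ∀ b, ‖x b‖ ≤ ρ) (hx : ∀ b, U μ p' (x b) = x (b + p)) :
    μ.1 (fun b => (⟪x b, T μ (fun n => (κ (n - b) : ℂ)) (x b)⟫_ℂ).re) ≤ (p + p' : ℕ) * ρ ^ 2 := by
  classical
  obtain ⟨ι, _, c, z, hc, hk⟩ := hκ.pt
  have hq : 0 < p + p' := by omega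
  have hρ0 : 0 ≤ ρ := (norm_nonneg _).trans (hρ 0)
  set h : ι → ℤ → ℂ := fun i b => ⟪x b, T μ (ch (z i)) (x b)⟫_ℂ with hh
  have hb : ∀ i, Bdd (h i) := fun i => bdd_inner_T hρ (z i)
  have hb' : ∀ i, Bdd (fun b => conj (ch (z i) b) * h i b) := fun i => (bdd_ch _).conj.mul (hb i)
  have h1 : (fun b => ⟪x b, T μ (fun n => (κ (n - b) : ℂ)) (x b)⟫_ℂ) =
      fun b => ∑ i, (c i : ℂ) * (conj (ch (z i) b) * h i b) := by
    ext b
    rw [T_expand μ hk, inner_sum]
    refine Finset.sum_congr rfl fun i _ => ?_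
    rw [inner_smul_right, mul_assoc]
  have h2 : μ.1 (fun b => (⟪x b, T μ (fun n => (κ (n - b) : ℂ)) (x b)⟫_ℂ).re) =
      (∑ i, (c i : ℂ) * cm μ.1 (fun b => conj (ch (z i) b) * h i b)).re := by
    have h3 : μ.1 (fun b => (⟪x b, T μ (fun n => (κ (n - b) : ℂ)) (x b)⟫_ℂ).re) =
        (cm μ.1 (fun b => ⟪x b, T μ (fun n => (κ (n - b) : ℂ)) (x b)⟫_ℂ)).re := rfl
    rw [h3, h1, cm_sum μ.2 _ fun i _ => (Bdd.const _).mul (hb' i)]
    refine congrArg Complex.re (Finset.sum_congr rfl fun i _ => ?_)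
    rw [cm_smul μ.2 _ (hb' i)]
  rw [h2, re_sum]
  have h4 : ∀ i ∈ Finset.univ, ((c i : ℂ) * cm μ.1 (fun b => conj (ch (z i) b) * h i b)).re ≤
      (c i * (if z i ^ (p + p') = 1 then 1 else 0)) * ρ ^ 2 := by
    intro i _
    rw [re_ofReal_mul]
    split_ifs with hi
    · rw [mul_one]
      refine mul_le_mul_of_nonneg_left ((re_le_norm _).trans ?_) (hc i)
      refine norm_cm_le_of_le μ.2 fun b => ?_
      rw [norm_mul, RCLike.norm_conj, norm_ch, one_mul]
      refine (norm_inner_le_norm _ _).trans ?_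
      rw [sq]
      exact mul_le_mul (hρ b) ((norm_T_ch_le _ _).trans (hρ b)) (norm_nonneg _) hρ0
    · have h5 : cm μ.1 (fun b => conj (ch (z i) b) * h i b) = 0 := by
        refine cm_eq_zero_of_quasi μ.2 (hb' i) (p := p) (u := conj (ch (z i) (p + p'))) ?_
          fun b => ?_
        · intro h6
          apply hi
          have h7 : ch (z i) (p + p') = 1 := by
            have := congrArg conj h6
            rwa [conj_conj, map_one] at this
          apply ch_inj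
          rw [ch_pow, ch_one]
          push_cast
          rw [mul_one]
          exact h7
        · have h8 : h i (b + p) = conj (ch (z i) p') * h i b := by
            rw [hh]
            simp only
            rw [← hx b]
            have h9 : T μ (ch (z i)) (U μ p' (x b)) =
                conj (ch (z i) p') • U μ p' (T μ (ch (z i)) (x b)) := by
              rw [U_T_ch, smul_smul, conj_ch_mul, one_smul]
            rw [h9, inner_smul_right, inner_U_U]
          rw [h8, ch_add, ch_add, map_mul, map_mul]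
          ring
      rw [h5]
      simp
  refine (Finset.sum_le_sum h4).trans ?_
  rw [← Finset.sum_mul]
  have h10 := hκ.roots_mass hk hq
  push_cast at h10 ⊢
  gcongr

/-- Weak mixing families do not correlate with kernels. -/
lemma IsKer.weak_mixing (hκ : IsKer μ κ) {x : ℤ → HH μ} {C : ℝ} (hC : ∀ b, ‖x b‖ ≤ C)
    (hwm : ∀ g : HH μ, μ.1 (fun b => ‖⟪g, x b⟫_ℂ‖ ^ 2) = 0) (G : HH μ) :
    μ.1 (fun b => ‖⟪T μ (fun n => (κ (n - b) : ℂ)) G, x b⟫_ℂ‖) ≤ 0 := by
  classical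
  obtain ⟨ι, _, c, z, hc, hk⟩ := hκ.pt
  have h1 : ∀ g : HH μ, μ.1 (fun b => ‖⟪g, x b⟫_ℂ‖) = 0 := by
    intro g
    have h2 := μ.2.cauchy_schwarz (bdd_inner μ hC g) (Bdd.const (1:ℝ))
    simp only [mul_one] at h2
    rw [hwm g, zero_mul] at h2
    exact pow_eq_zero_iff two_ne_zero |>.1 (le_antisymm h2 (sq_nonneg _))
  have h3 : ∀ b, ‖⟪T μ (fun n => (κ (n - b) : ℂ)) G, x b⟫_ℂ‖ ≤
      ∑ i, c i * ‖⟪T μ (ch (z i)) G, x b⟫_ℂ‖ := by
    intro b
    rw [T_expand μ hk, sum_inner]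
    refine (norm_sum_le _ _).trans (Finset.sum_le_sum fun i _ => ?_)
    rw [inner_smul_left, norm_mul, RCLike.norm_conj, norm_mul, RCLike.norm_conj, norm_ch, mul_one,
      norm_real, Real.norm_eq_abs, abs_of_nonneg (hc i)]
  have h4 : Bdd (fun b => ∑ i, c i * ‖⟪T μ (ch (z i)) G, x b⟫_ℂ‖) :=
    Bdd.sum _ fun i _ => (Bdd.const _).mul (bdd_inner μ hC _)
  have h5 : Bdd (fun b => ‖⟪T μ (fun n => (κ (n - b) : ℂ)) G, x b⟫_ℂ‖) := by
    refine h4.mono fun b => ?_
    rw [norm_norm, Real.norm_eq_abs]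
    exact (h3 b).trans (le_abs_self _)
  refine (μ.2.mono h5 h4 h3).trans ?_
  rw [μ.2.sum _ fun i _ => (Bdd.const _).mul (bdd_inner μ hC _)]
  refine Finset.sum_nonpos fun i _ => ?_
  rw [μ.2.smul _ _ (bdd_inner μ hC _), h1, mul_zero]

end Pool.Agent.Helper4.Sumset
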