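import Mathlib
import Pool.Agent.Lib.Helper4.Sumset.Tail

/-!
# Families of functions with a twisted periodicity
-/

namespace Pool.Agent.Helper4.Sumset

open Set Filter Topology Complex
open scoped InnerProductSpace ComplexConjugate

/-- A family of `[0,1]`-valued functions `X b` with `X (b + p) n = X b (n + p')`. -/
structure Fam where
  /-- first period -/
  p : ℕ
  /-- second period -/
  p' : ℕ
  /-- the functions -/
  X : ℤ → ℤ → ℝ
  hp : 0 < p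
  hp' : 0 < p'
  X0 : ∀ b n, 0 ≤ X b n
  X1 : ∀ b n, X b n ≤ 1
  per : ∀ b n, X (b + p) n = X b (n + p')

variable (μ : IMean) (F : Fam)

namespace Fam

lemma bdd (b : ℤ) : Bdd (F.X b) := ⟨1, fun n => by
  rw [Real.norm_eq_abs, abs_of_nonneg (F.X0 b n)]; exact F.X1 b n⟩

/-- The vector of a member of the family. -/
noncomputable def vx (b : ℤ) : HH μ := emb μ (fun n => (F.X b n : ℂ))

lemma norm_vx (b : ℤ) : ‖F.vx μ b‖ ≤ 1 := norm_emb_le μ zero_le_one fun n => by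
  rw [norm_real, Real.norm_eq_abs, abs_of_nonneg (F.X0 b n)]; exact F.X1 b n

lemma U_vx (b : ℤ) : U μ F.p' (F.vx μ b) = F.vx μ (b + F.p) := by
  rw [vx, U_emb μ _ (F.bdd b).ofReal, vx]
  simp only [F.per]

/-- Fourier coefficients. -/
noncomputable def β (z : Circle) (b : ℤ) : ℂ := ⟪Ev μ z, F.vx μ b⟫_ℂ

lemma norm_β (z : Circle) (b : ℤ) : ‖F.β μ z b‖ ≤ 1 := by
  refine (norm_inner_le_norm _ _).trans ?_
  rw [norm_Ev, one_mul]
  exact F.norm_vx μ b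

lemma bdd_β (z : Circle) : Bdd (F.β μ z) := ⟨1, F.norm_β μ z⟩

lemma inner_Ev_U (z : Circle) (k : ℤ) (x : HH μ) :
    ⟪Ev μ z, U μ k x⟫_ℂ = ch z k * ⟪Ev μ z, x⟫_ℂ := by
  have h3 : ⟪Ev μ z, U μ k x⟫_ℂ = ⟪U μ (-k) (Ev μ z), x⟫_ℂ := by
    rw [inner_U_left, neg_neg]
  rw [h3, U_Ev, inner_smul_left, ch_neg, conj_conj]

lemma β_add (z : Circle) (b : ℤ) : F.β μ z (b + F.p) = ch z F.p' * F.β μ z b := by
  rw [β, ← U_vx, inner_Ev_U, β]

/-- The diagonal coefficients. -/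
noncomputable def γ (z : Circle) (x : ℤ) : ℂ := F.β μ z x * ch z x

lemma bdd_γ (z : Circle) : Bdd (F.γ μ z) := (F.bdd_β μ z).mul (bdd_ch z)

lemma norm_γ (z : Circle) (x : ℤ) : ‖F.γ μ z x‖ = ‖F.β μ z x‖ := by
  rw [γ, norm_mul, norm_ch, mul_one]

/-- The sum of the periods. -/
def q : ℕ := F.p + F.p'

lemma hq : 0 < F.q := by have := F.hp; unfold q; omega

lemma γ_add (z : Circle) (x : ℤ) : F.γ μ z (x + F.p) = ch (z ^ F.q) 1 * F.γ μ z x := by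
  rw [γ, β_add, ch_add, γ, ch_pow, mul_one, q]
  push_cast
  rw [ch_add]
  ring

/-- The structured part. -/
noncomputable def XS (Θ : Finset Circle) (b n : ℤ) : ℂ := ∑ z ∈ Θ, F.β μ z b * ch z n

lemma bdd_XS (Θ : Finset Circle) (b : ℤ) : Bdd (F.XS μ Θ b) :=
  Bdd.sum _ fun z _ => (Bdd.const _).mul (bdd_ch z)

/-- The diagonal of the structured part. -/
noncomputable def J (Θ : Finset Circle) (x : ℤ) : ℂ := ∑ z ∈ Θ, F.γ μ z x

lemma J_eq (Θ : Finset Circle) (x : ℤ) : F.J μ Θ x = F.XS μ Θ x x := rfl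

lemma bdd_J (Θ : Finset Circle) : Bdd (F.J μ Θ) := Bdd.sum _ fun z _ => F.bdd_γ μ z

lemma emb_XS (Θ : Finset Circle) (b : ℤ) :
    emb μ (F.XS μ Θ b) = ∑ z ∈ Θ, F.β μ z b • Ev μ z := by
  unfold XS
  rw [emb_sum μ Θ fun z _ => (Bdd.const _).mul (bdd_ch z)]
  refine Finset.sum_congr rfl fun z _ => ?_
  rw [emb_smul μ _ (bdd_ch z)]
  rfl

/-- The closed span of the characters. -/
noncomputable def Kc : Submodule ℂ (HH μ) := (Submodule.span ℂ (Set.range (Ev μ))).topologicalClosure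

noncomputable instance : (Kc μ).HasOrthogonalProjection := by
  have : CompleteSpace (Kc μ) := by
    unfold Kc
    infer_instance
  infer_instance

lemma Ev_mem (z : Circle) : Ev μ z ∈ Kc μ :=
  Submodule.le_topologicalClosure _ (Submodule.subset_span ⟨z, rfl⟩)

lemma U_mem_Kc (k : ℤ) {v : HH μ} (hv : v ∈ Kc μ) : U μ k v ∈ Kc μ := by
  have h1 : Submodule.span ℂ (Set.range (Ev μ)) ≤ (Kc μ).comap (U μ k : HH μ →ₗ[ℂ] HH μ) := by
    rw [Submodule.span_le]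
    rintro _ ⟨z, rfl⟩
    change U μ k (Ev μ z) ∈ Kc μ
    rw [U_Ev]
    exact (Kc μ).smul_mem _ (Ev_mem μ z)
  have h2 : IsClosed ((Kc μ).comap (U μ k : HH μ →ₗ[ℂ] HH μ) : Set (HH μ)) := by
    have : IsClosed (Kc μ : Set (HH μ)) := Submodule.isClosed_topologicalClosure _
    exact this.preimage (U μ k).continuous
  exact Submodule.topologicalClosure_minimal _ h1 h2 hv

lemma U_mem_Kc_orth (k : ℤ) {v : HH μ} (hv : v ∈ (Kc μ)ᗮ) : U μ k v ∈ (Kc μ)ᗮ := by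
  rw [Submodule.mem_orthogonal] at hv ⊢
  intro u hu
  have h3 : ⟪u, U μ k v⟫_ℂ = ⟪U μ (-k) u, v⟫_ℂ := by
    rw [inner_U_left, neg_neg]
  rw [h3]
  exact hv _ (U_mem_Kc μ _ hu)

/-- The compact part. -/
noncomputable def pc (b : ℤ) : HH μ := (Kc μ).starProjection (F.vx μ b)

lemma pc_mem (b : ℤ) : F.pc μ b ∈ Kc μ := Submodule.starProjection_apply_mem _ _

/-- The weak mixing part. -/
noncomputable def w (b : ℤ) : HH μ := F.vx μ b - F.pc μ b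

lemma w_mem (b : ℤ) : F.w μ b ∈ (Kc μ)ᗮ := Submodule.sub_starProjection_mem_orthogonal _

lemma vx_eq (b : ℤ) : F.vx μ b = F.pc μ b + F.w μ b := by rw [w, add_sub_cancel]

lemma U_pc (b : ℤ) : U μ F.p' (F.pc μ b) = F.pc μ (b + F.p) := by
  have h1 := F.U_vx μ b
  rw [vx_eq, map_add] at h1
  symm
  rw [pc]
  refine Submodule.eq_starProjection_of_mem_orthogonal' (z := U μ F.p' (F.w μ b))
    (U_mem_Kc μ _ (F.pc_mem μ b)) (U_mem_Kc_orth μ _ (F.w_mem μ b)) h1.symm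

lemma U_w (b : ℤ) : U μ F.p' (F.w μ b) = F.w μ (b + F.p) := by
  rw [w, map_sub, U_vx, U_pc, w]

lemma norm_w (b : ℤ) : ‖F.w μ b‖ ≤ 2 := by
  refine (norm_sub_le _ _).trans ?_
  have h1 := F.norm_vx μ b
  have h2 : ‖F.pc μ b‖ ≤ ‖F.vx μ b‖ := (Kc μ).norm_starProjection_apply_le _
  linarith

lemma w_orth (z : Circle) (b : ℤ) : ⟪Ev μ z, F.w μ b⟫_ℂ = 0 :=
  (Submodule.mem_orthogonal _ _).1 (F.w_mem μ b) _ (Ev_mem μ z)

lemma w_wm (hμ : IsErg μ) (g : HH μ) : μ.1 (fun b => ‖⟪g, F.w μ b⟫_ℂ‖ ^ 2) = 0 :=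
  Sumset.weak_mixing μ hμ F.hp' (F.norm_w μ) (F.U_w μ) (F.w_orth μ) g

lemma inner_Ev_pc (z : Circle) (b : ℤ) : ⟪Ev μ z, F.pc μ b⟫_ℂ = F.β μ z b := by
  rw [β, vx_eq, inner_add_right, w_orth, add_zero]

/-- The remainder. -/
noncomputable def R (Θ : Finset Circle) (b : ℤ) : HH μ := F.pc μ b - emb μ (F.XS μ Θ b)

lemma vx_eq' (Θ : Finset Circle) (b : ℤ) :
    F.vx μ b = emb μ (F.XS μ Θ b) + F.R μ Θ b + F.w μ b := by
  rw [vx_eq, R]; abel

lemma U_XS (Θ : Finset Circle) (b : ℤ) :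
    U μ F.p' (emb μ (F.XS μ Θ b)) = emb μ (F.XS μ Θ (b + F.p)) := by
  rw [emb_XS, emb_XS, map_sum]
  refine Finset.sum_congr rfl fun z _ => ?_
  rw [map_smul, U_Ev, smul_smul, β_add, mul_comm]

lemma U_R (Θ : Finset Circle) (b : ℤ) : U μ F.p' (F.R μ Θ b) = F.R μ Θ (b + F.p) := by
  rw [R, map_sub, U_pc, U_XS, R]

lemma inner_Ev_XS [DecidableEq Circle] (Θ : Finset Circle) (z : Circle) (b : ℤ) :
    ⟪Ev μ z, emb μ (F.XS μ Θ b)⟫_ℂ = if z ∈ Θ then F.β μ z b else 0 := by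
  rw [emb_XS, inner_sum]
  simp only [inner_smul_right, inner_Ev, mul_ite, mul_one, mul_zero]
  rw [Finset.sum_ite_eq]

lemma inner_Ev_R [DecidableEq Circle] (Θ : Finset Circle) (z : Circle) (b : ℤ) :
    ⟪Ev μ z, F.R μ Θ b⟫_ℂ = if z ∈ Θ then 0 else F.β μ z b := by
  rw [R, inner_sub_right, inner_Ev_pc, inner_Ev_XS]
  split_ifs <;> simp

/-- Bessel's inequality for the remainder. -/
lemma sum_β_le (Θ Δ : Finset Circle) (h : Disjoint Θ Δ) (b : ℤ) :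
    ∑ z ∈ Δ, ‖F.β μ z b‖ ^ 2 ≤ ‖F.R μ Θ b‖ ^ 2 := by
  classical
  have h1 := (orthonormal_Ev μ).sum_inner_products_le (F.R μ Θ b) (s := Δ)
  refine le_trans (le_of_eq (Finset.sum_congr rfl fun z hz => ?_)) h1
  rw [inner_Ev_R, if_neg (Finset.disjoint_right.1 h hz)]

lemma sum_β_le_one (Δ : Finset Circle) (b : ℤ) : ∑ z ∈ Δ, ‖F.β μ z b‖ ^ 2 ≤ 1 := by
  have h1 := (orthonormal_Ev μ).sum_inner_products_le (F.vx μ b) (s := Δ)
  refine h1.trans ?_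
  have := F.norm_vx μ b
  have h0 : 0 ≤ ‖F.vx μ b‖ := norm_nonneg _
  nlinarith

end Fam

end Pool.Agent.Helper4.Sumset
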