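import Mathlib
import Pool.Agent.Lib.Helper4.Sumset.Family

/-!
# Approximation of families by structured parts
-/

namespace Pool.Agent.Helper4.Sumset

open Set Filter Topology Complex
open scoped InnerProductSpace ComplexConjugate

variable (μ : IMean) (F : Fam)

namespace Fam

lemma norm_R_add (Θ : Finset Circle) (b : ℤ) : ‖F.R μ Θ (b + F.p)‖ = ‖F.R μ Θ b‖ := by
  rw [← U_R, norm_U]

lemma norm_R_add_mul (Θ : Finset Circle) (b k : ℤ) :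
    ‖F.R μ Θ (b + k * F.p)‖ = ‖F.R μ Θ b‖ := by
  induction k using Int.induction_on with
  | zero => simp
  | succ k ih =>
    rw [← ih, ← norm_R_add μ F Θ (b + (k:ℤ) * F.p)]
    congr 2
    ring
  | pred k ih =>
    rw [← ih, ← norm_R_add μ F Θ (b + (-(k:ℤ) - 1) * F.p)]
    congr 2
    ring

lemma exists_approx_one (b : ℤ) {ε : ℝ} (hε : 0 < ε) :
    ∃ Θ₀ : Finset Circle, ∀ Θ, Θ₀ ⊆ Θ → ‖F.R μ Θ b‖ ≤ ε := by
  classical
  have h1 : F.pc μ b ∈ closure (Submodule.span ℂ (Set.range (Ev μ)) : Set (HH μ)) := by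
    have := F.pc_mem μ b
    rwa [Kc, ← SetLike.mem_coe, Submodule.topologicalClosure_coe] at this
  obtain ⟨y, hy, hdist⟩ := Metric.mem_closure_iff.1 h1 ε hε
  obtain ⟨c, hc⟩ := Finsupp.mem_span_range_iff_exists_finsupp.1 hy
  refine ⟨c.support, fun Θ hΘ => ?_⟩
  have hyΘ : y = ∑ z ∈ Θ, c z • Ev μ z := by
    rw [← hc, Finsupp.sum]
    exact Finset.sum_subset hΘ fun z _ hz => by
      rw [Finsupp.notMem_support_iff.1 hz, zero_smul]
  set P : HH μ := emb μ (F.XS μ Θ b) - y with hP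
  have hPe : P = ∑ z ∈ Θ, (F.β μ z b - c z) • Ev μ z := by
    rw [hP, emb_XS, hyΘ, ← Finset.sum_sub_distrib]
    refine Finset.sum_congr rfl fun z _ => ?_
    rw [sub_smul]
  have hort : ⟪P, F.R μ Θ b⟫_ℂ = 0 := by
    rw [hPe, sum_inner]
    refine Finset.sum_eq_zero fun z hz => ?_
    rw [inner_smul_left, inner_Ev_R, if_pos hz, mul_zero]
  have hsum : F.pc μ b - y = P + F.R μ Θ b := by
    rw [hP, R]; abel
  have hpyth : ‖F.pc μ b - y‖ * ‖F.pc μ b - y‖ = ‖P‖ * ‖P‖ + ‖F.R μ Θ b‖ * ‖F.R μ Θ b‖ := by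
    rw [hsum]
    exact norm_add_sq_eq_norm_sq_add_norm_sq_of_inner_eq_zero _ _ hort
  have hd : ‖F.pc μ b - y‖ < ε := by rwa [← dist_eq_norm]
  have h2 : ‖F.R μ Θ b‖ ≤ ‖F.pc μ b - y‖ := by
    nlinarith [norm_nonneg P, norm_nonneg (F.R μ Θ b), norm_nonneg (F.pc μ b - y)]
  linarith

lemma exists_approx {ε : ℝ} (hε : 0 < ε) :
    ∃ Θ₀ : Finset Circle, ∀ Θ, Θ₀ ⊆ Θ → ∀ b, ‖F.R μ Θ b‖ ≤ ε := by
  classical
  choose Θ₀ hΘ₀ using fun b : ℤ => F.exists_approx_one μ b hε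
  refine ⟨(Finset.range F.p).biUnion fun r => Θ₀ r, fun Θ hΘ b => ?_⟩
  have hp : (F.p : ℤ) ≠ 0 := by have := F.hp; omega
  have h1 := norm_R_add_mul μ F Θ (b % F.p) (b / F.p)
  rw [mul_comm, Int.emod_add_mul_ediv] at h1
  rw [h1]
  have h2 : 0 ≤ b % F.p := Int.emod_nonneg _ hp
  have h3 : b % F.p < F.p := Int.emod_lt_of_pos _ (by have := F.hp; omega)
  have h4 : ((b % F.p).toNat : ℤ) = b % F.p := Int.toNat_of_nonneg h2
  rw [← h4]
  refine hΘ₀ _ Θ (subset_trans ?_ hΘ)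
  exact Finset.subset_biUnion_of_mem (fun r : ℕ => Θ₀ r) (Finset.mem_range.2 (by omega))

/-- The mean square bound for diagonals. -/
lemma diag_bound (Δ : Finset Circle) {B : ℝ} (hB : ∀ x, ∑ z ∈ Δ, ‖F.β μ z x‖ ^ 2 ≤ B) :
    μ.1 (fun x => ‖∑ z ∈ Δ, F.γ μ z x‖ ^ 2) ≤ F.q * B := by
  classical
  set a : Circle → ℝ := fun z => μ.1 (fun x => ‖F.γ μ z x‖ ^ 2) with ha
  have hab : ∀ z, Bdd (fun x => ‖F.γ μ z x‖ ^ 2) := fun z => (F.bdd_γ μ z).norm.pow 2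
  have ha0 : ∀ z, 0 ≤ a z := fun z => μ.2.nonneg _ (hab z) fun x => by positivity
  have hbb : ∀ z w, Bdd (fun x => conj (F.γ μ z x) * F.γ μ w x) := fun z w =>
    (F.bdd_γ μ z).conj.mul (F.bdd_γ μ w)
  have h1 : (fun x => ((‖∑ z ∈ Δ, F.γ μ z x‖ ^ 2 : ℝ) : ℂ)) =
      fun x => ∑ z ∈ Δ, ∑ w ∈ Δ, conj (F.γ μ z x) * F.γ μ w x := by
    ext x
    rw [← normSq_eq_norm_sq, ← mul_conj, mul_comm, map_sum, Finset.sum_mul_sum]
  have h2 : μ.1 (fun x => ‖∑ z ∈ Δ, F.γ μ z x‖ ^ 2) =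
      ∑ z ∈ Δ, ∑ w ∈ Δ, (cm μ.1 (fun x => conj (F.γ μ z x) * F.γ μ w x)).re := by
    have h3 := cm_ofReal μ.2 (fun x => ‖∑ z ∈ Δ, F.γ μ z x‖ ^ 2)
    rw [h1, cm_sum μ.2 _ fun z _ => Bdd.sum _ fun w _ => hbb z w] at h3
    have h4 := congrArg Complex.re h3
    rw [ofReal_re, re_sum] at h4
    rw [← h4]
    refine Finset.sum_congr rfl fun z _ => ?_
    rw [cm_sum μ.2 _ fun w _ => hbb z w, re_sum]
  have h5 : ∀ z w, (cm μ.1 (fun x => conj (F.γ μ z x) * F.γ μ w x)).re ≤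
      (if w ^ F.q = z ^ F.q then 1 else 0) * (a z / 2 + a w / 2) := by
    intro z w
    split_ifs with hzw
    · rw [one_mul, cm_re, ha]
      simp only
      have h6 : μ.1 (fun x => ‖F.γ μ z x‖ ^ 2) / 2 + μ.1 (fun x => ‖F.γ μ w x‖ ^ 2) / 2 =
          μ.1 (fun x => (1 / 2) * ‖F.γ μ z x‖ ^ 2 + (1 / 2) * ‖F.γ μ w x‖ ^ 2) := by
        rw [μ.2.add _ _ ((Bdd.const _).mul (hab z)) ((Bdd.const _).mul (hab w)),
          μ.2.smul _ _ (hab z), μ.2.smul _ _ (hab w)]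
        ring
      rw [h6]
      refine μ.2.mono (hbb z w).re (((Bdd.const _).mul (hab z)).add ((Bdd.const _).mul (hab w)))
        fun x => ?_
      refine (re_le_norm _).trans ?_
      rw [norm_mul, RCLike.norm_conj]
      nlinarith [sq_nonneg (‖F.γ μ z x‖ - ‖F.γ μ w x‖)]
    · rw [zero_mul]
      have h7 : cm μ.1 (fun x => conj (F.γ μ z x) * F.γ μ w x) = 0 := by
        refine cm_eq_zero_of_quasi μ.2 (hbb z w) (p := F.p)
          (u := ch ((z ^ F.q)⁻¹ * w ^ F.q) 1) ?_ fun x => ?_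
        · intro h8
          apply hzw
          have h9 : (z ^ F.q)⁻¹ * w ^ F.q = 1 := ch_inj (by rw [h8, ch_one])
          exact (inv_mul_eq_one.1 h9).symm
        · rw [γ_add, γ_add, ch_mul, ch_inv, map_mul]
          ring
      rw [h7, zero_re]
  rw [h2]
  have h10 : ∀ z ∈ Δ, ∑ w ∈ Δ, (if w ^ F.q = z ^ F.q then (1:ℝ) else 0) ≤ F.q := by
    intro z _
    rw [← Finset.sum_filter, Finset.sum_const, nsmul_eq_mul, mul_one]
    exact_mod_cast card_le_of_pow_eq F.hq _ (z ^ F.q) fun w hw => (Finset.mem_filter.1 hw).2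
  have h11 : ∑ z ∈ Δ, ∑ w ∈ Δ, (if w ^ F.q = z ^ F.q then (1:ℝ) else 0) * (a z / 2 + a w / 2) =
      ∑ z ∈ Δ, (∑ w ∈ Δ, (if w ^ F.q = z ^ F.q then (1:ℝ) else 0)) * a z := by
    have h12 : ∑ z ∈ Δ, ∑ w ∈ Δ, (if w ^ F.q = z ^ F.q then (1:ℝ) else 0) * (a w / 2) =
        ∑ z ∈ Δ, ∑ w ∈ Δ, (if w ^ F.q = z ^ F.q then (1:ℝ) else 0) * (a z / 2) := by
      rw [Finset.sum_comm]
      refine Finset.sum_congr rfl fun z _ => Finset.sum_congr rfl fun w _ => ?_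
      simp only [eq_comm]
    simp only [mul_add, Finset.sum_add_distrib]
    rw [h12, ← Finset.sum_add_distrib]
    refine Finset.sum_congr rfl fun z _ => ?_
    rw [← Finset.sum_add_distrib, Finset.sum_mul]
    refine Finset.sum_congr rfl fun w _ => ?_
    ring
  calc ∑ z ∈ Δ, ∑ w ∈ Δ, (cm μ.1 (fun x => conj (F.γ μ z x) * F.γ μ w x)).re
      ≤ ∑ z ∈ Δ, ∑ w ∈ Δ, (if w ^ F.q = z ^ F.q then (1:ℝ) else 0) * (a z / 2 + a w / 2) :=
        Finset.sum_le_sum fun z _ => Finset.sum_le_sum fun w _ => h5 z w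
    _ = ∑ z ∈ Δ, (∑ w ∈ Δ, (if w ^ F.q = z ^ F.q then (1:ℝ) else 0)) * a z := h11
    _ ≤ ∑ z ∈ Δ, F.q * a z :=
        Finset.sum_le_sum fun z hz => mul_le_mul_of_nonneg_right (h10 z hz) (ha0 z)
    _ = F.q * ∑ z ∈ Δ, a z := by rw [Finset.mul_sum]
    _ ≤ F.q * B := by
        refine mul_le_mul_of_nonneg_left ?_ (by positivity)
        rw [ha, ← μ.2.sum Δ fun z _ => hab z]
        refine μ.2.le_of_le (Bdd.sum _ fun z _ => hab z) fun x => ?_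
        simp only [norm_γ]
        exact hB x

lemma J_sub_bound {Θ Θ' : Finset Circle} (h : Θ ⊆ Θ') {ε : ℝ} (hε : ∀ b, ‖F.R μ Θ b‖ ≤ ε) :
    μ.1 (fun x => ‖F.J μ Θ' x - F.J μ Θ x‖ ^ 2) ≤ F.q * ε ^ 2 := by
  classical
  have h1 : (fun x => ‖F.J μ Θ' x - F.J μ Θ x‖ ^ 2) =
      fun x => ‖∑ z ∈ Θ' \ Θ, F.γ μ z x‖ ^ 2 := by
    ext x
    rw [J, J, ← Finset.sum_sdiff h, add_sub_cancel_right]
  rw [h1]
  refine F.diag_bound μ _ fun x => ?_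
  refine (F.sum_β_le μ Θ _ Finset.disjoint_sdiff x).trans ?_
  have := hε x
  gcongr

lemma J_bound (Θ : Finset Circle) : μ.1 (fun x => ‖F.J μ Θ x‖ ^ 2) ≤ F.q := by
  have := F.diag_bound μ Θ (B := 1) (F.sum_β_le_one μ Θ)
  rwa [mul_one] at this

end Fam

end Pool.Agent.Helper4.Sumset
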