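import Mathlib
import Pool.Agent.Lib.Helper4.Sumset.Approx

/-!
# The lower bound for correlations against a kernel
-/

namespace Pool.Agent.Helper4.Sumset

open Set Filter Topology Complex
open scoped InnerProductSpace ComplexConjugate

variable (μ : IMean) (F : Fam)

namespace Fam

/-- The error term. -/
noncomputable def err (κ g : ℤ → ℝ) (Θ : Finset Circle) (b : ℤ) : ℝ :=
  ‖⟪T μ (fun n => (κ (n - b) : ℂ)) (emb μ (fun n => (g n : ℂ))), F.R μ Θ b⟫_ℂ‖ +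
  ‖⟪T μ (fun n => (κ (n - b) : ℂ)) (emb μ (fun n => (g n : ℂ))), F.w μ b⟫_ℂ‖

lemma norm_R_le (Θ : Finset Circle) (b : ℤ) : ‖F.R μ Θ b‖ ≤ 1 + Θ.card := by
  rw [R]
  refine (norm_sub_le _ _).trans (add_le_add ?_ ?_)
  · exact ((Kc μ).norm_starProjection_apply_le _).trans (F.norm_vx μ b)
  · rw [emb_XS]
    refine (norm_sum_le _ _).trans ?_
    have : ∀ z ∈ Θ, ‖F.β μ z b • Ev μ z‖ ≤ 1 := by
      intro z _
      rw [norm_smul, norm_Ev, mul_one]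
      exact F.norm_β μ z b
    refine (Finset.sum_le_sum this).trans ?_
    simp

lemma norm_T_ker_le {κ : ℤ → ℝ} {K : ℝ} (hK0 : 0 ≤ K) (hK : ∀ n, ‖κ n‖ ≤ K) (b : ℤ) (x : HH μ) :
    ‖T μ (fun n => (κ (n - b) : ℂ)) x‖ ≤ K * ‖x‖ :=
  norm_T_le μ hK0 (fun n => by rw [norm_real]; exact hK _) x

lemma bdd_inner_ker {κ : ℤ → ℝ} (hκ : Bdd κ) {x : ℤ → HH μ} {C : ℝ} (hC : ∀ b, ‖x b‖ ≤ C)
    (G : HH μ) : Bdd (fun b => ‖⟪T μ (fun n => (κ (n - b) : ℂ)) G, x b⟫_ℂ‖) := by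
  obtain ⟨K, hK0, hK⟩ := hκ.exists_pos
  refine ⟨(K * ‖G‖) * C, fun b => ?_⟩
  rw [norm_norm]
  refine (norm_inner_le_norm _ _).trans ?_
  exact mul_le_mul (norm_T_ker_le μ hK0.le hK b G) (hC b) (norm_nonneg _) (by positivity)

lemma bdd_err {κ : ℤ → ℝ} (hκ : Bdd κ) (g : ℤ → ℝ) (Θ : Finset Circle) :
    Bdd (F.err μ κ g Θ) :=
  (bdd_inner_ker μ hκ (F.norm_R_le μ Θ) _).add (bdd_inner_ker μ hκ (F.norm_w μ) _)

lemma inner_ker_real {κ : ℤ → ℝ} (hκ : Bdd κ) {g h : ℤ → ℝ} (hg : Bdd g) (hh : Bdd h) (b : ℤ) :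
    ⟪T μ (fun n => (κ (n - b) : ℂ)) (emb μ (fun n => (g n : ℂ))), emb μ (fun n => (h n : ℂ))⟫_ℂ =
      (μ.1 (fun n => κ (n - b) * g n * h n) : ℂ) := by
  have hκb : Bdd (fun n => κ (n - b)) := hκ.comp _
  rw [T_emb μ hκb.ofReal hg.ofReal]
  have := inner_emb_real μ (hκb.mul hg) hh
  simpa using this

/-- The pointwise lower bound. -/
lemma lower {κ : ℤ → ℝ} (hκ : IsKer μ κ) {Θ : Finset Circle} {η : ℝ}
    (hη : ∀ z ∈ Θ, μ.1 (fun n => κ n * ‖1 - ch z n‖) ≤ η) {g : ℤ → ℝ} (g0 : ∀ n, 0 ≤ g n)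
    (g1 : ∀ n, g n ≤ 1) (b : ℤ) :
    (F.J μ Θ b).re * μ.1 (fun n => κ (n - b) * g n) - Θ.card * η - F.err μ κ g Θ b ≤
      μ.1 (fun n => κ (n - b) * g n * F.X b n) := by
  have hg : Bdd g := ⟨1, fun n => by rw [Real.norm_eq_abs, abs_of_nonneg (g0 n)]; exact g1 n⟩
  have hκb : Bdd (fun n => κ (n - b)) := hκ.pt.bdd.comp _
  set TG := T μ (fun n => (κ (n - b) : ℂ)) (emb μ (fun n => (g n : ℂ))) with hTG
  have h1 : (μ.1 (fun n => κ (n - b) * g n * F.X b n) : ℂ) = ⟪TG, F.vx μ b⟫_ℂ := by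
    rw [hTG, vx, inner_ker_real μ hκ.pt.bdd hg (F.bdd b)]
  have h2 := congrArg Complex.re h1
  rw [ofReal_re, vx_eq' μ F Θ b, inner_add_right, inner_add_right, add_re, add_re] at h2
  have h3 : -‖⟪TG, F.R μ Θ b⟫_ℂ‖ ≤ (⟪TG, F.R μ Θ b⟫_ℂ).re :=
    neg_le_of_abs_le (abs_re_le_norm _)
  have h4 : -‖⟪TG, F.w μ b⟫_ℂ‖ ≤ (⟪TG, F.w μ b⟫_ℂ).re :=
    neg_le_of_abs_le (abs_re_le_norm _)
  have h5 : (⟪TG, emb μ (F.XS μ Θ b)⟫_ℂ).re =
      μ.1 (fun n => κ (n - b) * g n * (F.XS μ Θ b n).re) := by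
    rw [hTG, T_emb μ hκb.ofReal hg.ofReal,
      inner_emb μ (hκb.ofReal.mul hg.ofReal) (F.bdd_XS μ Θ b), cm_re]
    refine congrArg μ.1 (funext fun n => ?_)
    rw [← ofReal_mul, conj_ofReal, re_ofReal_mul]
  have hbz : ∀ z, Bdd (fun n => ‖1 - ch z n‖) := fun z => ((Bdd.const (1:ℂ)).sub (bdd_ch z)).norm
  have hbz' : ∀ z, Bdd (fun n => κ (n - b) * ‖1 - ch z (n - b)‖) := fun z =>
    hκb.mul ((hbz z).comp _)
  have h6 : ∀ n, κ (n - b) * g n * (F.J μ Θ b).re - ∑ z ∈ Θ, κ (n - b) * ‖1 - ch z (n - b)‖ ≤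
      κ (n - b) * g n * (F.XS μ Θ b n).re := by
    intro n
    have h7 : ‖F.XS μ Θ b b - F.XS μ Θ b n‖ ≤ ∑ z ∈ Θ, ‖1 - ch z (n - b)‖ := by
      rw [XS, XS, ← Finset.sum_sub_distrib]
      refine (norm_sum_le _ _).trans (Finset.sum_le_sum fun z _ => ?_)
      have h8 : F.β μ z b * ch z b - F.β μ z b * ch z n =
          F.β μ z b * ch z b * (1 - ch z (n - b)) := by
        have : ch z n = ch z b * ch z (n - b) := by
          rw [← ch_add]; congr 1; ring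
        rw [this]; ring
      rw [h8, norm_mul, norm_mul, norm_ch, mul_one]
      have := F.norm_β μ z b
      calc _ ≤ 1 * ‖1 - ch z (n - b)‖ := by gcongr
        _ = _ := one_mul _
    have h9 : (F.J μ Θ b).re - (F.XS μ Θ b n).re ≤ ∑ z ∈ Θ, ‖1 - ch z (n - b)‖ := by
      rw [J_eq, ← sub_re]
      exact (re_le_norm _).trans h7
    have h10 : 0 ≤ κ (n - b) := hκ.nonneg _
    have h11 : 0 ≤ ∑ z ∈ Θ, ‖1 - ch z (n - b)‖ := Finset.sum_nonneg fun z _ => norm_nonneg _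
    rw [← Finset.mul_sum]
    have h12 : κ (n - b) * g n * ((F.J μ Θ b).re - (F.XS μ Θ b n).re) ≤
        κ (n - b) * ∑ z ∈ Θ, ‖1 - ch z (n - b)‖ := by
      calc κ (n - b) * g n * ((F.J μ Θ b).re - (F.XS μ Θ b n).re)
          ≤ κ (n - b) * g n * ∑ z ∈ Θ, ‖1 - ch z (n - b)‖ :=
            mul_le_mul_of_nonneg_left h9 (mul_nonneg h10 (g0 n))
        _ ≤ κ (n - b) * 1 * ∑ z ∈ Θ, ‖1 - ch z (n - b)‖ := by
            have := g1 n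
            gcongr
        _ = _ := by rw [mul_one]
    linarith
  have hbJ : Bdd (fun n => κ (n - b) * g n * (F.J μ Θ b).re) := (hκb.mul hg).mul (Bdd.const _)
  have hbS : Bdd (fun n => ∑ z ∈ Θ, κ (n - b) * ‖1 - ch z (n - b)‖) :=
    Bdd.sum _ fun z _ => hbz' z
  have h13 := μ.2.mono (hbJ.sub hbS) ((hκb.mul hg).mul (F.bdd_XS μ Θ b).re) h6
  rw [μ.2.sub hbJ hbS, μ.2.sum _ fun z _ => hbz' z] at h13
  have h14 : μ.1 (fun n => κ (n - b) * g n * (F.J μ Θ b).re) =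
      (F.J μ Θ b).re * μ.1 (fun n => κ (n - b) * g n) := by
    rw [← μ.2.smul _ _ (hκb.mul hg)]
    refine congrArg μ.1 (funext fun n => ?_)
    ring
  have h15 : ∑ z ∈ Θ, μ.1 (fun n => κ (n - b) * ‖1 - ch z (n - b)‖) ≤ Θ.card * η := by
    rw [← nsmul_eq_mul]
    refine Finset.sum_le_card_nsmul _ _ _ fun z hz => ?_
    have h16 := μ.2.shift_int (f := fun n => κ n * ‖1 - ch z n‖) (hκ.pt.bdd.mul (hbz z)) (-b)
    simp only [← sub_eq_add_neg] at h16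
    rw [h16]
    exact hη z hz
  rw [h14] at h13
  rw [h5] at h2
  have h17 : F.err μ κ g Θ b = ‖⟪TG, F.R μ Θ b⟫_ℂ‖ + ‖⟪TG, F.w μ b⟫_ℂ‖ := rfl
  rw [h17, h2]
  linarith

/-- The mean of the error term is small. -/
lemma mean_err_le (hμ : IsErg μ) {κ : ℤ → ℝ} (hκ : IsKer μ κ) {Θ : Finset Circle} {ρ : ℝ}
    (hρ0 : 0 < ρ) (hρ : ∀ b, ‖F.R μ Θ b‖ ≤ ρ) {g : ℤ → ℝ} (g0 : ∀ n, 0 ≤ g n)
    (g1 : ∀ n, g n ≤ 1) : μ.1 (F.err μ κ g Θ) ≤ (1 + F.q) / 2 * ρ := by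
  have hg : Bdd g := ⟨1, fun n => by rw [Real.norm_eq_abs, abs_of_nonneg (g0 n)]; exact g1 n⟩
  set G := emb μ (fun n => (g n : ℂ)) with hG
  have hb1 := bdd_inner_ker μ hκ.pt.bdd (F.norm_R_le μ Θ) G
  have hb2 := bdd_inner_ker μ hκ.pt.bdd (F.norm_w μ) G
  have h1 : μ.1 (F.err μ κ g Θ) = μ.1 (fun b => ‖⟪T μ (fun n => (κ (n - b) : ℂ)) G, F.R μ Θ b⟫_ℂ‖) +
      μ.1 (fun b => ‖⟪T μ (fun n => (κ (n - b) : ℂ)) G, F.w μ b⟫_ℂ‖) := by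
    rw [← μ.2.add _ _ hb1 hb2]
    rfl
  have h2 := hκ.weak_mixing (F.norm_w μ) (F.w_wm μ hμ) G
  -- the remainder part
  have hκb : ∀ b, Bdd (fun n => κ (n - b)) := fun b => hκ.pt.bdd.comp _
  set A : ℤ → ℝ := fun b => (⟪G, T μ (fun n => (κ (n - b) : ℂ)) G⟫_ℂ).re with hA
  set B : ℤ → ℝ := fun b => (⟪F.R μ Θ b, T μ (fun n => (κ (n - b) : ℂ)) (F.R μ Θ b)⟫_ℂ).re with hB
  have hA0 : ∀ b, 0 ≤ A b := fun b => T_nonneg μ (hκb b) (fun n => hκ.nonneg _) G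
  have hB0 : ∀ b, 0 ≤ B b := fun b => T_nonneg μ (hκb b) (fun n => hκ.nonneg _) _
  have hAe : ∀ b, A b = μ.1 (fun n => κ (n - b) * (g n ^ 2)) := by
    intro b
    rw [hA]
    simp only
    rw [hG, ← inner_conj_symm, conj_re, inner_ker_real μ hκ.pt.bdd hg hg, ofReal_re]
    refine congrArg μ.1 (funext fun n => ?_)
    ring
  have hAb : Bdd A := by
    have : A = fun b => μ.1 (fun n => κ (n - b) * (g n ^ 2)) := funext hAe
    rw [this]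
    exact bdd_conv μ hκ.pt.bdd (hg.pow 2)
  have hBb : Bdd B := by
    obtain ⟨K, hK0, hK⟩ := hκ.pt.bdd.exists_pos
    refine ⟨ρ * (K * ρ), fun b => ?_⟩
    rw [Real.norm_eq_abs]
    refine (abs_re_le_norm _).trans ((norm_inner_le_norm _ _).trans ?_)
    refine mul_le_mul (hρ b) ((norm_T_ker_le μ hK0.le hK b _).trans ?_) (norm_nonneg _) hρ0.le
    have := hρ b
    gcongr
  have h3 : ∀ b, ‖⟪T μ (fun n => (κ (n - b) : ℂ)) G, F.R μ Θ b⟫_ℂ‖ ≤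
      ρ / 2 * A b + (2 * ρ)⁻¹ * B b := by
    intro b
    have h4 : ⟪T μ (fun n => (κ (n - b) : ℂ)) G, F.R μ Θ b⟫_ℂ =
        ⟪G, T μ (fun n => (κ (n - b) : ℂ)) (F.R μ Θ b)⟫_ℂ := by
      rw [inner_T_left μ (hκb b).ofReal]
      simp only [conj_ofReal]
    have h5 := T_cauchy_schwarz μ (hκb b) (fun n => hκ.nonneg _) G (F.R μ Θ b)
    rw [← h4] at h5
    have h6 : 0 ≤ ρ / 2 * A b + (2 * ρ)⁻¹ * B b :=
      add_nonneg (mul_nonneg (by positivity) (hA0 b)) (mul_nonneg (by positivity) (hB0 b))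
    refine (sq_le_sq₀ (norm_nonneg _) h6).1 (h5.trans ?_)
    change A b * B b ≤ _
    have h7 : (ρ / 2 * A b + (2 * ρ)⁻¹ * B b) ^ 2 - A b * B b =
        (ρ / 2 * A b - (2 * ρ)⁻¹ * B b) ^ 2 := by
      field_simp
      ring
    nlinarith [sq_nonneg (ρ / 2 * A b - (2 * ρ)⁻¹ * B b)]
  have h8 := μ.2.mono hb1 (((Bdd.const _).mul hAb).add ((Bdd.const _).mul hBb)) h3
  rw [μ.2.add _ _ ((Bdd.const _).mul hAb) ((Bdd.const _).mul hBb), μ.2.smul _ _ hAb,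
    μ.2.smul _ _ hBb] at h8
  have h9 : μ.1 A ≤ 1 := by
    have : A = fun b => μ.1 (fun n => κ (n - b) * (g n ^ 2)) := funext hAe
    rw [this, hκ.fubini (hg.pow 2)]
    refine μ.2.le_of_le (hg.pow 2) fun n => ?_
    have := g0 n
    have := g1 n
    nlinarith
  have h10 : μ.1 B ≤ F.q * ρ ^ 2 := hκ.tail F.hp hρ (F.U_R μ Θ)
  have h11 : ρ / 2 * μ.1 A ≤ ρ / 2 * 1 := mul_le_mul_of_nonneg_left h9 (by positivity)
  have h12 : (2 * ρ)⁻¹ * μ.1 B ≤ (2 * ρ)⁻¹ * (F.q * ρ ^ 2) :=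
    mul_le_mul_of_nonneg_left h10 (by positivity)
  have h13 : (2 * ρ)⁻¹ * (F.q * ρ ^ 2) = F.q / 2 * ρ := by
    field_simp
  rw [h1]
  linarith

end Fam

end Pool.Agent.Helper4.Sumset
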