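import Mathlib
import Pool.Agent.Lib.Helper4.Sumset.Lower

/-!
# The inductive step
-/

namespace Pool.Agent.Helper4.Sumset

open Set Filter Topology Complex
open scoped InnerProductSpace ComplexConjugate

variable (μ : IMean) (F G : Fam)

/-- Indicator functions. -/
noncomputable def ind (D : Set ℤ) (n : ℤ) : ℝ := D.indicator (fun _ => 1) n

lemma ind_nonneg (D : Set ℤ) (n : ℤ) : 0 ≤ ind D n := by
  unfold ind; exact Set.indicator_nonneg (fun _ _ => zero_le_one) n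

lemma ind_le_one (D : Set ℤ) (n : ℤ) : ind D n ≤ 1 := by
  unfold ind
  by_cases h : n ∈ D
  · rw [Set.indicator_of_mem h]
  · rw [Set.indicator_of_notMem h]; exact zero_le_one

lemma ind_of_mem {D : Set ℤ} {n : ℤ} (h : n ∈ D) : ind D n = 1 := by
  unfold ind; rw [Set.indicator_of_mem h]

lemma ind_of_notMem {D : Set ℤ} {n : ℤ} (h : n ∉ D) : ind D n = 0 := by
  unfold ind; rw [Set.indicator_of_notMem h]

lemma bdd_ind (D : Set ℤ) : Bdd (ind D) := ⟨1, fun n => by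
  rw [Real.norm_eq_abs, abs_of_nonneg (ind_nonneg D n)]; exact ind_le_one D n⟩

/-- Clipping to the unit interval. -/
noncomputable def clip (y : ℝ) : ℝ := max 0 (min 1 y)

lemma clip_nonneg (y : ℝ) : 0 ≤ clip y := le_max_left _ _

lemma clip_le_one (y : ℝ) : clip y ≤ 1 := max_le zero_le_one (min_le_left _ _)

lemma clip_lip (x y : ℝ) : |clip x - clip y| ≤ |x - y| := by
  unfold clip
  have h1 : |max 0 (min 1 x) - max 0 (min 1 y)| ≤ |min 1 x - min 1 y| := by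
    have := abs_max_sub_max_le_abs (min 1 x) (min 1 y) 0
    rwa [max_comm _ (0:ℝ), max_comm _ (0:ℝ)] at this
  have h2 : |min 1 x - min 1 y| ≤ |x - y| := by
    have := abs_min_sub_min_le_max 1 x 1 y
    simpa using this
  exact h1.trans h2

lemma clip_eq_zero {y : ℝ} (h : y ≤ 0) : clip y = 0 := by
  unfold clip
  rw [max_eq_left]
  exact (min_le_right _ _).trans h

/-- The weight function. -/
noncomputable def wt (δ : ℝ) (Θ : Finset Circle) (x : ℤ) : ℝ :=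
  clip ((F.J μ Θ x).re + (G.J μ Θ x).re - (1 + δ))

lemma wt_nonneg (δ : ℝ) (Θ : Finset Circle) (x : ℤ) : 0 ≤ wt μ F G δ Θ x := clip_nonneg _

lemma wt_le_one (δ : ℝ) (Θ : Finset Circle) (x : ℤ) : wt μ F G δ Θ x ≤ 1 := clip_le_one _

lemma bdd_wt (δ : ℝ) (Θ : Finset Circle) : Bdd (wt μ F G δ Θ) := ⟨1, fun n => by
  rw [Real.norm_eq_abs, abs_of_nonneg (wt_nonneg μ F G δ Θ n)]; exact wt_le_one μ F G δ Θ n⟩

/-- Positivity of a set with respect to the limit weight. -/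
def Pos (δ : ℝ) (D : Set ℤ) : Prop :=
  ∃ c > 0, ∃ Θ₀ : Finset Circle, ∀ Θ, Θ₀ ⊆ Θ → c ≤ μ.1 (fun n => ind D n * wt μ F G δ Θ n)

lemma mean_norm_le_of_sq {f : ℤ → ℂ} (hf : Bdd f) {C : ℝ} (hC : 0 ≤ C)
    (h : μ.1 (fun n => ‖f n‖ ^ 2) ≤ C ^ 2) : μ.1 (fun n => ‖f n‖) ≤ C := by
  have h1 := μ.2.cauchy_schwarz hf.norm (Bdd.const (1:ℝ))
  simp only [mul_one, one_pow] at h1
  rw [μ.2.one, mul_one] at h1
  exact abs_le_of_sq_le_sq' (h1.trans h) hC |>.2

lemma wt_cauchy_aux (δ : ℝ) {Θ Θ' : Finset Circle} (h : Θ ⊆ Θ') {ε : ℝ} (hε0 : 0 ≤ ε)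
    (hF : ∀ b, ‖F.R μ Θ b‖ ≤ ε) (hG : ∀ b, ‖G.R μ Θ b‖ ≤ ε) :
    μ.1 (fun n => |wt μ F G δ Θ' n - wt μ F G δ Θ n|) ≤ (F.q + G.q) * ε := by
  have key : ∀ F : Fam, (∀ b, ‖F.R μ Θ b‖ ≤ ε) →
      μ.1 (fun x => ‖F.J μ Θ' x - F.J μ Θ x‖) ≤ F.q * ε := by
    intro F hF
    refine mean_norm_le_of_sq μ ((F.bdd_J μ Θ').sub (F.bdd_J μ Θ)) (by positivity) ?_
    refine (F.J_sub_bound μ h hF).trans ?_
    rw [mul_pow]
    have hq : (1:ℝ) ≤ F.q := by exact_mod_cast F.hq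
    have : (F.q : ℝ) ≤ (F.q : ℝ) ^ 2 := by nlinarith
    gcongr
  have hb1 := ((F.bdd_J μ Θ').sub (F.bdd_J μ Θ)).norm
  have hb2 := ((G.bdd_J μ Θ').sub (G.bdd_J μ Θ)).norm
  have h1 : μ.1 (fun n => |wt μ F G δ Θ' n - wt μ F G δ Θ n|) ≤
      μ.1 (fun x => ‖F.J μ Θ' x - F.J μ Θ x‖ + ‖G.J μ Θ' x - G.J μ Θ x‖) := by
    refine μ.2.mono ((bdd_wt μ F G δ Θ').sub (bdd_wt μ F G δ Θ)).norm (hb1.add hb2) fun n => ?_
    refine (clip_lip _ _).trans ?_
    have h2 : (F.J μ Θ' n).re + (G.J μ Θ' n).re - (1 + δ) -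
        ((F.J μ Θ n).re + (G.J μ Θ n).re - (1 + δ)) =
        (F.J μ Θ' n - F.J μ Θ n).re + (G.J μ Θ' n - G.J μ Θ n).re := by
      rw [sub_re, sub_re]; ring
    rw [h2]
    exact (abs_add_le _ _).trans (add_le_add (abs_re_le_norm _) (abs_re_le_norm _))
  refine h1.trans ?_
  rw [μ.2.add _ _ hb1 hb2, add_mul]
  exact add_le_add (key F hF) (key G hG)

lemma wt_cauchy (δ : ℝ) {ε : ℝ} (hε : 0 < ε) : ∃ Θ₀ : Finset Circle, ∀ Θ Θ', Θ₀ ⊆ Θ → Θ₀ ⊆ Θ' →
    μ.1 (fun n => |wt μ F G δ Θ n - wt μ F G δ Θ' n|) ≤ ε := by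
  classical
  have hq : (0:ℝ) < F.q + G.q := by
    have := F.hq
    have := G.hq
    positivity
  set ε' : ℝ := ε / (2 * (F.q + G.q)) with hε'
  have hε'0 : 0 < ε' := by positivity
  obtain ⟨Θ₁, h₁⟩ := F.exists_approx μ hε'0
  obtain ⟨Θ₂, h₂⟩ := G.exists_approx μ hε'0
  refine ⟨Θ₁ ∪ Θ₂, fun Θ Θ' hΘ hΘ' => ?_⟩
  have hkey : ∀ Θ, Θ₁ ∪ Θ₂ ⊆ Θ → ∀ Θ', Θ ⊆ Θ' →
      μ.1 (fun n => |wt μ F G δ Θ' n - wt μ F G δ Θ n|) ≤ ε / 2 := by
    intro Θ hΘ Θ' hsub
    refine (wt_cauchy_aux μ F G δ hsub hε'0.le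
      (h₁ Θ (Finset.union_subset_left hΘ)) (h₂ Θ (Finset.union_subset_right hΘ))).trans ?_
    rw [hε']
    apply le_of_eq
    field_simp
  have h3 := hkey Θ hΘ (Θ ∪ Θ') Finset.subset_union_left
  have h4 := hkey Θ' hΘ' (Θ ∪ Θ') Finset.subset_union_right
  have hb1 := ((bdd_wt μ F G δ (Θ ∪ Θ')).sub (bdd_wt μ F G δ Θ)).norm
  have hb2 := ((bdd_wt μ F G δ (Θ ∪ Θ')).sub (bdd_wt μ F G δ Θ')).norm
  have h5 : μ.1 (fun n => |wt μ F G δ Θ n - wt μ F G δ Θ' n|) ≤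
      μ.1 (fun n => |wt μ F G δ (Θ ∪ Θ') n - wt μ F G δ Θ n| +
        |wt μ F G δ (Θ ∪ Θ') n - wt μ F G δ Θ' n|) := by
    refine μ.2.mono ((bdd_wt μ F G δ Θ).sub (bdd_wt μ F G δ Θ')).norm (hb1.add hb2) fun n => ?_
    rw [abs_sub_comm (wt μ F G δ (Θ ∪ Θ') n) (wt μ F G δ Θ n)]
    exact abs_sub_le _ _ _
  have h6 := μ.2.add _ _ hb1 hb2
  simp only [Real.norm_eq_abs] at h6
  rw [h6] at h5
  linarith

/-- The set of good continuations. -/
def Eset (b : ℤ) : Set ℤ := {n | F.X b n = 1 ∧ G.X b n = 1}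

variable {μ F G}

/-- If a set is not positive then its weighted mean is uniformly small. -/
lemma not_pos_small {δ : ℝ} {ε : ℝ} (hε : 0 < ε) : ∃ Θ₀ : Finset Circle, ∀ D : Set ℤ,
    ¬ Pos μ F G δ D → ∀ Θ, Θ₀ ⊆ Θ → μ.1 (fun n => ind D n * wt μ F G δ Θ n) ≤ ε := by
  obtain ⟨Θ₀, h₀⟩ := wt_cauchy μ F G δ (half_pos hε)
  refine ⟨Θ₀, fun D hD Θ hΘ => ?_⟩
  unfold Pos at hD
  push Not at hD
  obtain ⟨Θ', hΘ', hlt⟩ := hD (ε / 2) (half_pos hε) Θ₀
  have h1 := h₀ Θ Θ' hΘ hΘ'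
  have hb1 : Bdd (fun n => ind D n * wt μ F G δ Θ n) := (bdd_ind D).mul (bdd_wt μ F G δ Θ)
  have hb2 : Bdd (fun n => ind D n * wt μ F G δ Θ' n) := (bdd_ind D).mul (bdd_wt μ F G δ Θ')
  have hb3 : Bdd (fun n => |wt μ F G δ Θ n - wt μ F G δ Θ' n|) :=
    ((bdd_wt μ F G δ Θ).sub (bdd_wt μ F G δ Θ')).norm
  have h2 : μ.1 (fun n => ind D n * wt μ F G δ Θ n) ≤
      μ.1 (fun n => ind D n * wt μ F G δ Θ' n + |wt μ F G δ Θ n - wt μ F G δ Θ' n|) := by
    refine μ.2.mono hb1 (hb2.add hb3) fun n => ?_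
    have h3 := ind_nonneg D n
    have h4 := ind_le_one D n
    have h5 := le_abs_self (wt μ F G δ Θ n - wt μ F G δ Θ' n)
    have h6 := abs_nonneg (wt μ F G δ Θ n - wt μ F G δ Θ' n)
    nlinarith
  rw [μ.2.add _ _ hb2 hb3] at h2
  linarith

/-- **The inductive step.** -/
theorem step (hμ : IsErg μ) (hF : ∀ b n, F.X b n = 0 ∨ F.X b n = 1)
    (hG : ∀ b n, G.X b n = 0 ∨ G.X b n = 1) {δ : ℝ} (hδ : 0 < δ) {D : Set ℤ}
    (hD : Pos μ F G δ D) (N₀ : ℤ) : ∃ b ∈ D, N₀ < b ∧ Pos μ F G δ (D ∩ Eset F G b) := by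
  classical
  by_contra H
  push Not at H
  obtain ⟨c₀, hc₀, Θ₀, hΘ₀⟩ := hD
  set D' : Set ℤ := D ∩ Ioi N₀ with hD'
  have hmean : ∀ Θ, μ.1 (fun n => ind D n * wt μ F G δ Θ n) ≤
      μ.1 (fun n => ind D' n * wt μ F G δ Θ n) := by
    intro Θ
    have hb1 : Bdd (fun n => ind D n * wt μ F G δ Θ n) := (bdd_ind D).mul (bdd_wt μ F G δ Θ)
    have hb2 : Bdd (fun n => ind D' n * wt μ F G δ Θ n) := (bdd_ind D').mul (bdd_wt μ F G δ Θ)
    have hb3 : Bdd (fun n : ℤ => if n ≤ N₀ then (1:ℝ) else 0) :=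
      ⟨1, fun n => by dsimp only; split_ifs <;> simp⟩
    have h1 : μ.1 (fun n => ind D n * wt μ F G δ Θ n) ≤
        μ.1 (fun n => ind D' n * wt μ F G δ Θ n + (if n ≤ N₀ then (1:ℝ) else 0)) := by
      refine μ.2.mono hb1 (hb2.add hb3) fun n => ?_
      have h2 := wt_nonneg μ F G δ Θ n
      have h3 := wt_le_one μ F G δ Θ n
      split_ifs with hn
      · have := ind_nonneg D n
        have := ind_le_one D n
        have := ind_nonneg D' n
        nlinarith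
      · by_cases hd : n ∈ D
        · rw [ind_of_mem hd, ind_of_mem (show n ∈ D' from ⟨hd, not_le.1 hn⟩)]
          linarith
        · rw [ind_of_notMem hd]
          have := ind_nonneg D' n
          nlinarith
    rw [μ.2.add _ _ hb2 hb3, μ.2.half_shift, add_zero] at h1
    exact h1
  -- the parameters
  set Q : ℝ := F.q + G.q with hQ
  have hQ0 : 0 ≤ Q := by positivity
  set ε : ℝ := δ * c₀ ^ 2 / (4 * (Q + 4)) with hε
  have hε0 : 0 < ε := by positivity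
  obtain ⟨Θ₁, h₁⟩ := wt_cauchy μ F G δ hε0
  obtain ⟨Θ₂, h₂⟩ := F.exists_approx μ hε0
  obtain ⟨Θ₃, h₃⟩ := G.exists_approx μ hε0
  set Θ : Finset Circle := Θ₀ ∪ Θ₁ ∪ Θ₂ ∪ Θ₃ with hΘ
  have hs0 : Θ₀ ⊆ Θ := fun z hz => by simp [hΘ, hz]
  have hs1 : Θ₁ ⊆ Θ := fun z hz => by simp [hΘ, hz]
  have hs2 : Θ₂ ⊆ Θ := fun z hz => by simp [hΘ, hz]
  have hs3 : Θ₃ ⊆ Θ := fun z hz => by simp [hΘ, hz]
  set η : ℝ := ε / (2 * (Θ.card + 1)) with hη
  have hη0 : 0 < η := by positivity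
  obtain ⟨κ, hκ, hκη⟩ := exists_kernel μ Θ hη0
  obtain ⟨K, hK0, hK⟩ := hκ.pt.bdd.exists_pos
  set ω : ℤ → ℝ := wt μ F G δ Θ with hω
  set g : ℤ → ℝ := fun n => ind D' n * ω n with hg
  have hω0 : ∀ n, 0 ≤ ω n := wt_nonneg μ F G δ Θ
  have hω1 : ∀ n, ω n ≤ 1 := wt_le_one μ F G δ Θ
  have g0 : ∀ n, 0 ≤ g n := fun n => mul_nonneg (ind_nonneg _ _) (hω0 n)
  have g1 : ∀ n, g n ≤ 1 := fun n => mul_le_one₀ (ind_le_one _ _) (hω0 n) (hω1 n)
  have hgb : Bdd g := (bdd_ind D').mul (bdd_wt μ F G δ Θ)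
  have hκb : ∀ b, Bdd (fun n => κ (n - b)) := fun b => hκ.pt.bdd.comp _
  have hκ0 : ∀ n, 0 ≤ κ n := hκ.nonneg
  have hκK : ∀ n, κ n ≤ K := fun n => (le_abs_self _).trans (hK n)
  -- the correlation
  set s : ℤ → ℝ := fun b => μ.1 (fun n => κ (n - b) * g n * ind (Eset F G b) n) with hs
  have hsin : ∀ b, Bdd (fun n => κ (n - b) * g n * ind (Eset F G b) n) := fun b =>
    ((hκb b).mul hgb).mul (bdd_ind _)
  have hs_nonneg : ∀ b, 0 ≤ s b := fun b => μ.2.nonneg _ (hsin b) fun n =>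
    mul_nonneg (mul_nonneg (hκ0 _) (g0 n)) (ind_nonneg _ _)
  have hs_le : ∀ b, s b ≤ K := fun b => μ.2.le_of_le (hsin b) fun n => by
    calc κ (n - b) * g n * ind (Eset F G b) n ≤ K * 1 * 1 := by
          have := hκK (n - b)
          have := g1 n
          have := g0 n
          have := ind_nonneg (Eset F G b) n
          have := ind_le_one (Eset F G b) n
          have := hκ0 (n - b)
          gcongr
      _ = K := by ring
  have hsb : Bdd s := ⟨K, fun b => by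
    rw [Real.norm_eq_abs, abs_of_nonneg (hs_nonneg b)]; exact hs_le b⟩
  -- upper bound
  have hupper : μ.1 (fun b => g b * s b) ≤ ε := by
    refine le_of_forall_pos_le_add fun ε₂ hε₂ => ?_
    obtain ⟨Θ₄, h₄⟩ := not_pos_small (μ := μ) (F := F) (G := G) (δ := δ)
      (div_pos hε₂ hK0 : 0 < ε₂ / K)
    set Θ' : Finset Circle := Θ ∪ Θ₄ with hΘ'
    set ω' : ℤ → ℝ := wt μ F G δ Θ' with hω'
    have hω'b : Bdd ω' := bdd_wt μ F G δ Θ'
    have hdiffb : Bdd (fun n => |ω n - ω' n|) := ((bdd_wt μ F G δ Θ).sub (bdd_wt μ F G δ Θ')).norm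
    have hdiff : μ.1 (fun n => |ω n - ω' n|) ≤ ε :=
      h₁ Θ Θ' hs1 (hs1.trans Finset.subset_union_left)
    have hb : ∀ b, g b * s b ≤ μ.1 (fun n => κ (n - b) * |ω n - ω' n|) + ε₂ := by
      intro b
      have hm0 : 0 ≤ μ.1 (fun n => κ (n - b) * |ω n - ω' n|) :=
        μ.2.nonneg _ ((hκb b).mul hdiffb) fun n => mul_nonneg (hκ0 _) (abs_nonneg _)
      by_cases hbD : b ∈ D'
      · have h5 := h₄ _ (H b hbD.1 hbD.2) Θ' Finset.subset_union_right
        have hb5 : Bdd (fun n => ind (D ∩ Eset F G b) n * ω' n) := (bdd_ind _).mul hω'b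
        have h6 : s b ≤ μ.1 (fun n => κ (n - b) * |ω n - ω' n| +
            K * (ind (D ∩ Eset F G b) n * ω' n)) := by
          refine μ.2.mono (hsin b) (((hκb b).mul hdiffb).add ((Bdd.const K).mul hb5)) fun n => ?_
          have hω'0 : 0 ≤ ω' n := wt_nonneg μ F G δ Θ' n
          have h7 : 0 ≤ κ (n - b) * |ω n - ω' n| := mul_nonneg (hκ0 _) (abs_nonneg _)
          by_cases hn : n ∈ D' ∧ n ∈ Eset F G b
          · have h8 : g n = ω n := by
              rw [hg]; simp only; rw [ind_of_mem hn.1, one_mul]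
            rw [h8, ind_of_mem hn.2, ind_of_mem (show n ∈ D ∩ Eset F G b from ⟨hn.1.1, hn.2⟩),
              mul_one, one_mul]
            have h9 := le_abs_self (ω n - ω' n)
            have h10 := hκ0 (n - b)
            have h11 := hκK (n - b)
            nlinarith
          · have h8 : κ (n - b) * g n * ind (Eset F G b) n = 0 := by
              rw [not_and_or] at hn
              rcases hn with hn | hn
              · rw [hg]; simp only; rw [ind_of_notMem hn]; ring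
              · rw [ind_of_notMem hn, mul_zero]
            rw [h8]
            have := ind_nonneg (D ∩ Eset F G b) n
            positivity
        rw [μ.2.add _ _ ((hκb b).mul hdiffb) ((Bdd.const K).mul hb5), μ.2.smul _ _ hb5] at h6
        have h12 : K * μ.1 (fun n => ind (D ∩ Eset F G b) n * ω' n) ≤ ε₂ := by
          calc _ ≤ K * (ε₂ / K) := mul_le_mul_of_nonneg_left h5 hK0.le
            _ = ε₂ := by field_simp
        have h13 : g b * s b ≤ s b := mul_le_of_le_one_left (hs_nonneg b) (g1 b)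
        linarith
      · have h8 : g b = 0 := by
          rw [hg]; simp only; rw [ind_of_notMem hbD]; ring
        rw [h8, zero_mul]
        linarith
    have hconvb : Bdd (fun b => μ.1 (fun n => κ (n - b) * |ω n - ω' n|)) :=
      bdd_conv μ hκ.pt.bdd hdiffb
    have h14 := μ.2.mono (hgb.mul hsb) (hconvb.add (Bdd.const ε₂)) hb
    rw [μ.2.add _ _ hconvb (Bdd.const ε₂), hκ.fubini hdiffb, μ.2.const] at h14
    linarith
  -- lower bound
  have hlower : δ * c₀ ^ 2 - ε - (2 + Q) / 2 * ε ≤ μ.1 (fun b => g b * s b) := by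
    set a : ℤ → ℝ := fun b => μ.1 (fun n => κ (n - b) * g n) with ha
    have ha0 : ∀ b, 0 ≤ a b := fun b => μ.2.nonneg _ ((hκb b).mul hgb) fun n =>
      mul_nonneg (hκ0 _) (g0 n)
    have hab : Bdd a := bdd_conv μ hκ.pt.bdd hgb
    set e₁ := F.err μ κ g Θ with he₁
    set e₂ := G.err μ κ g Θ with he₂
    have he₁b : Bdd e₁ := F.bdd_err μ hκ.pt.bdd g Θ
    have he₂b : Bdd e₂ := G.bdd_err μ hκ.pt.bdd g Θ
    have he₁0 : ∀ b, 0 ≤ e₁ b := fun b => add_nonneg (norm_nonneg _) (norm_nonneg _)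
    have he₂0 : ∀ b, 0 ≤ e₂ b := fun b => add_nonneg (norm_nonneg _) (norm_nonneg _)
    have hcard : Θ.card * η ≤ ε / 2 := by
      rw [hη]
      have : (Θ.card : ℝ) * (ε / (2 * (Θ.card + 1))) = (Θ.card / (Θ.card + 1)) * (ε / 2) := by
        field_simp
      rw [this]
      have h1 : (Θ.card : ℝ) / (Θ.card + 1) ≤ 1 := by
        rw [div_le_one (by positivity)]; linarith
      calc _ ≤ 1 * (ε / 2) := by gcongr
        _ = _ := one_mul _
    have hpt : ∀ b, δ * (g b * a b) - ε - e₁ b - e₂ b ≤ g b * s b := by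
      intro b
      have l₁ := F.lower μ hκ hκη g0 g1 b
      have l₂ := G.lower μ hκ hκη g0 g1 b
      set u₁ := μ.1 (fun n => κ (n - b) * g n * F.X b n) with hu₁
      set u₂ := μ.1 (fun n => κ (n - b) * g n * G.X b n) with hu₂
      have hbu₁ : Bdd (fun n => κ (n - b) * g n * F.X b n) := ((hκb b).mul hgb).mul (F.bdd b)
      have hbu₂ : Bdd (fun n => κ (n - b) * g n * G.X b n) := ((hκb b).mul hgb).mul (G.bdd b)
      have hbkg : Bdd (fun n => κ (n - b) * g n) := (hκb b).mul hgb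
      have hsu : u₁ + u₂ - a b ≤ s b := by
        have h1 := μ.2.mono ((hbu₁.add hbu₂).sub hbkg) (hsin b) (fun n => by
          have h2 : F.X b n + G.X b n - 1 ≤ ind (Eset F G b) n := by
            rcases hF b n with h3 | h3
            · rw [h3]
              have := G.X1 b n
              have := ind_nonneg (Eset F G b) n
              linarith
            · rcases hG b n with h4 | h4
              · rw [h4]
                have := F.X1 b n
                have := ind_nonneg (Eset F G b) n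
                linarith
              · rw [ind_of_mem (show n ∈ Eset F G b from ⟨h3, h4⟩), h3, h4]
                norm_num
          have h3 : 0 ≤ κ (n - b) * g n := mul_nonneg (hκ0 _) (g0 n)
          have h4 := mul_le_mul_of_nonneg_left h2 h3
          linarith)
        rw [μ.2.sub (hbu₁.add hbu₂) hbkg, μ.2.add _ _ hbu₁ hbu₂] at h1
        exact h1
      have hgJ : δ * g b ≤ g b * ((F.J μ Θ b).re + (G.J μ Θ b).re - 1) := by
        by_cases hp : (F.J μ Θ b).re + (G.J μ Θ b).re - (1 + δ) ≤ 0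
        · have h1 : g b = 0 := by
            rw [hg, hω]
            simp only [wt]
            rw [clip_eq_zero hp, mul_zero]
          rw [h1]
          simp
        · push Not at hp
          have h2 := g0 b
          nlinarith
      have h5 := ha0 b
      have h6 := g0 b
      have h7 := g1 b
      have h8 := he₁0 b
      have h9 := he₂0 b
      have h10 : g b * (u₁ + u₂ - a b) ≤ g b * s b := mul_le_mul_of_nonneg_left hsu h6
      have h11 : g b * (((F.J μ Θ b).re * a b - Θ.card * η - e₁ b) +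
          ((G.J μ Θ b).re * a b - Θ.card * η - e₂ b) - a b) ≤ g b * (u₁ + u₂ - a b) := by
        refine mul_le_mul_of_nonneg_left ?_ h6
        linarith
      have h12 : δ * g b * a b ≤ g b * ((F.J μ Θ b).re + (G.J μ Θ b).re - 1) * a b :=
        mul_le_mul_of_nonneg_right hgJ h5
      have h13 : g b * (2 * (Θ.card * η) + e₁ b + e₂ b) ≤ 2 * (Θ.card * η) + e₁ b + e₂ b :=
        mul_le_of_le_one_left (by positivity) h7
      nlinarith
    have hbga : Bdd (fun b => g b * a b) := hgb.mul hab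
    have hb1 : Bdd (fun b => δ * (g b * a b)) := (Bdd.const δ).mul hbga
    have hb2 : Bdd (fun b => δ * (g b * a b) - ε) := hb1.sub (Bdd.const ε)
    have hb3 : Bdd (fun b => δ * (g b * a b) - ε - e₁ b) := hb2.sub he₁b
    have h1 := μ.2.mono (hb3.sub he₂b) (hgb.mul hsb) hpt
    rw [μ.2.sub hb3 he₂b, μ.2.sub hb2 he₁b, μ.2.sub hb1 (Bdd.const ε), μ.2.smul _ _ hbga,
      μ.2.const] at h1
    have h2 := hκ.quad hgb
    have h3 : c₀ ≤ μ.1 g := (hΘ₀ Θ hs0).trans (hmean Θ)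
    have h4 := F.mean_err_le μ hμ hκ hε0 (h₂ Θ hs2) g0 g1
    have h5 := G.mean_err_le μ hμ hκ hε0 (h₃ Θ hs3) g0 g1
    have h6 : δ * c₀ ^ 2 ≤ δ * μ.1 (fun b => g b * a b) := by
      refine mul_le_mul_of_nonneg_left (le_trans ?_ h2) hδ.le
      gcongr
    have h7 : (1 + (F.q : ℝ)) / 2 * ε + (1 + (G.q : ℝ)) / 2 * ε = (2 + Q) / 2 * ε := by
      rw [hQ]; ring
    linarith
  have hfin : δ * c₀ ^ 2 ≤ ε + ε + (2 + Q) / 2 * ε := by linarith
  have h4 : ε * (4 * (Q + 4)) = δ * c₀ ^ 2 := by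
    rw [hε]
    field_simp
  nlinarith

end Pool.Agent.Helper4.Sumset
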