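import Mathlib
import Pool.Agent.Lib.Helper4.Sumset.Step

/-!
# Initial positivity
-/

namespace Pool.Agent.Helper4.Sumset

open Set Filter Topology Complex
open scoped InnerProductSpace ComplexConjugate

variable (μ : IMean)

/-- Initial positivity from the mean of the diagonals. -/
lemma pos_univ (F G : Fam) {δ : ℝ} (hδ : 0 < δ) {Θ₀ : Finset Circle}
    (h : ∀ Θ, Θ₀ ⊆ Θ → 1 + 2 * δ ≤ μ.1 (fun x => (F.J μ Θ x).re + (G.J μ Θ x).re)) :
    Pos μ F G δ univ := by
  set M : ℝ := 3 * (F.q + G.q + (1 + δ) ^ 2) with hM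
  have hM0 : 0 < M := by positivity
  refine ⟨(δ / 2) / (1 + M / (2 * δ)), by positivity, Θ₀, fun Θ hΘ => ?_⟩
  have hbF := (F.bdd_J μ Θ).re
  have hbG := (G.bdd_J μ Θ).re
  set y : ℤ → ℝ := fun x => (F.J μ Θ x).re + (G.J μ Θ x).re - (1 + δ) with hy
  have hyb : Bdd y := (hbF.add hbG).sub (Bdd.const _)
  have hμy : δ ≤ μ.1 y := by
    rw [hy, μ.2.sub (hbF.add hbG) (Bdd.const _), μ.2.const]
    have := h Θ hΘ
    linarith
  have hμy2 : μ.1 (fun x => y x ^ 2) ≤ M := by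
    have hb1 := (F.bdd_J μ Θ).norm.pow 2
    have hb2 := (G.bdd_J μ Θ).norm.pow 2
    have h1 : μ.1 (fun x => y x ^ 2) ≤
        μ.1 (fun x => 3 * (‖F.J μ Θ x‖ ^ 2 + ‖G.J μ Θ x‖ ^ 2 + (1 + δ) ^ 2)) := by
      refine μ.2.mono (hyb.pow 2) ((Bdd.const 3).mul ((hb1.add hb2).add (Bdd.const _)))
        fun x => ?_
      have h2 : (F.J μ Θ x).re ^ 2 ≤ ‖F.J μ Θ x‖ ^ 2 := by
        rw [← sq_abs]
        have := abs_re_le_norm (F.J μ Θ x)
        gcongr
      have h3 : (G.J μ Θ x).re ^ 2 ≤ ‖G.J μ Θ x‖ ^ 2 := by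
        rw [← sq_abs]
        have := abs_re_le_norm (G.J μ Θ x)
        gcongr
      rw [hy]
      simp only
      nlinarith [sq_nonneg ((F.J μ Θ x).re - (G.J μ Θ x).re),
        sq_nonneg ((F.J μ Θ x).re + (1 + δ)), sq_nonneg ((G.J μ Θ x).re + (1 + δ))]
    rw [μ.2.smul _ _ ((hb1.add hb2).add (Bdd.const _)), μ.2.add _ _ (hb1.add hb2) (Bdd.const _),
      μ.2.add _ _ hb1 hb2, μ.2.const] at h1
    have h4 := F.J_bound μ Θ
    have h5 := G.J_bound μ Θ
    rw [hM]
    linarith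
  have hw : ∀ x, wt μ F G δ Θ x = clip (y x) := fun x => rfl
  have hcb : Bdd (fun x => clip (y x)) := bdd_wt μ F G δ Θ
  have h6 : μ.1 y ≤ μ.1 (fun x => (1 + M / (2 * δ)) * clip (y x) + (δ / (2 * M)) * y x ^ 2) := by
    refine μ.2.mono hyb (((Bdd.const _).mul hcb).add ((Bdd.const _).mul (hyb.pow 2))) fun x => ?_
    have hc0 := clip_nonneg (y x)
    have hc1 := clip_le_one (y x)
    set c := clip (y x) with hc
    have h7 : y x ≤ c + |y x| * c := by
      rcases le_total (y x) 0 with h8 | h8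
      · have : 0 ≤ c + |y x| * c := by positivity
        linarith
      · rw [abs_of_nonneg h8]
        rcases le_total (y x) 1 with h9 | h9
        · have : c = y x := by
            rw [hc, clip, min_eq_right h9, max_eq_right h8]
          rw [this]
          nlinarith
        · have : c = 1 := by
            rw [hc, clip, min_eq_left h9, max_eq_right zero_le_one]
          rw [this]
          linarith
    have h10 : |y x| * c ≤ (M / (2 * δ)) * c + (δ / (2 * M)) * y x ^ 2 := by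
      have h11 : (M / (2 * δ)) * c ^ 2 + (δ / (2 * M)) * |y x| ^ 2 - |y x| * c =
          (M * c - δ * |y x|) ^ 2 / (2 * M * δ) := by
        field_simp
        ring
      have h12 : 0 ≤ (M * c - δ * |y x|) ^ 2 / (2 * M * δ) := by positivity
      have h13 : (M / (2 * δ)) * c ^ 2 ≤ (M / (2 * δ)) * c := by
        refine mul_le_mul_of_nonneg_left ?_ (by positivity)
        nlinarith
      rw [sq_abs] at h11
      linarith
    linarith
  rw [μ.2.add _ _ ((Bdd.const _).mul hcb) ((Bdd.const _).mul (hyb.pow 2)), μ.2.smul _ _ hcb,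
    μ.2.smul _ _ (hyb.pow 2)] at h6
  have h14 : (δ / (2 * M)) * μ.1 (fun x => y x ^ 2) ≤ δ / 2 := by
    calc _ ≤ (δ / (2 * M)) * M := mul_le_mul_of_nonneg_left hμy2 (by positivity)
      _ = δ / 2 := by field_simp
  have h15 : δ / 2 ≤ (1 + M / (2 * δ)) * μ.1 (fun x => clip (y x)) := by linarith
  rw [div_le_iff₀ (by positivity)]
  have h16 : (fun n => ind univ n * wt μ F G δ Θ n) = fun x => clip (y x) := by
    ext x
    rw [ind_of_mem (mem_univ x), one_mul, hw]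
  rw [h16, mul_comm]
  exact h15

/-- The concrete families. -/
def fam (f : ℤ → ℝ) (f0 : ∀ n, 0 ≤ f n) (f1 : ∀ n, f n ≤ 1) (p p' : ℕ) (hp : 0 < p)
    (hp' : 0 < p') (t : ℤ) : Fam where
  p := p
  p' := p'
  X b n := f (p' * b + p * n + t)
  hp := hp
  hp' := hp'
  X0 b n := f0 _
  X1 b n := f1 _
  per b n := congrArg f (by ring)

section concrete

variable {f : ℤ → ℝ} (f0 : ∀ n, 0 ≤ f n) (f1 : ∀ n, f n ≤ 1) {p p' : ℕ} (hp : 0 < p)
  (hp' : 0 < p')

/-- Twisted averages. -/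
noncomputable def Az (f : ℤ → ℝ) (p : ℕ) (z : Circle) (y : ℤ) : ℂ :=
  cm μ.1 (fun n => conj (ch z n) * (f (p * n + y) : ℂ))

include f0 f1 in
lemma bdd_f (φ : ℤ → ℤ) : Bdd (fun n => f (φ n)) := ⟨1, fun n => by
  rw [Real.norm_eq_abs, abs_of_nonneg (f0 _)]; exact f1 _⟩

include f0 f1 in
lemma bdd_Az_in (z : Circle) (y : ℤ) : Bdd (fun n => conj (ch z n) * (f (p * n + y) : ℂ)) :=
  (bdd_ch z).conj.mul (bdd_f f0 f1 _).ofReal

lemma fam_γ (t : ℤ) (z : Circle) (x : ℤ) :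
    (fam f f0 f1 p p' hp hp' t).γ μ z x = Az μ f p z ((p + p' : ℕ) * x + t) := by
  set F := fam f f0 f1 p p' hp hp' t with hF
  have h1 : F.β μ z x = cm μ.1 (fun n => conj (ch z n) * (F.X x n : ℂ)) := by
    rw [Fam.β, Fam.vx, Ev, inner_emb μ (bdd_ch z) (F.bdd x).ofReal]
  have hb : Bdd (fun n => conj (ch z n) * (F.X x n : ℂ)) := (bdd_ch z).conj.mul (F.bdd x).ofReal
  rw [Fam.γ, h1, ← cm_shift μ.2 hb x, Az]
  have h2 : (fun n => conj (ch z (n + x)) * (F.X x (n + x) : ℂ)) =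
      fun n => conj (ch z x) * (conj (ch z n) * (f (p * n + ((p + p' : ℕ) * x + t)) : ℂ)) := by
    ext n
    have h3 : F.X x (n + x) = f (p * n + ((p + p' : ℕ) * x + t)) := by
      change f (p' * x + p * (n + x) + t) = _
      congr 1
      push_cast
      ring
    rw [h3, ch_add, map_mul]
    ring
  rw [h2, cm_smul μ.2 _ (bdd_Az_in f0 f1 z _)]
  have h4 := conj_ch_mul z x
  linear_combination (cm μ.1 fun n => conj (ch z n) * (f (p * n + ((p + p' : ℕ) * x + t)) : ℂ)) * h4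

include f0 f1 in
lemma Az_add (z : Circle) (y : ℤ) : Az μ f p z (y + p) = ch z 1 * Az μ f p z y := by
  have h1 := cm_shift μ.2 (bdd_Az_in (p := p) f0 f1 z y) 1
  rw [Az, Az, ← h1, ← cm_smul μ.2 _ ((bdd_Az_in f0 f1 z y).comp (fun n => n + 1))]
  congr 1
  ext n
  have h2 : (p : ℤ) * (n + 1) + y = p * n + (y + p) := by ring
  rw [h2, ch_add, map_mul]
  have h4 := ch_mul_conj z 1
  linear_combination (-(conj (ch z n) * (f (p * n + (y + p)) : ℂ))) * h4

include f0 f1 in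
lemma Az_add_mul (z : Circle) (y : ℤ) (k : ℕ) :
    Az μ f p z (y + k * p) = ch z k * Az μ f p z y := by
  induction k with
  | zero => simp
  | succ k ih =>
    have : y + ((k + 1 : ℕ) : ℤ) * p = y + k * p + p := by push_cast; ring
    rw [this, Az_add μ f0 f1, ih]
    push_cast
    rw [ch_add]
    ring

/-- Sums of twisted averages over a full period. -/
noncomputable def Sz (f : ℤ → ℝ) (p : ℕ) (Q : ℕ) (z : Circle) (y : ℤ) : ℂ :=
  ∑ t ∈ Finset.range Q, Az μ f p z (y + t)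

include f0 f1 in
lemma Sz_succ {Q k : ℕ} (hQ : Q = k * p) {z : Circle} (hz : ch z k = 1) (y : ℤ) :
    Sz μ f p Q z (y + 1) = Sz μ f p Q z y := by
  have h1 : Sz μ f p Q z (y + 1) + Az μ f p z y = Sz μ f p Q z y + Az μ f p z (y + Q) := by
    have h2 := Finset.sum_range_succ (fun t : ℕ => Az μ f p z (y + t)) Q
    have h3 := Finset.sum_range_succ' (fun t : ℕ => Az μ f p z (y + t)) Q
    rw [h2] at h3
    rw [Sz, Sz, h3]
    congr 1
    · refine Finset.sum_congr rfl fun t _ => ?_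
      congr 1
      push_cast
      ring
    · simp
  have h4 : Az μ f p z (y + Q) = Az μ f p z y := by
    have := Az_add_mul μ f0 f1 (p := p) z y k
    rw [hz, one_mul] at this
    have h5 : y + (Q : ℤ) = y + k * p := by rw [hQ]; push_cast; ring
    rw [← this, h5]
  rw [h4] at h1
  exact add_right_cancel h1

include f0 f1 in
lemma Sz_const {Q k : ℕ} (hQ : Q = k * p) {z : Circle} (hz : ch z k = 1) (y : ℤ) :
    Sz μ f p Q z y = Sz μ f p Q z 0 := by
  induction y using Int.induction_on with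
  | zero => rfl
  | succ i ih => rw [Sz_succ μ f0 f1 hQ hz, ih]
  | pred i ih =>
    rw [← ih, ← Sz_succ μ f0 f1 hQ hz (-(i : ℤ) - 1)]
    congr 1
    ring

include f0 f1 in
lemma Sz_zero_of_ne {Q k : ℕ} (hQ : Q = k * p) {z : Circle} (hz : ch z k = 1) (hz1 : z ≠ 1) :
    Sz μ f p Q z 0 = 0 := by
  have h1 : Sz μ f p Q z (0 + p) = ch z 1 * Sz μ f p Q z 0 := by
    rw [Sz, Sz, Finset.mul_sum]
    refine Finset.sum_congr rfl fun t _ => ?_
    rw [← Az_add μ f0 f1]
    congr 1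
    ring
  rw [Sz_const μ f0 f1 hQ hz (0 + p)] at h1
  have h2 : (ch z 1 - 1) * Sz μ f p Q z 0 = 0 := by
    rw [sub_mul, ← h1, one_mul, sub_self]
  rcases mul_eq_zero.1 h2 with h3 | h3
  · exfalso
    apply hz1
    apply ch_inj
    rw [sub_eq_zero.1 h3, ch_one]
  · exact h3

include f0 f1 in
lemma Sz_one (Q : ℕ) (y : ℤ) :
    Sz μ f p Q 1 y = (μ.1 (fun n => ∑ t ∈ Finset.range Q, f (p * n + (y + t))) : ℂ) := by
  rw [Sz, μ.2.sum _ fun t _ => bdd_f f0 f1 _, ofReal_sum]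
  refine Finset.sum_congr rfl fun t _ => ?_
  rw [Az, ← cm_ofReal μ.2]
  simp

/-- The mean of the diagonal, summed over all shifts. -/
lemma sum_mean_J {Q r : ℕ} (hQ : Q = (r * (p + p')) * p) :
    ∑ t ∈ Finset.range Q,
      cm μ.1 ((fam f f0 f1 p p' hp hp' (t + 1 : ℤ)).J μ (Rts (p + p') (by omega))) =
      (μ.1 (fun n => ∑ t ∈ Finset.range Q, f (p * n + (1 + t))) : ℂ) := by
  have hq : 0 < p + p' := by omega
  have hbA : ∀ z t, Bdd (fun x : ℤ => Az μ f p z ((p + p' : ℕ) * x + t)) := by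
    intro z t
    refine ⟨1, fun x => norm_cm_le_of_le μ.2 fun n => ?_⟩
    rw [norm_mul, RCLike.norm_conj, norm_ch, one_mul, norm_real, Real.norm_eq_abs,
      abs_of_nonneg (f0 _)]
    exact f1 _
  have h1 : ∀ t : ℕ, cm μ.1 ((fam f f0 f1 p p' hp hp' (t + 1 : ℤ)).J μ (Rts (p + p') hq)) =
      ∑ z ∈ Rts (p + p') hq, cm μ.1 (fun x => Az μ f p z ((p + p' : ℕ) * x + (t + 1))) := by
    intro t
    have h2 : (fam f f0 f1 p p' hp hp' (t + 1 : ℤ)).J μ (Rts (p + p') hq) =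
        fun x => ∑ z ∈ Rts (p + p') hq, Az μ f p z ((p + p' : ℕ) * x + (t + 1)) := by
      ext x
      rw [Fam.J]
      refine Finset.sum_congr rfl fun z _ => ?_
      rw [fam_γ]
    rw [h2, cm_sum μ.2 _ fun z _ => hbA z _]
  rw [Finset.sum_congr rfl fun t _ => h1 t, Finset.sum_comm]
  have h3 : ∀ z ∈ Rts (p + p') hq,
      ∑ t ∈ Finset.range Q, cm μ.1 (fun x => Az μ f p z ((p + p' : ℕ) * x + (t + 1))) =
      Sz μ f p Q z 0 := by
    intro z hz
    have hzk : ch z (r * (p + p') : ℕ) = 1 := by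
      have h4 : z ^ (p + p') = 1 := mem_Rts.1 hz
      have h5 : z ^ (r * (p + p')) = 1 := by rw [mul_comm, pow_mul, h4, one_pow]
      have h6 := ch_pow z (r * (p + p')) 1
      rw [h5, ch_one, mul_one] at h6
      exact h6.symm
    rw [← cm_sum μ.2 _ fun t _ => hbA z _]
    have h7 : (fun x => ∑ t ∈ Finset.range Q, Az μ f p z ((p + p' : ℕ) * x + (t + 1))) =
        fun _ => Sz μ f p Q z 0 := by
      ext x
      rw [← Sz_const μ f0 f1 hQ hzk ((p + p' : ℕ) * x + 1), Sz]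
      refine Finset.sum_congr rfl fun t _ => ?_
      congr 1
      ring
    rw [h7, cm_const μ.2]
  rw [Finset.sum_congr rfl h3]
  have h8 : (1 : Circle) ∈ Rts (p + p') hq := mem_Rts.2 (one_pow _)
  rw [Finset.sum_eq_single_of_mem _ h8]
  · have h9 : ch (1 : Circle) (r * (p + p') : ℕ) = 1 := ch_one _
    rw [← Sz_const μ f0 f1 hQ h9 1, Sz_one μ f0 f1]
  · intro z hz hz1
    have hzk : ch z (r * (p + p') : ℕ) = 1 := by
      have h4 : z ^ (p + p') = 1 := mem_Rts.1 hz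
      have h5 : z ^ (r * (p + p')) = 1 := by rw [mul_comm, pow_mul, h4, one_pow]
      have h6 := ch_pow z (r * (p + p')) 1
      rw [h5, ch_one, mul_one] at h6
      exact h6.symm
    exact Sz_zero_of_ne μ f0 f1 hQ hzk hz1

end concrete

/-- Enlarging the set of frequencies beyond the roots of unity does not change the mean. -/
lemma mean_J_eq (F : Fam) {Θ : Finset Circle} (hΘ : Rts F.q F.hq ⊆ Θ) :
    cm μ.1 (F.J μ Θ) = cm μ.1 (F.J μ (Rts F.q F.hq)) := by
  unfold Fam.J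
  rw [cm_sum μ.2 _ fun z _ => F.bdd_γ μ z, cm_sum μ.2 _ fun z _ => F.bdd_γ μ z]
  symm
  refine Finset.sum_subset hΘ fun z _ hz => ?_
  refine cm_eq_zero_of_quasi μ.2 (F.bdd_γ μ z) (p := F.p) (u := ch (z ^ F.q) 1) ?_
    (F.γ_add μ z)
  intro h
  exact hz (mem_Rts.2 (ch_inj (by rw [h, ch_one])))

end Pool.Agent.Helper4.Sumset
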