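import Mathlib
import Pool.Agent.Lib.Helper4.Sumset.Init

/-!
# From upper density to an extreme invariant mean
-/

namespace Pool.Agent.Helper4.Sumset

open Set Filter Topology

/-- Averages over the initial segment `[1, k]`. -/
noncomputable def avg (f : ℤ → ℝ) (k : ℕ) : ℝ := (∑ n ∈ Finset.range k, f (n + 1)) / k

lemma avg_mem {f : ℤ → ℝ} {C : ℝ} (hC0 : 0 ≤ C) (hC : ∀ n, |f n| ≤ C) (k : ℕ) :
    avg f k ∈ Icc (-C) C := by
  rw [mem_Icc, ← abs_le, avg, abs_div, Nat.abs_cast]
  rcases Nat.eq_zero_or_pos k with rfl | hk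
  · simpa using hC0
  · have hk' : (0:ℝ) < k := by exact_mod_cast hk
    rw [div_le_iff₀ hk']
    refine (Finset.abs_sum_le_sum_abs _ _).trans ?_
    refine (Finset.sum_le_card_nsmul _ _ C fun i _ => hC _).trans ?_
    rw [Finset.card_range, nsmul_eq_mul, mul_comm]

open Classical in
/-- The limit mean along an ultrafilter. -/
noncomputable def limMean (U : Ultrafilter ℕ) (f : ℤ → ℝ) : ℝ :=
  if Bdd f then limUnder (U : Filter ℕ) (avg f) else 0

lemma tendsto_limMean (U : Ultrafilter ℕ) {f : ℤ → ℝ} (hf : Bdd f) :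
    Tendsto (avg f) U (𝓝 (limMean U f)) := by
  rw [limMean, if_pos hf]
  apply tendsto_nhds_limUnder
  obtain ⟨C, hC0, hC⟩ := hf.exists_pos
  have h1 : ((U.map (avg f) : Ultrafilter ℝ) : Filter ℝ) ≤ 𝓟 (Icc (-C) C) := by
    rw [Ultrafilter.coe_map, le_principal_iff]
    exact Filter.mem_map.2 (Filter.univ_mem' fun k => avg_mem hC0.le hC k)
  obtain ⟨x, _, hx⟩ := isCompact_iff_ultrafilter_le_nhds.1 (isCompact_Icc (a := -C) (b := C)) _ h1
  exact ⟨x, hx⟩

lemma isMean_limMean {U : Ultrafilter ℕ} (hU : (U : Filter ℕ) ≤ atTop) : IsMean (limMean U) where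
  add f g hf hg := by
    refine tendsto_nhds_unique (tendsto_limMean U (hf.add hg))
      (((tendsto_limMean U hf).add (tendsto_limMean U hg)).congr fun k => ?_)
    rw [avg, avg, avg, Finset.sum_add_distrib, add_div]
  smul c f hf := by
    refine tendsto_nhds_unique (tendsto_limMean U ((Bdd.const c).mul hf))
      (((tendsto_limMean U hf).const_mul c).congr fun k => ?_)
    rw [avg, avg, ← Finset.mul_sum, mul_div_assoc]
  nonneg f hf h0 := by
    refine ge_of_tendsto' (tendsto_limMean U hf) fun k => ?_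
    exact div_nonneg (Finset.sum_nonneg fun i _ => h0 _) (by positivity)
  one := by
    refine tendsto_nhds_unique (tendsto_limMean U (Bdd.const 1)) (tendsto_const_nhds.congr' ?_)
    have h1 : ∀ᶠ k : ℕ in U, 0 < k := hU (eventually_gt_atTop 0)
    filter_upwards [h1] with k hk
    rw [avg, Finset.sum_const, Finset.card_range, nsmul_eq_mul, mul_one,
      div_self (by exact_mod_cast hk.ne')]
  shift f hf := by
    obtain ⟨C, hC0, hC⟩ := hf.exists_pos
    have h1 : Tendsto (fun k : ℕ => (f (k + 1) - f 1) / k) U (𝓝 0) := by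
      have h2 : Tendsto (fun k : ℕ => (2 * C) / (k : ℝ)) U (𝓝 0) :=
        (tendsto_const_div_atTop_nhds_zero_nat (2 * C)).mono_left hU
      refine squeeze_zero_norm (fun k => ?_) h2
      rw [norm_div, Real.norm_natCast]
      have h3 : ‖f (k + 1) - f 1‖ ≤ 2 * C := by
        refine (norm_sub_le _ _).trans ?_
        have := hC (k + 1)
        have := hC 1
        linarith
      gcongr
    have h4 : Tendsto (avg f) U (𝓝 (limMean U (fun n => f (n + 1)) - 0)) := by
      refine ((tendsto_limMean U (hf.comp fun n => n + 1)).sub h1).congr fun k => ?_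
      rw [avg, avg, ← sub_div]
      congr 1
      have h5 := Finset.sum_range_succ (fun n : ℕ => f (n + 1)) k
      have h6 := Finset.sum_range_succ' (fun n : ℕ => f (n + 1)) k
      rw [h5] at h6
      simp only [Nat.cast_add, Nat.cast_one, Nat.cast_zero, zero_add] at h6
      linarith
    rw [sub_zero] at h4
    exact tendsto_nhds_unique h4 (tendsto_limMean U hf)
  half := by
    have hb : Bdd (fun n : ℤ => if n ≤ 0 then (1:ℝ) else 0) :=
      ⟨1, fun n => by dsimp only; split_ifs <;> simp⟩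
    refine tendsto_nhds_unique (tendsto_limMean U hb) (tendsto_const_nhds.congr fun k => ?_)
    rw [avg, Finset.sum_eq_zero, zero_div]
    intro n _
    rw [if_neg (by omega)]
  junk f hf := by rw [limMean, if_neg hf]

section blocks

variable {h : ℤ → ℝ}

/-- Sums over blocks. -/
lemma block_sum (h : ℤ → ℝ) (a k : ℕ) :
    ∑ n ∈ Finset.range k, ∑ s ∈ Finset.range a, h (a * (n + 1) + (1 + s)) =
      ∑ y ∈ Finset.range (k * a), h (a + (y + 1)) := by
  induction k with
  | zero => simp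
  | succ k ih =>
    rw [Finset.sum_range_succ, ih, Nat.succ_mul, Finset.sum_range_add]
    congr 1
    refine Finset.sum_congr rfl fun s _ => ?_
    congr 1
    push_cast
    ring

lemma block_le (h0 : ∀ n, 0 ≤ h n) (h1 : ∀ n, h n ≤ 1) {a k N : ℕ} (hN : k * a ≤ N) :
    ∑ n ∈ Finset.range k, ∑ s ∈ Finset.range a, h (a * (n + 1) + (1 + s)) ≤
      (∑ y ∈ Finset.range N, h (y + 1)) + a := by
  rw [block_sum]
  have h2 : ∑ y ∈ Finset.range (k * a), h (a + (y + 1)) ≤
      ∑ y ∈ Finset.range (a + k * a), h (y + 1) := by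
    rw [Finset.sum_range_add]
    have h3 : 0 ≤ ∑ y ∈ Finset.range a, h (y + 1) := Finset.sum_nonneg fun _ _ => h0 _
    have h4 : ∑ y ∈ Finset.range (k * a), h (a + (y + 1)) =
        ∑ y ∈ Finset.range (k * a), h (((a + y : ℕ) : ℤ) + 1) := by
      refine Finset.sum_congr rfl fun s _ => ?_
      rw [show ((a:ℤ) + ((s:ℤ) + 1)) = ((a + s : ℕ) : ℤ) + 1 by push_cast; ring]
    rw [h4]
    linarith
  have h5 : ∑ y ∈ Finset.range (a + k * a), h (y + 1) ≤
      (∑ y ∈ Finset.range (k * a), h (y + 1)) + a := by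
    rw [add_comm a, Finset.sum_range_add]
    have : ∑ x ∈ Finset.range a, h (((k * a + x : ℕ) : ℤ) + 1) ≤ a := by
      refine (Finset.sum_le_card_nsmul _ _ 1 fun i _ => h1 _).trans ?_
      simp
    linarith
  have h6 : ∑ y ∈ Finset.range (k * a), h (y + 1) ≤ ∑ y ∈ Finset.range N, h (y + 1) :=
    Finset.sum_le_sum_of_subset_of_nonneg (Finset.range_mono hN) fun _ _ _ => h0 _
  linarith

/-- Means of long blocks. -/
lemma mean_block {m : (ℤ → ℝ) → ℝ} (hm : IsMean m) (hb : Bdd h) (a r : ℕ) :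
    m (fun n => ∑ t ∈ Finset.range (r * a), h (a * n + (1 + t))) =
      r * m (fun n => ∑ t ∈ Finset.range a, h (a * n + (1 + t))) := by
  have hb' : ∀ φ : ℤ → ℕ → ℤ, ∀ s : Finset ℕ, Bdd (fun n => ∑ t ∈ s, h (φ n t)) := fun φ s =>
    Bdd.sum _ fun t _ => hb.comp fun n => φ n t
  induction r with
  | zero => simp [hm.zero]
  | succ r ih =>
    have h1 : (fun n : ℤ => ∑ t ∈ Finset.range ((r + 1) * a), h (a * n + (1 + t))) =
        fun n => (∑ t ∈ Finset.range (r * a), h (a * n + (1 + t))) +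
          ∑ t ∈ Finset.range a, h (a * (n + r) + (1 + t)) := by
      ext n
      rw [Nat.succ_mul, Finset.sum_range_add]
      congr 1
      refine Finset.sum_congr rfl fun s _ => ?_
      congr 1
      push_cast
      ring
    rw [h1, hm.add _ _ (hb' _ _) (hb' _ _), ih,
      hm.shift_int (f := fun n => ∑ t ∈ Finset.range a, h (a * n + (1 + t))) (hb' _ _) r]
    push_cast
    ring

end blocks

/-- **The extreme invariant mean attached to a set of large upper density.** -/
theorem exists_erg_mean {l m : ℕ} (hm : 0 < m) (hml : m ≤ l) {f : ℤ → ℝ} (f0 : ∀ n, 0 ≤ f n)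
    (f1 : ∀ n, f n ≤ 1) {c : ℝ} (hc : (l : ℝ) / (l + m) < c)
    (hfreq : ∃ᶠ N : ℕ in atTop, c * N ≤ ∑ y ∈ Finset.range N, f (y + 1)) :
    ∃ μ : IMean, IsErg μ ∧ ((l * m * (l + m) : ℕ) : ℝ) <
      μ.1 (fun n => ∑ t ∈ Finset.range (l * m * (l + m)), f (l * n + (1 + t))) +
      μ.1 (fun n => ∑ t ∈ Finset.range (l * m * (l + m)), f (m * n + (1 + t))) := by
  have hl : 0 < l := by omega
  have hl' : (0:ℝ) < l := by exact_mod_cast hl
  have hm' : (0:ℝ) < m := by exact_mod_cast hm
  set h : ℤ → ℝ := fun n => 1 - f n with hh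
  have h0 : ∀ n, 0 ≤ h n := fun n => sub_nonneg.2 (f1 n)
  have h1 : ∀ n, h n ≤ 1 := fun n => by rw [hh]; simp only; linarith [f0 n]
  have hfb : Bdd f := ⟨1, fun n => by rw [Real.norm_eq_abs, abs_of_nonneg (f0 n)]; exact f1 n⟩
  have hhb : Bdd h := (Bdd.const 1).sub hfb
  -- the ultrafilter
  set S : Set ℕ := {N : ℕ | c * N ≤ ∑ y ∈ Finset.range N, f (y + 1)} with hS
  have hne : (atTop ⊓ 𝓟 S).NeBot := Filter.frequently_mem_iff_neBot.1 hfreq
  set V : Ultrafilter ℕ := Ultrafilter.of (atTop ⊓ 𝓟 S) with hV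
  have hV1 : (V : Filter ℕ) ≤ atTop := (Ultrafilter.of_le _).trans inf_le_left
  have hV2 : ∀ᶠ N in (V : Filter ℕ), N ∈ S :=
    le_principal_iff.1 ((Ultrafilter.of_le _).trans inf_le_right)
  have hdiv : Tendsto (fun N : ℕ => N / l) atTop atTop := Nat.tendsto_div_const_atTop hl.ne'
  set U : Ultrafilter ℕ := V.map (fun N => N / l) with hU
  have hU1 : (U : Filter ℕ) ≤ atTop := by
    rw [hU, Ultrafilter.coe_map]
    exact (Filter.map_mono hV1).trans hdiv
  set m₀ := limMean U with hm₀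
  have hmean : IsMean m₀ := isMean_limMean hU1
  -- the key estimate
  have key : ∀ a : ℕ, a ≤ l →
      m₀ (fun n => ∑ s ∈ Finset.range a, h (a * n + (1 + s))) ≤ (1 - c) * l := by
    intro a hal
    have hgb : Bdd (fun n => ∑ s ∈ Finset.range a, h (a * n + (1 + s))) :=
      Bdd.sum _ fun t _ => hhb.comp fun n => a * n + (1 + t)
    have h2 := tendsto_limMean U hgb
    have h3 : Tendsto (fun N : ℕ => avg (fun n => ∑ s ∈ Finset.range a, h (a * n + (1 + s)))
        (N / l)) V (𝓝 (m₀ (fun n => ∑ s ∈ Finset.range a, h (a * n + (1 + s))))) := h2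
    have h4 : Tendsto (fun N : ℕ => (1 - c) * l + ((|1 - c| * l) + a) / ((N / l : ℕ) : ℝ)) V
        (𝓝 ((1 - c) * l + 0)) := by
      refine tendsto_const_nhds.add ?_
      exact ((tendsto_const_div_atTop_nhds_zero_nat _).comp hdiv).mono_left hV1
    rw [add_zero] at h4
    refine le_of_tendsto_of_tendsto h3 h4 ?_
    have h5 : ∀ᶠ N : ℕ in V, 0 < N / l := hV1 (hdiv.eventually_gt_atTop 0)
    filter_upwards [hV2, h5] with N hN hN0
    have hk : (0:ℝ) < ((N / l : ℕ) : ℝ) := by exact_mod_cast hN0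
    have hdm : N / l * l ≤ N := Nat.div_mul_le_self N l
    have hkN : N / l * a ≤ N := (Nat.mul_le_mul_left _ hal).trans hdm
    have h6 := block_le h0 h1 hkN
    have h7 : ∑ y ∈ Finset.range N, h (y + 1) ≤ (1 - c) * N := by
      have h8 : ∑ y ∈ Finset.range N, h (y + 1) = N - ∑ y ∈ Finset.range N, f (y + 1) := by
        rw [hh]
        simp
      have h9 : c * N ≤ ∑ y ∈ Finset.range N, f (y + 1) := hN
      rw [h8]
      linarith
    have h10 : (1 - c) * N ≤ (1 - c) * l * ((N / l : ℕ) : ℝ) + |1 - c| * l := by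
      have h11 : N < N / l * l + l := by
        have := Nat.lt_div_mul_add hl (a := N)
        linarith
      have h12 : (N : ℝ) ≤ ((N / l : ℕ) : ℝ) * l + l := by exact_mod_cast h11.le
      have h13 : ((N / l : ℕ) : ℝ) * l ≤ N := by exact_mod_cast hdm
      have h14 : (1 - c) * (N - ((N / l : ℕ) : ℝ) * l) ≤ |1 - c| * l := by
        calc (1 - c) * (N - ((N / l : ℕ) : ℝ) * l) ≤ |1 - c| * (N - ((N / l : ℕ) : ℝ) * l) :=
              mul_le_mul_of_nonneg_right (le_abs_self _) (by linarith)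
          _ ≤ |1 - c| * l := mul_le_mul_of_nonneg_left (by linarith) (abs_nonneg _)
      linarith
    have h15 : avg (fun n => ∑ s ∈ Finset.range a, h (a * n + (1 + s))) (N / l) =
        (∑ n ∈ Finset.range (N / l), ∑ s ∈ Finset.range a, h (a * (n + 1) + (1 + s))) /
          ((N / l : ℕ) : ℝ) := rfl
    rw [h15, div_le_iff₀ hk, add_mul, div_mul_cancel₀ _ hk.ne']
    linarith
  -- extreme mean
  have hfb' : ∀ a : ℕ, Bdd (fun n => ∑ t ∈ Finset.range (l * m * (l + m)), f (a * n + (1 + t))) :=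
    fun a => Bdd.sum _ fun t _ => hfb.comp fun n => a * n + (1 + t)
  have hhb' : ∀ a : ℕ, Bdd (fun n => ∑ t ∈ Finset.range (l * m * (l + m)), h (a * n + (1 + t))) :=
    fun a => Bdd.sum _ fun t _ => hhb.comp fun n => a * n + (1 + t)
  have hfa : ∀ a : ℕ, m₀ (fun n => ∑ t ∈ Finset.range (l * m * (l + m)), f (a * n + (1 + t))) =
      (l * m * (l + m) : ℕ) -
        m₀ (fun n => ∑ t ∈ Finset.range (l * m * (l + m)), h (a * n + (1 + t))) := by
    intro a
    have h2 : (fun n : ℤ => ∑ t ∈ Finset.range (l * m * (l + m)), f (a * n + (1 + t))) =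
        fun n => ((l * m * (l + m) : ℕ) : ℝ) -
          ∑ t ∈ Finset.range (l * m * (l + m)), h (a * n + (1 + t)) := by
      ext n
      rw [hh]
      simp
    rw [h2, hmean.sub (Bdd.const _) (hhb' a), hmean.const]
  obtain ⟨μ, hμ, hle⟩ := exists_extreme hmean (fun n =>
    (∑ t ∈ Finset.range (l * m * (l + m)), f (l * n + (1 + t))) +
    ∑ t ∈ Finset.range (l * m * (l + m)), f (m * n + (1 + t)))
  have hμm : IsMean μ := extremePoints_subset hμ
  refine ⟨⟨μ, hμm⟩, hμ, ?_⟩
  rw [hmean.add _ _ (hfb' l) (hfb' m), hμm.add _ _ (hfb' l) (hfb' m), hfa, hfa] at hle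
  refine lt_of_lt_of_le ?_ hle
  have e1 : m₀ (fun n => ∑ t ∈ Finset.range (l * m * (l + m)), h (l * n + (1 + t))) =
      (m * (l + m) : ℕ) * m₀ (fun n => ∑ t ∈ Finset.range l, h (l * n + (1 + t))) := by
    rw [← mean_block hmean hhb, show l * m * (l + m) = m * (l + m) * l by ring]
  have e2 : m₀ (fun n => ∑ t ∈ Finset.range (l * m * (l + m)), h (m * n + (1 + t))) =
      (l * (l + m) : ℕ) * m₀ (fun n => ∑ t ∈ Finset.range m, h (m * n + (1 + t))) := by
    rw [← mean_block hmean hhb, show l * m * (l + m) = l * (l + m) * m by ring]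
  rw [e1, e2]
  have k1 := key l le_rfl
  have k2 := key m hml
  have k3 : ((m * (l + m) : ℕ) : ℝ) * m₀ (fun n => ∑ t ∈ Finset.range l, h (l * n + (1 + t))) ≤
      ((m * (l + m) : ℕ) : ℝ) * ((1 - c) * l) := mul_le_mul_of_nonneg_left k1 (by positivity)
  have k4 : ((l * (l + m) : ℕ) : ℝ) * m₀ (fun n => ∑ t ∈ Finset.range m, h (m * n + (1 + t))) ≤
      ((l * (l + m) : ℕ) : ℝ) * ((1 - c) * l) := mul_le_mul_of_nonneg_left k2 (by positivity)
  have k5 : (1 - c) * (l + m) < m := by
    rw [div_lt_iff₀ (by positivity)] at hc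
    linarith
  have k6 : ((m * (l + m) : ℕ) : ℝ) * ((1 - c) * l) + ((l * (l + m) : ℕ) : ℝ) * ((1 - c) * l) <
      ((l * m * (l + m) : ℕ) : ℝ) := by
    push_cast
    have : (m : ℝ) * (l + m) * ((1 - c) * l) + l * (l + m) * ((1 - c) * l) =
        (l * (l + m)) * ((1 - c) * (l + m)) := by ring
    rw [this]
    have : (l : ℝ) * m * (l + m) = (l * (l + m)) * m := by ring
    rw [this]
    exact mul_lt_mul_of_pos_left k5 (by positivity)
  linarith

end Pool.Agent.Helper4.Sumset
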