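import Mathlib
import Pool.Agent.Lib.Helper4.Sumset.Density

/-!
# Infinite sumsets `m b₁ + l b₂ + t`
-/

namespace Pool.Agent.Helper4.Sumset

open Set Filter Topology

/-- The combinatorial recursion. -/
lemma recursion {P : Set ℤ → Prop} {E : ℤ → Set ℤ} (h0 : P univ)
    (hstep : ∀ D, P D → ∀ N₀ : ℤ, ∃ b ∈ D, N₀ < b ∧ P (D ∩ E b)) :
    ∃ b : ℕ → ℤ, StrictMono b ∧ (∀ k, 0 < b k) ∧ ∀ i j, i < j → b j ∈ E (b i) := by
  choose! nxt h1 h2 h3 using hstep
  let st : ℕ → {D : Set ℤ // P D} × ℤ := fun k => Nat.rec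
    (⟨⟨univ, h0⟩, 0⟩ : {D : Set ℤ // P D} × ℤ)
    (fun _ s => ⟨⟨s.1.1 ∩ E (nxt s.1.1 s.2), h3 _ s.1.2 _⟩, nxt s.1.1 s.2⟩) k
  have hst : ∀ k, st (k + 1) = ⟨⟨(st k).1.1 ∩ E (nxt (st k).1.1 (st k).2), h3 _ (st k).1.2 _⟩,
      nxt (st k).1.1 (st k).2⟩ := fun k => rfl
  set b : ℕ → ℤ := fun k => (st (k + 1)).2 with hb
  set D : ℕ → Set ℤ := fun k => (st k).1.1 with hD
  have hbk : ∀ k, b k = nxt (st k).1.1 (st k).2 := fun k => rfl
  have hmem : ∀ k, b k ∈ D k := fun k => by rw [hbk]; exact h1 _ (st k).1.2 _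
  have hlt : ∀ k, (st k).2 < b k := fun k => by rw [hbk]; exact h2 _ (st k).1.2 _
  have hDs : ∀ k, D (k + 1) = D k ∩ E (b k) := fun k => rfl
  have hmono : StrictMono b := strictMono_nat_of_lt_succ fun k => hlt (k + 1)
  have hDanti : ∀ i j, i ≤ j → D j ⊆ D i := by
    intro i j hij
    induction j, hij using Nat.le_induction with
    | base => exact Subset.rfl
    | succ j _ ih => rw [hDs]; exact inter_subset_left.trans ih
  refine ⟨b, hmono, fun k => ?_, fun i j hij => ?_⟩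
  · have : 0 < b 0 := hlt 0
    exact this.trans_le (hmono.monotone (Nat.zero_le k))
  · have h4 := hDanti (i + 1) j hij (hmem j)
    rw [hDs] at h4
    exact h4.2

/-- The integer version of a set of natural numbers. -/
def toInt (A : Set ℕ) : Set ℤ := (fun a : ℕ => (a : ℤ)) '' A

lemma mem_toInt {A : Set ℕ} {n : ℕ} : (n : ℤ) ∈ toInt A ↔ n ∈ A := by
  constructor
  · rintro ⟨a, ha, hab⟩
    have : a = n := by exact_mod_cast (show (a : ℤ) = n from hab)
    rwa [← this]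
  · intro h
    exact ⟨n, h, rfl⟩

lemma ncard_succ (A : Set ℕ) (N : ℕ) :
    ((A ∩ Icc 1 (N + 1)).ncard : ℝ) = (A ∩ Icc 1 N).ncard + ind (toInt A) (N + 1) := by
  have hfin : (A ∩ Icc 1 N).Finite := (finite_Icc 1 N).inter_of_right A
  by_cases h : N + 1 ∈ A
  · have h1 : A ∩ Icc 1 (N + 1) = insert (N + 1) (A ∩ Icc 1 N) := by
      ext x
      simp only [mem_inter_iff, mem_Icc, mem_insert_iff]
      constructor
      · rintro ⟨hx, hx1, hx2⟩
        rcases Nat.lt_or_ge x (N + 1) with h2 | h2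
        · exact Or.inr ⟨hx, hx1, by omega⟩
        · exact Or.inl (by omega)
      · rintro (rfl | ⟨hx, hx1, hx2⟩)
        · exact ⟨h, by omega, le_rfl⟩
        · exact ⟨hx, hx1, by omega⟩
    have h2 : N + 1 ∉ A ∩ Icc 1 N := fun h3 => by
      have := h3.2.2
      omega
    have h4 : ((N : ℤ) + 1) ∈ toInt A := by
      have : ((N + 1 : ℕ) : ℤ) ∈ toInt A := mem_toInt.2 h
      exact_mod_cast this
    rw [h1, ncard_insert_of_notMem h2 hfin, ind_of_mem h4]
    push_cast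
    ring
  · have h1 : A ∩ Icc 1 (N + 1) = A ∩ Icc 1 N := by
      ext x
      simp only [mem_inter_iff, mem_Icc]
      constructor
      · rintro ⟨hx, hx1, hx2⟩
        refine ⟨hx, hx1, ?_⟩
        rcases Nat.lt_or_ge x (N + 1) with h2 | h2
        · omega
        · exfalso
          apply h
          rwa [show N + 1 = x by omega]
      · rintro ⟨hx, hx1, hx2⟩
        exact ⟨hx, hx1, by omega⟩
    have h4 : ((N : ℤ) + 1) ∉ toInt A := by
      intro h5
      apply h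
      rw [← mem_toInt]
      exact_mod_cast h5
    rw [h1, ind_of_notMem h4, add_zero]

lemma ncard_eq (A : Set ℕ) (N : ℕ) :
    ((A ∩ Icc 1 N).ncard : ℝ) = ∑ y ∈ Finset.range N, ind (toInt A) (y + 1) := by
  induction N with
  | zero => simp
  | succ N ih => rw [ncard_succ, ih, Finset.sum_range_succ]

/-- The main result, in terms of frequent large density. -/
theorem core {l m : ℕ} (hm : 0 < m) (hml : m ≤ l) (A : Set ℕ) {c : ℝ}
    (hc : (l : ℝ) / (l + m) < c)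
    (hfreq : ∃ᶠ N : ℕ in atTop, c * N ≤ ((A ∩ Icc 1 N).ncard : ℝ)) :
    ∃ B : Set ℕ, B.Infinite ∧ (∀ b ∈ B, 1 ≤ b) ∧ ∃ t : ℕ, 1 ≤ t ∧
      ∀ b₁ ∈ B, ∀ b₂ ∈ B, b₁ ≠ b₂ → m * b₁ + l * b₂ + t ∈ A := by
  have hl : 0 < l := by omega
  set f : ℤ → ℝ := ind (toInt A) with hf
  have f0 : ∀ n, 0 ≤ f n := ind_nonneg _
  have f1 : ∀ n, f n ≤ 1 := ind_le_one _
  have f01 : ∀ n, f n = 0 ∨ f n = 1 := fun n => by
    by_cases h : n ∈ toInt A
    · exact Or.inr (ind_of_mem h)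
    · exact Or.inl (ind_of_notMem h)
  have hfreq' : ∃ᶠ N : ℕ in atTop, c * N ≤ ∑ y ∈ Finset.range N, f (y + 1) :=
    hfreq.mono fun N hN => by rwa [ncard_eq] at hN
  obtain ⟨μ, hμ, hgt⟩ := exists_erg_mean hm hml f0 f1 hc hfreq'
  set Q : ℕ := l * m * (l + m) with hQ
  -- the families
  set FF : ℤ → Fam := fun t => fam f f0 f1 l m hl hm t with hFF
  set GG : ℤ → Fam := fun t => fam f f0 f1 m l hm hl t with hGG
  have s1 := sum_mean_J μ f0 f1 hl hm (Q := Q) (r := m) (by rw [hQ]; ring)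
  have s2 := sum_mean_J μ f0 f1 hm hl (Q := Q) (r := l) (by rw [hQ]; ring)
  have hsum : ∑ t ∈ Finset.range Q, (1:ℝ) < ∑ t ∈ Finset.range Q,
      ((cm μ.1 ((FF (t + 1 : ℤ)).J μ (Rts (l + m) (by omega)))).re +
      (cm μ.1 ((GG (t + 1 : ℤ)).J μ (Rts (m + l) (by omega)))).re) := by
    rw [Finset.sum_add_distrib, ← Complex.re_sum, ← Complex.re_sum, s1, s2, Complex.ofReal_re,
      Complex.ofReal_re, Finset.sum_const, Finset.card_range, nsmul_eq_mul, mul_one]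
    exact hgt
  obtain ⟨t, -, ht⟩ := Finset.exists_lt_of_sum_lt hsum
  set F := FF (t + 1 : ℤ) with hF
  set G := GG (t + 1 : ℤ) with hG
  set v : ℝ := (cm μ.1 (F.J μ (Rts (l + m) (by omega)))).re +
      (cm μ.1 (G.J μ (Rts (m + l) (by omega)))).re with hv
  set δ : ℝ := (v - 1) / 2 with hδ
  have hδ0 : 0 < δ := by rw [hδ]; linarith
  have hpos : Pos μ F G δ univ := by
    classical
    refine pos_univ μ F G hδ0 (Θ₀ := Rts F.q F.hq ∪ Rts G.q G.hq) fun Θ hΘ => ?_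
    have e1 := mean_J_eq μ F (Finset.union_subset_left hΘ)
    have e2 := mean_J_eq μ G (Finset.union_subset_right hΘ)
    have e3 : μ.1 (fun x => (F.J μ Θ x).re) = (cm μ.1 (F.J μ Θ)).re := rfl
    have e4 : μ.1 (fun x => (G.J μ Θ x).re) = (cm μ.1 (G.J μ Θ)).re := rfl
    rw [μ.2.add _ _ (F.bdd_J μ Θ).re (G.bdd_J μ Θ).re, e3, e4, e1, e2]
    have : 1 + 2 * δ = v := by rw [hδ]; ring
    rw [this]
    exact le_of_eq rfl
  have hF01 : ∀ b n, F.X b n = 0 ∨ F.X b n = 1 := fun b n => f01 _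
  have hG01 : ∀ b n, G.X b n = 0 ∨ G.X b n = 1 := fun b n => f01 _
  obtain ⟨b, hbmono, hbpos, hbE⟩ := recursion (P := Pos μ F G δ) (E := Eset F G) hpos
    fun D hD N₀ => step hμ hF01 hG01 hδ0 hD N₀
  have hmemA : ∀ x : ℕ, f x = 1 → x ∈ A := by
    intro x hx
    by_contra hxA
    have : (x : ℤ) ∉ toInt A := fun h => hxA (mem_toInt.1 h)
    rw [hf, ind_of_notMem this] at hx
    exact zero_ne_one hx
  set b' : ℕ → ℕ := fun k => (b k).toNat with hb'
  have hbb' : ∀ k, (b' k : ℤ) = b k := fun k => Int.toNat_of_nonneg (hbpos k).le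
  have hb'mono : StrictMono b' := fun i j hij => by
    have := hbmono hij
    rw [← hbb', ← hbb'] at this
    exact_mod_cast this
  refine ⟨range b', infinite_range_of_injective hb'mono.injective, ?_, t + 1, by omega, ?_⟩
  · rintro _ ⟨k, rfl⟩
    have h1 := hbpos k
    rw [← hbb'] at h1
    exact_mod_cast h1
  · rintro _ ⟨i, rfl⟩ _ ⟨j, rfl⟩ hne
    apply hmemA
    rcases lt_trichotomy i j with hij | hij | hij
    · have h1 := (hbE i j hij).1
      have h2 : F.X (b i) (b j) = f (m * b i + l * b j + (t + 1)) := rfl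
      rw [h2] at h1
      rw [← h1]
      congr 1
      push_cast
      rw [hbb', hbb']
    · exact absurd (congrArg b' hij) hne
    · have h1 := (hbE j i hij).2
      have h2 : G.X (b j) (b i) = f (l * b j + m * b i + (t + 1)) := rfl
      rw [h2] at h1
      rw [← h1]
      congr 1
      push_cast
      rw [hbb', hbb']
      ring

/-- The upper density of a set of natural numbers. -/
noncomputable def upperDensity (A : Set ℕ) : ℝ :=
  Filter.limsup (fun N : ℕ => ((A ∩ Set.Icc 1 N).ncard : ℝ) / N) Filter.atTop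

lemma ncard_le (A : Set ℕ) (N : ℕ) : ((A ∩ Icc 1 N).ncard : ℝ) ≤ N := by
  have h1 : (A ∩ Icc 1 N).ncard ≤ (Icc 1 N).ncard :=
    ncard_le_ncard inter_subset_right (finite_Icc 1 N)
  have h2 : (Icc 1 N).ncard = N := by
    rw [← Finset.coe_Icc, ncard_coe_finset, Nat.card_Icc]; omega
  rw [h2] at h1
  exact_mod_cast h1

lemma freq_of_lt {A : Set ℕ} {a : ℝ} (h : a < upperDensity A) :
    ∃ c, a < c ∧ ∃ᶠ N : ℕ in atTop, c * N ≤ ((A ∩ Icc 1 N).ncard : ℝ) := by
  obtain ⟨c, hac, hc⟩ := exists_between h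
  refine ⟨c, hac, ?_⟩
  have hcob : IsCoboundedUnder (· ≤ ·) atTop (fun N : ℕ => ((A ∩ Set.Icc 1 N).ncard : ℝ) / N) :=
    isCoboundedUnder_le_of_le atTop (x := 0) fun N => by positivity
  have h1 := Filter.frequently_lt_of_lt_limsup hcob hc
  refine (h1.and_eventually (eventually_gt_atTop 0)).mono ?_
  rintro N ⟨hN, hN0⟩
  have hN0' : (0:ℝ) < N := by exact_mod_cast hN0
  exact ((lt_div_iff₀ hN0').1 hN).le

/-- First question. -/
theorem question_one {l m : ℕ} (hm : 0 < m) (hml : m ≤ l) (A : Set ℕ)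
    (hA : (l : ℝ) / (l + m) < upperDensity A) :
    ∃ B : Set ℕ, B.Infinite ∧ (∀ b ∈ B, 1 ≤ b) ∧ ∃ t : ℕ, 1 ≤ t ∧
      ∀ b₁ ∈ B, ∀ b₂ ∈ B, b₁ ≠ b₂ → m * b₁ + l * b₂ + t ∈ A := by
  obtain ⟨c, hc, hfreq⟩ := freq_of_lt hA
  exact core hm hml A hc hfreq

/-- Second question. -/
theorem question_two {l m : ℕ} (hm : 0 < m) (hml : m ≤ l) (A : Set ℕ)
    (hA : 1 - (m : ℝ) / (l + m) ^ 2 < upperDensity A) :
    ∃ B : Set ℕ, B.Infinite ∧ (∀ b ∈ B, 1 ≤ b) ∧
      ∀ b₁ ∈ B, ∀ b₂ ∈ B, b₁ ≠ b₂ → m * b₁ + l * b₂ ∈ A := by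
  obtain ⟨c, hc, hfreq⟩ := freq_of_lt hA
  set q : ℕ := l + m with hq
  have hq0 : 0 < q := by omega
  have hq0' : (0:ℝ) < q := by exact_mod_cast hq0
  have hqe : (l : ℝ) + m = q := by rw [hq]; push_cast; ring
  rw [hqe] at hc
  set A' : Set ℕ := {x | q * x ∈ A} with hA'
  -- the counting inequality
  have hcount : ∀ N : ℕ, ((N / q : ℕ) : ℝ) - ((A' ∩ Icc 1 (N / q)).ncard : ℝ) ≤
      N - ((A ∩ Icc 1 N).ncard : ℝ) := by
    intro N
    have hfin : ∀ (C : Set ℕ) N, (C ∩ Icc 1 N).Finite := fun C N =>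
      (finite_Icc 1 N).inter_of_right C
    have hcompl : ∀ (C : Set ℕ) (N : ℕ), (N : ℝ) - ((C ∩ Icc 1 N).ncard : ℝ) =
        ((Cᶜ ∩ Icc 1 N).ncard : ℝ) := by
      intro C N
      have h1 : (C ∩ Icc 1 N).ncard + (Cᶜ ∩ Icc 1 N).ncard = (Icc 1 N).ncard := by
        rw [← ncard_union_eq _ (hfin _ _) (hfin _ _), ← union_inter_distrib_right, union_compl_self,
          univ_inter]
        exact (disjoint_compl_right.mono inter_subset_left inter_subset_left)
      have h2 : (Icc 1 N).ncard = N := by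
        rw [← Finset.coe_Icc, ncard_coe_finset, Nat.card_Icc]; omega
      rw [h2] at h1
      have h3 : ((C ∩ Icc 1 N).ncard : ℝ) + ((Cᶜ ∩ Icc 1 N).ncard : ℝ) = N := by exact_mod_cast h1
      linarith
    rw [hcompl, hcompl]
    have h4 : (A'ᶜ ∩ Icc 1 (N / q)).ncard ≤ (Aᶜ ∩ Icc 1 N).ncard := by
      refine ncard_le_ncard_of_injOn (fun x => q * x) ?_ ?_ (hfin _ _)
      · rintro x ⟨hx, hx1, hx2⟩
        refine ⟨hx, ?_, ?_⟩
        · exact Nat.mul_pos hq0 hx1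
        · exact (Nat.mul_le_mul_left q hx2).trans (Nat.mul_div_le N q)
      · intro x _ y _ hxy
        exact Nat.eq_of_mul_eq_mul_left hq0 hxy
    exact_mod_cast h4
  -- choose the new density
  have hc1 : (l : ℝ) / q < 1 - (1 - c) * q := by
    have h1 : (1 - c) < m / (q:ℝ) ^ 2 := by linarith
    have h2 : (1 - c) * q < m / (q:ℝ) ^ 2 * q := mul_lt_mul_of_pos_right h1 hq0'
    have h3 : (m : ℝ) / (q:ℝ) ^ 2 * q = m / q := by field_simp
    have h4 : (l : ℝ) / q = 1 - m / q := by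
      field_simp
      linarith
    linarith
  obtain ⟨c', hc'1, hc'2⟩ := exists_between hc1
  have hdiv : Tendsto (fun N : ℕ => N / q) atTop atTop := Nat.tendsto_div_const_atTop hq0.ne'
  have hfreq' : ∃ᶠ N : ℕ in atTop, c' * N ≤ ((A' ∩ Icc 1 N).ncard : ℝ) := by
    refine hdiv.frequently (p := fun N : ℕ => c' * N ≤ ((A' ∩ Icc 1 N).ncard : ℝ)) ?_
    set gap : ℝ := 1 - (1 - c) * q - c' with hgap
    have hgap0 : 0 < gap := by rw [hgap]; linarith
    have hev : ∀ᶠ N : ℕ in atTop, |1 - c| * q / gap ≤ ((N / q : ℕ) : ℝ) :=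
      (tendsto_natCast_atTop_atTop.comp hdiv).eventually_ge_atTop _
    refine (hfreq.and_eventually hev).mono ?_
    rintro N ⟨hN, hN2⟩
    have h1 := hcount N
    have hdm : N / q * q ≤ N := Nat.div_mul_le_self N q
    have h2 : ((N / q : ℕ) : ℝ) * q ≤ N := by exact_mod_cast hdm
    have h3 : (N : ℝ) ≤ ((N / q : ℕ) : ℝ) * q + q := by
      have := (Nat.lt_div_mul_add hq0 (a := N)).le
      exact_mod_cast this
    set k : ℝ := ((N / q : ℕ) : ℝ) with hk
    have h4 : (1 - c) * (N - k * q) ≤ |1 - c| * q := by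
      calc (1 - c) * (N - k * q) ≤ |1 - c| * (N - k * q) :=
            mul_le_mul_of_nonneg_right (le_abs_self _) (by linarith)
        _ ≤ |1 - c| * q := mul_le_mul_of_nonneg_left (by linarith) (abs_nonneg _)
    have h5 : |1 - c| * q ≤ gap * k := by
      rw [div_le_iff₀ hgap0] at hN2
      linarith
    have h6 : gap * k = k - (1 - c) * q * k - c' * k := by rw [hgap]; ring
    nlinarith
  have hc'q : (l : ℝ) / (l + m) < c' := by rw [hqe]; exact hc'1
  obtain ⟨B, hBinf, hB1, t, ht, hBA⟩ := core hm hml A' hc'q hfreq'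
  refine ⟨(fun b => q * b + t) '' B, hBinf.image ?_, ?_, ?_⟩
  · intro x _ y _ hxy
    simp only at hxy
    exact Nat.eq_of_mul_eq_mul_left hq0 (by omega)
  · rintro _ ⟨b, hb, rfl⟩
    simp only
    omega
  · rintro _ ⟨b₁, hb₁, rfl⟩ _ ⟨b₂, hb₂, rfl⟩ hne
    have hne' : b₁ ≠ b₂ := fun h => hne (by rw [h])
    have h1 : q * (m * b₁ + l * b₂ + t) ∈ A := hBA b₁ hb₁ b₂ hb₂ hne'
    have h2 : m * (q * b₁ + t) + l * (q * b₂ + t) = q * (m * b₁ + l * b₂ + t) := by
      rw [hq]; ring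
    simp only
    rw [h2]
    exact h1

end Pool.Agent.Helper4.Sumset
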